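import Pool.Agent.Lib_helper94.XO.P1.Ent

/-!
# Part I, I.4/I.5: conditional copies and the information inequality of the determination lemma
-/

set_option autoImplicit false

namespace Pool.Agent.XO

open Finset

section Copy

variable {Ω α β γ χ : Type} [Fintype Ω] [Fintype α] [Fintype β] [Fintype γ] [Fintype χ]

open Classical in
/-- the law of two conditional copies over `W` -/
noncomputable def cpy (P : Ω → ℝ) (W : Ω → β) (x : Ω × Ω) : ℝ :=
  if W x.1 = W x.2 then P x.1 * P x.2 / lw P W (W x.1) else 0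

omit [Fintype β] in
theorem cpy_nonneg {P : Ω → ℝ} (hP : IsLaw P) (W : Ω → β) (x : Ω × Ω) : 0 ≤ cpy P W x := by
  unfold cpy
  split_ifs
  · exact div_nonneg (mul_nonneg (hP.nonneg _) (hP.nonneg _)) (lw_nonneg hP.nonneg _ _)
  · exact le_rfl

omit [Fintype β] in
theorem cpy_swap (P : Ω → ℝ) (W : Ω → β) (x : Ω × Ω) : cpy P W x.swap = cpy P W x := by
  unfold cpy
  simp only [Prod.fst_swap, Prod.snd_swap]
  by_cases h : W x.1 = W x.2
  · rw [if_pos h, if_pos h.symm, h, mul_comm]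
  · rw [if_neg h, if_neg (fun h' => h h'.symm)]

omit [Fintype β] in
/-- almost surely `W` is common -/
theorem cpy_ae {P : Ω → ℝ} {W : Ω → β} {x : Ω × Ω} (h : cpy P W x ≠ 0) : W x.1 = W x.2 := by
  by_contra h'
  apply h
  unfold cpy
  rw [if_neg h']

omit [Fintype β] in
theorem cpy_ne {P : Ω → ℝ} {W : Ω → β} {x : Ω × Ω} (h : cpy P W x ≠ 0) :
    P x.1 ≠ 0 ∧ P x.2 ≠ 0 := by
  have hW := cpy_ae h
  unfold cpy at h
  rw [if_pos hW] at h
  constructor
  · intro h1; apply h; rw [h1]; simp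
  · intro h1; apply h; rw [h1]; simp

omit [Fintype β] in
theorem cpy_sum_snd {P : Ω → ℝ} (hP : IsLaw P) (W : Ω → β) (ω : Ω) :
    ∑ ω', cpy P W (ω, ω') = P ω := by
  classical
  unfold cpy
  have h1 : ∀ ω', (if W ω = W ω' then P ω * P ω' / lw P W (W ω) else 0) =
      P ω / lw P W (W ω) * (if W ω' = W ω then P ω' else 0) := by
    intro ω'
    by_cases h : W ω = W ω'
    · rw [if_pos h, if_pos h.symm]; ring
    · rw [if_neg h, if_neg (fun h' => h h'.symm), mul_zero]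
  rw [Finset.sum_congr rfl (fun ω' _ => h1 ω'), ← Finset.mul_sum]
  have h2 : ∑ ω', (if W ω' = W ω then P ω' else 0) = lw P W (W ω) := by
    unfold lw
    exact Finset.sum_congr rfl fun ω' _ => by congr
  rw [h2]
  rcases (hP.nonneg ω).eq_or_lt with h | h
  · rw [← h, zero_div, zero_mul]
  · have := lt_of_lt_of_le h (le_lw hP.nonneg W ω)
    field_simp

omit [Fintype β] in
theorem cpy_sum_fst {P : Ω → ℝ} (hP : IsLaw P) (W : Ω → β) (ω : Ω) :
    ∑ ω', cpy P W (ω', ω) = P ω := by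
  rw [← cpy_sum_snd hP W ω]
  exact Finset.sum_congr rfl fun ω' _ => (cpy_swap P W (ω', ω)).symm

omit [Fintype β] in
theorem IsLaw.cpy {P : Ω → ℝ} (hP : IsLaw P) (W : Ω → β) : IsLaw (cpy P W) := by
  refine ⟨cpy_nonneg hP W, ?_⟩
  rw [Fintype.sum_prod_type, Finset.sum_congr rfl (fun ω _ => cpy_sum_snd hP W ω)]
  exact hP.sum_one

omit [Fintype β] [Fintype α] in
theorem lw_cpy_fst {P : Ω → ℝ} (hP : IsLaw P) (W : Ω → β) (X : Ω → α) :
    lw (cpy P W) (fun x => X x.1) = lw P X := by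
  classical
  ext a
  unfold lw
  rw [Fintype.sum_prod_type]
  apply Finset.sum_congr rfl
  intro ω _
  simp only
  by_cases h : X ω = a
  · simp only [if_pos h]
    exact cpy_sum_snd hP W ω
  · simp only [if_neg h, Finset.sum_const_zero]

omit [Fintype β] [Fintype α] in
theorem lw_cpy_snd {P : Ω → ℝ} (hP : IsLaw P) (W : Ω → β) (X : Ω → α) :
    lw (cpy P W) (fun x => X x.2) = lw P X := by
  classical
  ext a
  unfold lw
  rw [Fintype.sum_prod_type_right]
  apply Finset.sum_congr rfl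
  intro ω _
  simp only
  by_cases h : X ω = a
  · simp only [if_pos h]
    exact cpy_sum_fst hP W ω
  · simp only [if_neg h, Finset.sum_const_zero]

omit [Fintype β] in
theorem HH_cpy_fst {P : Ω → ℝ} (hP : IsLaw P) (W : Ω → β) (X : Ω → α) :
    HH (cpy P W) (fun x => X x.1) = HH P X := by
  unfold HH; rw [lw_cpy_fst hP]

omit [Fintype β] in
theorem HH_cpy_snd {P : Ω → ℝ} (hP : IsLaw P) (W : Ω → β) (X : Ω → α) :
    HH (cpy P W) (fun x => X x.2) = HH P X := by
  unfold HH; rw [lw_cpy_snd hP]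

omit [Fintype α] [Fintype β] [Fintype γ] in
/-- conditional independence of the copies -/
theorem lw_cpy {P : Ω → ℝ} (hP : IsLaw P) (W : Ω → β) (F : Ω → α) (G : Ω → γ)
    (a : α) (c : γ) (b : β) :
    lw (cpy P W) (fun x => (F x.1, G x.2, W x.1)) (a, c, b) * lw P W b =
      lw P (fun ω => (F ω, W ω)) (a, b) * lw P (fun ω => (G ω, W ω)) (c, b) := by
  classical
  have h1 : lw P (fun ω => (F ω, W ω)) (a, b) * lw P (fun ω => (G ω, W ω)) (c, b) =
      ∑ x : Ω × Ω, (if F x.1 = a ∧ G x.2 = c ∧ W x.1 = b ∧ W x.2 = b then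
        P x.1 * P x.2 else 0) := by
    unfold lw
    rw [Finset.sum_mul_sum, Fintype.sum_prod_type]
    apply Finset.sum_congr rfl; intro ω _
    apply Finset.sum_congr rfl; intro ω' _
    simp only [Prod.mk.injEq]
    by_cases h1 : F ω = a <;> by_cases h2 : G ω' = c <;> by_cases h3 : W ω = b <;>
      by_cases h4 : W ω' = b <;> simp [h1, h2, h3, h4]
  rw [h1]
  unfold lw
  rw [Finset.sum_mul]
  apply Finset.sum_congr rfl
  rintro ⟨ω, ω'⟩ _
  simp only [Prod.mk.injEq]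
  by_cases h1 : F ω = a <;> by_cases h2 : G ω' = c <;> by_cases h3 : W ω = b
  · by_cases h4 : W ω' = b
    · rw [if_pos ⟨h1, h2, h3⟩, if_pos ⟨h1, h2, h3, h4⟩]
      unfold cpy
      simp only
      rw [if_pos (h3.trans h4.symm), h3]
      have h5 : (∑ x, if W x = b then P x else 0) = lw P W b := rfl
      rw [h5]
      rcases (lw_nonneg hP.nonneg W b).eq_or_lt with h6 | h6
      · have h7 : P ω = 0 := by
          have := le_lw hP.nonneg W ω
          rw [h3, ← h6] at this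
          exact le_antisymm this (hP.nonneg ω)
        rw [h7]; simp
      · field_simp
    · rw [if_pos ⟨h1, h2, h3⟩, if_neg (fun h => h4 h.2.2.2)]
      unfold cpy
      simp only
      rw [if_neg (fun h => h4 (h.symm.trans h3)), zero_mul]
  all_goals simp [h1, h2, h3]

/-- entropy of conditionally independent copies -/
theorem HH_cpy {P : Ω → ℝ} (hP : IsLaw P) (W : Ω → β) (F : Ω → α) (G : Ω → γ) :
    HH (cpy P W) (fun x => (F x.1, G x.2, W x.1)) =
      HH P (fun ω => (F ω, W ω)) + HH P (fun ω => (G ω, W ω)) - HH P W := by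
  rw [← HH_cpy_fst hP W (fun ω => (F ω, W ω)), ← HH_cpy_snd hP W (fun ω => (G ω, W ω)),
    ← HH_cpy_fst hP W W, HH_eq _ (fun x : Ω × Ω => (F x.1, G x.2, W x.1)),
    HH_eq _ (fun x : Ω × Ω => (F x.1, W x.1)), HH_eq _ (fun x : Ω × Ω => (G x.2, W x.2)),
    HH_eq _ (fun x : Ω × Ω => W x.1), ← Finset.sum_add_distrib, ← Finset.sum_sub_distrib]
  apply Finset.sum_congr rfl
  rintro ⟨ω, ω'⟩ _
  rw [lw_cpy_fst hP W (fun ω => (F ω, W ω)), lw_cpy_snd hP W (fun ω => (G ω, W ω)),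
    lw_cpy_fst hP W W]
  by_cases h0 : cpy P W (ω, ω') = 0
  · rw [h0]; ring
  · have hW : W ω = W ω' := cpy_ae h0
    obtain ⟨h1, h2⟩ := cpy_ne h0
    have h1' : 0 < P ω := lt_of_le_of_ne (hP.nonneg ω) (Ne.symm h1)
    have h2' : 0 < P ω' := lt_of_le_of_ne (hP.nonneg ω') (Ne.symm h2)
    have hc : 0 < cpy P W (ω, ω') := lt_of_le_of_ne (cpy_nonneg hP W _) (Ne.symm h0)
    have e1 := lt_of_lt_of_le h1' (le_lw hP.nonneg (fun ω => (F ω, W ω)) ω)
    have e2 := lt_of_lt_of_le h2' (le_lw hP.nonneg (fun ω => (G ω, W ω)) ω')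
    have e3 := lt_of_lt_of_le h1' (le_lw hP.nonneg W ω)
    have e4 := lt_of_lt_of_le hc (le_lw (hP.cpy W).nonneg
      (fun x : Ω × Ω => (F x.1, G x.2, W x.1)) (ω, ω'))
    have key := lw_cpy hP W F G (F ω) (G ω') (W ω)
    simp only at e1 e2 e3 e4 ⊢
    rw [← hW] at e2 ⊢
    have hlog : Real.log (lw (cpy P W) (fun x => (F x.1, G x.2, W x.1)) (F ω, G ω', W ω)) +
        Real.log (lw P W (W ω)) = Real.log (lw P (fun ω => (F ω, W ω)) (F ω, W ω)) +
        Real.log (lw P (fun ω => (G ω, W ω)) (G ω', W ω)) := by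
      rw [← Real.log_mul e4.ne' e3.ne', ← Real.log_mul e1.ne' e2.ne', key]
    have : Real.log (lw (cpy P W) (fun x => (F x.1, G x.2, W x.1)) (F ω, G ω', W ω)) =
        Real.log (lw P (fun ω => (F ω, W ω)) (F ω, W ω)) +
        Real.log (lw P (fun ω => (G ω, W ω)) (G ω', W ω)) - Real.log (lw P W (W ω)) := by
      linarith
    rw [this]
    ring

/-- **I.5 (DLgen).** `B = φ (W)`, `X` independent of `(Y, B)`; `I((Y, Y'); X) ≤ H(Y|B) - H(Y|W)`. -/
theorem dl_info {P : Ω → ℝ} (hP : IsLaw P) (Y : Ω → α) (X : Ω → χ) (W : Ω → β) (B : Ω → γ)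
    (hB : ∃ φ : β → γ, ∀ ω, B ω = φ (W ω))
    (hind : ∀ x y b, lw P (fun ω => (X ω, Y ω, B ω)) (x, y, b) =
      lw P X x * lw P (fun ω => (Y ω, B ω)) (y, b)) :
    HH (cpy P W) (fun x => (Y x.1, Y x.2)) + HH P X -
        HH (cpy P W) (fun x => ((Y x.1, Y x.2), X x.1)) ≤
      HH P (fun ω => (Y ω, B ω)) - HH P B - (HH P (fun ω => (Y ω, W ω)) - HH P W) := by
  obtain ⟨φ, hφ⟩ := hB
  have hQ := hP.cpy W
  -- s1
  have s1 := HH_submod hQ (fun x : Ω × Ω => X x.1) (fun x : Ω × Ω => B x.1)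
    (fun x : Ω × Ω => (Y x.1, Y x.2))
  have s2 := HH_submod hQ (fun x : Ω × Ω => Y x.1) (fun x : Ω × Ω => Y x.2)
    (fun x : Ω × Ω => B x.1)
  have s3 := HH_submod hQ (fun x : Ω × Ω => Y x.2) (fun x : Ω × Ω => W x.1)
    (fun x : Ω × Ω => (Y x.1, B x.1, X x.1))
  have s4 := HH_cpy hP W (fun ω => (Y ω, B ω, X ω)) Y
  have s5 : HH P (fun ω => (X ω, Y ω, B ω)) = HH P X + HH P (fun ω => (Y ω, B ω)) :=
    HH_indep hP X (fun ω => (Y ω, B ω)) (fun x y => by
      obtain ⟨y, b⟩ := y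
      exact hind x y b)
  -- rewritings
  have r1 : HH (cpy P W) (fun x : Ω × Ω => (X x.1, Y x.1, Y x.2)) =
      HH (cpy P W) (fun x => ((Y x.1, Y x.2), X x.1)) :=
    HH_congr hQ _ _ (fun a => (a.2, a.1)) (fun a => (a.2, a.1)) (fun _ => rfl) (fun _ => rfl)
  have r2 : HH (cpy P W) (fun x : Ω × Ω => (X x.1, B x.1, Y x.1, Y x.2)) =
      HH (cpy P W) (fun x : Ω × Ω => (Y x.2, Y x.1, B x.1, X x.1)) :=
    HH_congr hQ _ _ (fun a => (a.2.2.2, a.2.2.1, a.2.1, a.1))
      (fun a => (a.2.2.2, a.2.2.1, a.2.1, a.1)) (fun _ => rfl) (fun _ => rfl)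
  have r3 : HH (cpy P W) (fun x : Ω × Ω => (B x.1, Y x.1, Y x.2)) =
      HH (cpy P W) (fun x : Ω × Ω => (Y x.1, Y x.2, B x.1)) :=
    HH_congr hQ _ _ (fun a => (a.2.1, a.2.2, a.1))
      (fun a => (a.2.2, a.1, a.2.1)) (fun _ => rfl) (fun _ => rfl)
  have r4 : HH (cpy P W) (fun x : Ω × Ω => (Y x.2, W x.1, Y x.1, B x.1, X x.1)) =
      HH (cpy P W) (fun x : Ω × Ω => ((Y x.1, B x.1, X x.1), Y x.2, W x.1)) :=
    HH_congr hQ _ _ (fun a => (a.2.2, a.1, a.2.1))
      (fun a => (a.2.1, a.2.2, a.1)) (fun _ => rfl) (fun _ => rfl)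
  have r5 : HH (cpy P W) (fun x : Ω × Ω => (W x.1, Y x.1, B x.1, X x.1)) =
      HH P (fun ω => ((Y ω, B ω, X ω), W ω)) := by
    rw [← HH_cpy_fst hP W (fun ω => ((Y ω, B ω, X ω), W ω))]
    exact HH_congr hQ _ _ (fun a => (a.2, a.1)) (fun a => (a.2, a.1)) (fun _ => rfl)
      (fun _ => rfl)
  have r6 : HH (cpy P W) (fun x : Ω × Ω => (Y x.1, B x.1, X x.1)) =
      HH P (fun ω => (X ω, Y ω, B ω)) := by
    rw [← HH_cpy_fst hP W (fun ω => (X ω, Y ω, B ω))]
    exact HH_congr hQ _ _ (fun a => (a.2.2, a.1, a.2.1)) (fun a => (a.2.1, a.2.2, a.1))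
      (fun _ => rfl) (fun _ => rfl)
  have r7 : HH (cpy P W) (fun x : Ω × Ω => (Y x.1, B x.1)) = HH P (fun ω => (Y ω, B ω)) :=
    HH_cpy_fst hP W (fun ω => (Y ω, B ω))
  have r8 : HH (cpy P W) (fun x : Ω × Ω => (Y x.2, B x.1)) = HH P (fun ω => (Y ω, B ω)) := by
    rw [← HH_cpy_snd hP W (fun ω => (Y ω, B ω))]
    apply HH_congr_ae
    intro x hx
    have := cpy_ae hx
    rw [hφ, hφ, this]
  have r9 : HH (cpy P W) (fun x : Ω × Ω => B x.1) = HH P B := HH_cpy_fst hP W B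
  rw [r1, r2, r3] at s1
  rw [r7, r8, r9] at s2
  rw [r4, r5, r6, s4, s5] at s3
  linarith

/-- mutual information is nonnegative -/
theorem info_nonneg {P : Ω → ℝ} (hP : IsLaw P) (A : Ω → α) (X : Ω → χ) :
    0 ≤ HH P A + HH P X - HH P (fun ω => (A ω, X ω)) := by
  have := HH_subadd hP A X
  linarith

/-- the tail of the information density -/
theorem info_tail {P : Ω → ℝ} (hP : IsLaw P) (A : Ω → α) (X : Ω → χ) {ι M : ℝ} (hM : 1 ≤ M)
    (hι : HH P A + HH P X - HH P (fun ω => (A ω, X ω)) ≤ ι) :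
    pr P (fun ω => Real.exp (M * (ι + 1)) * (lw P A (A ω) * lw P X (X ω)) <
      lw P (fun ω => (A ω, X ω)) (A ω, X ω)) ≤ 1 / M := by
  classical
  have hι0 : 0 ≤ ι := (info_nonneg hP A X).trans hι
  set q := fun ω => lw P (fun ω => (A ω, X ω)) (A ω, X ω) with hq
  set u := fun ω => lw P A (A ω) with hu
  set v := fun ω => lw P X (X ω) with hv
  set D := fun ω => Real.log (q ω) - Real.log (u ω) - Real.log (v ω) with hD
  have hED : ∑ ω, P ω * D ω ≤ ι := by
    refine le_trans (le_of_eq ?_) hι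
    rw [HH_eq P A, HH_eq P X, HH_eq P (fun ω => (A ω, X ω)), ← Finset.sum_add_distrib,
      ← Finset.sum_sub_distrib]
    apply Finset.sum_congr rfl
    intro ω _
    simp only [hD, hq, hu, hv]
    ring
  have hpos : ∀ ω, 0 < P ω → 0 < q ω ∧ 0 < u ω ∧ 0 < v ω := fun ω h =>
    ⟨lt_of_lt_of_le h (le_lw hP.nonneg (fun ω => (A ω, X ω)) ω),
      lt_of_lt_of_le h (le_lw hP.nonneg A ω), lt_of_lt_of_le h (le_lw hP.nonneg X ω)⟩
  have hE1 : ∑ ω, P ω * (u ω * v ω / q ω) ≤ 1 := by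
    have h5 := sum_lw_mul P (fun ω => (A ω, X ω))
      (fun x => lw P A x.1 * lw P X x.2 / lw P (fun ω => (A ω, X ω)) x)
    simp only at h5
    have h6 : ∑ ω, P ω * (u ω * v ω / q ω) = ∑ a : α × χ, lw P (fun ω => (A ω, X ω)) a *
        (lw P A a.1 * lw P X a.2 / lw P (fun ω => (A ω, X ω)) a) := h5.symm
    rw [h6]
    calc ∑ a : α × χ, lw P (fun ω => (A ω, X ω)) a *
        (lw P A a.1 * lw P X a.2 / lw P (fun ω => (A ω, X ω)) a)
        ≤ ∑ a : α × χ, lw P A a.1 * lw P X a.2 := by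
          apply Finset.sum_le_sum
          intro a _
          rcases (lw_nonneg hP.nonneg (fun ω => (A ω, X ω)) a).eq_or_lt with h7 | h7
          · rw [← h7, zero_mul]
            exact mul_nonneg (lw_nonneg hP.nonneg _ _) (lw_nonneg hP.nonneg _ _)
          · rw [mul_div_cancel₀ _ h7.ne']
      _ = (∑ a, lw P A a) * ∑ x, lw P X x := by
          rw [Fintype.sum_prod_type, Finset.sum_mul_sum]
      _ = 1 := by rw [(hP.lw A).sum_one, (hP.lw X).sum_one, one_mul]
  have hterm : ∀ ω, (M * (ι + 1)) * (if Real.exp (M * (ι + 1)) * (u ω * v ω) < q ω then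
      P ω else 0) ≤ P ω * D ω + P ω * (u ω * v ω / q ω) := by
    intro ω
    rcases (hP.nonneg ω).eq_or_lt with h0 | h0
    · rw [← h0]; simp
    · obtain ⟨h1, h2, h3⟩ := hpos ω h0
      have hD' : D ω = Real.log (q ω / (u ω * v ω)) := by
        simp only [hD]
        rw [Real.log_div h1.ne' (by positivity), Real.log_mul h2.ne' h3.ne']
        ring
      have hx : 0 < q ω / (u ω * v ω) := by positivity
      have hinv : u ω * v ω / q ω = (q ω / (u ω * v ω))⁻¹ := by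
        rw [inv_div]
      rw [← mul_add, hD', hinv]
      set x := q ω / (u ω * v ω) with hxdef
      have hlogx : 0 ≤ Real.log x + x⁻¹ := by
        have := Real.add_one_le_exp (-Real.log x)
        rw [Real.exp_neg, Real.exp_log hx] at this
        linarith
      split_ifs with h4
      · rw [mul_comm]
        apply mul_le_mul_of_nonneg_left _ h0.le
        have h5 : Real.exp (M * (ι + 1)) < x := by
          rw [hxdef, lt_div_iff₀ (by positivity)]
          exact h4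
        have h6 : M * (ι + 1) < Real.log x := by
          rw [← Real.log_exp (M * (ι + 1))]
          exact Real.log_lt_log (Real.exp_pos _) h5
        have : 0 < x⁻¹ := by positivity
        linarith
      · rw [mul_zero]
        exact mul_nonneg h0.le hlogx
  have hsum := Finset.sum_le_sum (fun ω (_ : ω ∈ Finset.univ) => hterm ω)
  rw [← Finset.mul_sum, Finset.sum_add_distrib] at hsum
  have hpr : pr P (fun ω => Real.exp (M * (ι + 1)) * (lw P A (A ω) * lw P X (X ω)) <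
      lw P (fun ω => (A ω, X ω)) (A ω, X ω)) =
      ∑ ω, (if Real.exp (M * (ι + 1)) * (u ω * v ω) < q ω then P ω else 0) := by
    unfold pr
    exact Finset.sum_congr rfl fun ω _ => by congr
  rw [hpr, le_div_iff₀ (by linarith)]
  have h9 : (M * (ι + 1)) * ∑ ω, (if Real.exp (M * (ι + 1)) * (u ω * v ω) < q ω then
      P ω else 0) ≤ ι + 1 := by linarith
  have h10 : 0 < ι + 1 := by linarith
  nlinarith

end Copy

end Pool.Agent.XO
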