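import Mathlib

/-!
# Edge isoperimetry in the cube, functional form

`log 2 * sum_i sum_a min (Q a) (Q (a + g_i)) <= Q(A) log Q(A) - sum Q log Q` for independent `g_i`.
-/

set_option autoImplicit false

open Finset

namespace Pool.Agent.Lib_helper94.XO.P1

/-- two point inequality -/
theorem two_point_le {a b : ℝ} (ha : 0 ≤ a) (hab : a ≤ b) :
    Real.log 2 * (2 * a) ≤ (a + b) * Real.log (a + b) - a * Real.log a - b * Real.log b := by
  rcases ha.eq_or_lt with rfl | ha
  · simp
  have hb : 0 < b := lt_of_lt_of_le ha hab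
  have h2 : (0 : ℝ) < 2 := by norm_num
  have hlog2 : Real.log (a + b) = Real.log b + Real.log (1 + a / b) := by
    rw [← Real.log_mul hb.ne' (by positivity)]
    congr 1
    field_simp
    ring
  have hu0 : 0 ≤ a / b := by positivity
  have hu1 : a / b ≤ 1 := (div_le_one hb).2 hab
  have hc := strictConcaveOn_log_Ioi.concaveOn.2 (show (1 : ℝ) ∈ Set.Ioi 0 by simp)
    (show (2 : ℝ) ∈ Set.Ioi 0 by simp) (sub_nonneg.2 hu1) hu0 (by ring)
  simp only [smul_eq_mul, Real.log_one, mul_zero, zero_add, mul_one] at hc
  have hc' : a / b * Real.log 2 ≤ Real.log (1 + a / b) := by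
    refine hc.trans (le_of_eq ?_)
    congr 1
    ring
  have h3 : a * Real.log 2 ≤ b * Real.log (1 + a / b) := by
    have := mul_le_mul_of_nonneg_left hc' hb.le
    calc a * Real.log 2 = b * (a / b * Real.log 2) := by field_simp
      _ ≤ _ := this
  have h4 : Real.log 2 + Real.log a ≤ Real.log (a + b) := by
    rw [← Real.log_mul h2.ne' ha.ne']
    exact Real.log_le_log (by positivity) (by linarith)
  have h5 := mul_le_mul_of_nonneg_left h4 ha.le
  have h6 : b * Real.log (a + b) = b * Real.log b + b * Real.log (1 + a / b) := by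
    rw [hlog2]; ring
  linarith

theorem two_point {a b : ℝ} (ha : 0 ≤ a) (hb : 0 ≤ b) :
    Real.log 2 * (2 * min a b) ≤
      (a + b) * Real.log (a + b) - a * Real.log a - b * Real.log b := by
  rcases le_total a b with h | h
  · rw [min_eq_left h]
    exact two_point_le ha h
  · rw [min_eq_right h, add_comm a b]
    have := two_point_le hb h
    linarith

/-- edge isoperimetric inequality for functions -/
theorem edge {A ι : Type} [AddCommGroup A] [Fintype A] [DecidableEq ι]
    (g : ι → A) (φ : ι → A → ZMod 2) (T : Finset ι)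
    (hφ : ∀ i ∈ T, ∀ j ∈ T, ∀ a, φ j (a + g i) = φ j a + if i = j then 1 else 0) :
    ∀ Q : A → ℝ, (∀ a, 0 ≤ Q a) →
      Real.log 2 * ∑ i ∈ T, ∑ a, min (Q a) (Q (a + g i)) ≤
        (∑ a, Q a) * Real.log (∑ a, Q a) - ∑ a, Q a * Real.log (Q a) := by
  induction T using Finset.induction_on with
  | empty =>
    intro Q hQ
    rw [Finset.sum_empty, mul_zero, sub_nonneg, Finset.sum_mul]
    apply Finset.sum_le_sum
    intro a _
    rcases (hQ a).eq_or_lt with h | h
    · rw [← h, zero_mul, zero_mul]
    · exact mul_le_mul_of_nonneg_left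
        (Real.log_le_log h (Finset.single_le_sum (fun x _ => hQ x) (Finset.mem_univ a))) h.le
  | insert j T hj ih =>
    intro Q hQ
    have ih' := ih (fun i hi k hk => hφ i (Finset.mem_insert_of_mem hi) k
      (Finset.mem_insert_of_mem hk))
    set Q0 : A → ℝ := fun a => if φ j a = 0 then Q a else 0 with hQ0
    set Q1 : A → ℝ := fun a => if φ j a = 0 then 0 else Q a with hQ1
    have h0 : ∀ a, 0 ≤ Q0 a := fun a => by
      simp only [hQ0]; split_ifs <;> [exact hQ a; exact le_rfl]
    have h1 : ∀ a, 0 ≤ Q1 a := fun a => by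
      simp only [hQ1]; split_ifs <;> [exact le_rfl; exact hQ a]
    have hsum : ∑ a, Q a = ∑ a, Q0 a + ∑ a, Q1 a := by
      rw [← Finset.sum_add_distrib]
      apply Finset.sum_congr rfl
      intro a _
      simp only [hQ0, hQ1]
      split_ifs <;> simp
    have hlog : ∑ a, Q a * Real.log (Q a) =
        ∑ a, Q0 a * Real.log (Q0 a) + ∑ a, Q1 a * Real.log (Q1 a) := by
      rw [← Finset.sum_add_distrib]
      apply Finset.sum_congr rfl
      intro a _
      simp only [hQ0, hQ1]
      split_ifs <;> simp
    have hjT : ∀ i ∈ T, ∀ a, φ j (a + g i) = φ j a := by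
      intro i hi a
      have := hφ i (Finset.mem_insert_of_mem hi) j (Finset.mem_insert_self _ _) a
      have hne : i ≠ j := fun h => hj (h ▸ hi)
      rwa [if_neg hne, add_zero] at this
    have hrest : ∑ i ∈ T, ∑ a, min (Q a) (Q (a + g i)) =
        ∑ i ∈ T, ∑ a, min (Q0 a) (Q0 (a + g i)) + ∑ i ∈ T, ∑ a, min (Q1 a) (Q1 (a + g i)) := by
      rw [← Finset.sum_add_distrib]
      apply Finset.sum_congr rfl
      intro i hi
      rw [← Finset.sum_add_distrib]
      apply Finset.sum_congr rfl
      intro a _
      simp only [hQ0, hQ1, hjT i hi a]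
      split_ifs <;> simp
    have hjj : ∀ a, φ j (a + g j) = φ j a + 1 := by
      intro a
      have := hφ j (Finset.mem_insert_self _ _) j (Finset.mem_insert_self _ _) a
      rwa [if_pos rfl] at this
    have hz : ∀ z : ZMod 2, z = 0 ↔ ¬ (z + 1 = 0) := by decide
    have hshift : ∀ R : A → ℝ, ∑ a, R (a + g j) = ∑ a, R a := fun R =>
      Fintype.sum_equiv (Equiv.addRight (g j)) _ _ (fun _ => rfl)
    have ha : ∑ a, min (Q0 a) (Q1 (a + g j)) ≤ min (∑ a, Q0 a) (∑ a, Q1 a) := by
      apply le_min
      · exact Finset.sum_le_sum fun a _ => min_le_left _ _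
      · rw [← hshift Q1]
        exact Finset.sum_le_sum fun a _ => min_le_right _ _
    have hb : ∑ a, min (Q1 a) (Q0 (a + g j)) ≤ min (∑ a, Q0 a) (∑ a, Q1 a) := by
      apply le_min
      · rw [← hshift Q0]
        exact Finset.sum_le_sum fun a _ => min_le_right _ _
      · exact Finset.sum_le_sum fun a _ => min_le_left _ _
    have hj2 : ∑ a, min (Q a) (Q (a + g j)) ≤ 2 * min (∑ a, Q0 a) (∑ a, Q1 a) := by
      have : ∑ a, min (Q a) (Q (a + g j)) =
          ∑ a, min (Q0 a) (Q1 (a + g j)) + ∑ a, min (Q1 a) (Q0 (a + g j)) := by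
        rw [← Finset.sum_add_distrib]
        apply Finset.sum_congr rfl
        intro a _
        simp only [hQ0, hQ1, hjj a]
        by_cases h : φ j a = 0
        · have h' := (hz _).1 h
          rw [if_pos h, if_neg h', if_pos h, if_neg h', min_self, add_zero]
        · have h' : φ j a + 1 = 0 := by
            by_contra h''
            exact h ((hz _).2 h'')
          rw [if_neg h, if_pos h', if_neg h, if_pos h', min_self, zero_add]
      rw [this]
      linarith
    rw [Finset.sum_insert hj, hrest, hsum, hlog]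
    have e0 := ih' Q0 h0
    have e1 := ih' Q1 h1
    have e2 := two_point (Finset.sum_nonneg fun a (_ : a ∈ Finset.univ) => h0 a)
      (Finset.sum_nonneg fun a (_ : a ∈ Finset.univ) => h1 a)
    have hl2 : 0 ≤ Real.log 2 := Real.log_nonneg (by norm_num)
    have e3 := mul_le_mul_of_nonneg_left hj2 hl2
    nlinarith

/-- entropy of a function of a random variable -/
theorem ent_push_le {Ω A : Type} [Fintype Ω] [Fintype A] [DecidableEq A] (P : Ω → ℝ)
    (hP : ∀ x, 0 ≤ P x) (f : Ω → A) :
    ∑ a, Real.negMulLog (∑ x with f x = a, P x) ≤ ∑ x, Real.negMulLog (P x) := by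
  rw [← Finset.sum_fiberwise Finset.univ f (fun x => Real.negMulLog (P x))]
  apply Finset.sum_le_sum
  intro a _
  unfold Real.negMulLog
  rw [← Finset.sum_neg_distrib, Finset.sum_mul]
  apply Finset.sum_le_sum
  intro x hx
  rw [neg_mul, neg_mul, neg_le_neg_iff]
  rcases (hP x).eq_or_lt with h | h
  · rw [← h, zero_mul, zero_mul]
  · exact mul_le_mul_of_nonneg_left
      (Real.log_le_log h (Finset.single_le_sum (f := P) (fun y _ => hP y) hx)) h.le

/-- entropy of a product law -/
theorem ent_prod {I A : Type} [Fintype I] [DecidableEq I] [Fintype A] (p : A → ℝ)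
    (hp1 : ∑ a, p a = 1) :
    ∑ U : I → A, Real.negMulLog (∏ m, p (U m)) =
      (Fintype.card I : ℝ) * ∑ a, Real.negMulLog (p a) := by
  have h1 : ∀ U : I → A, Real.negMulLog (∏ m, p (U m)) =
      ∑ k, ∏ m, (if m = k then Real.negMulLog (p (U m)) else p (U m)) := by
    intro U
    by_cases h : ∀ m, p (U m) ≠ 0
    · unfold Real.negMulLog
      rw [Real.log_prod (fun m _ => h m), Finset.mul_sum]
      apply Finset.sum_congr rfl
      intro k _
      rw [← Finset.mul_prod_erase Finset.univ (fun m => if m = k then -p (U m) *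
        Real.log (p (U m)) else p (U m)) (Finset.mem_univ k), if_pos rfl,
        ← Finset.mul_prod_erase Finset.univ (fun m => p (U m)) (Finset.mem_univ k)]
      have : ∏ x ∈ Finset.univ.erase k, (if x = k then -p (U x) * Real.log (p (U x))
          else p (U x)) = ∏ x ∈ Finset.univ.erase k, p (U x) := by
        apply Finset.prod_congr rfl
        intro x hx
        rw [if_neg (Finset.ne_of_mem_erase hx)]
      rw [this]
      ring
    · push Not at h
      obtain ⟨m, hm⟩ := h
      rw [Finset.prod_eq_zero (Finset.mem_univ m) hm, Real.negMulLog_zero]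
      symm
      apply Finset.sum_eq_zero
      intro k _
      apply Finset.prod_eq_zero (Finset.mem_univ m)
      split_ifs
      · rw [hm, Real.negMulLog_zero]
      · exact hm
  rw [Finset.sum_congr rfl (fun U _ => h1 U), Finset.sum_comm]
  have h2 : ∀ k : I, ∑ U : I → A, ∏ m, (if m = k then Real.negMulLog (p (U m)) else p (U m)) =
      ∑ a, Real.negMulLog (p a) := by
    intro k
    have := Finset.prod_univ_sum (fun _ : I => (Finset.univ : Finset A))
      (fun m a => if m = k then Real.negMulLog (p a) else p a)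
    rw [Fintype.piFinset_univ] at this
    rw [← this, ← Finset.mul_prod_erase Finset.univ _ (Finset.mem_univ k)]
    simp only [if_true]
    rw [Finset.prod_eq_one, mul_one]
    intro x hx
    simp only [if_neg (Finset.ne_of_mem_erase hx)]
    exact hp1
  rw [Finset.sum_congr rfl (fun k _ => h2 k), Finset.sum_const, nsmul_eq_mul, Finset.card_univ]

end Pool.Agent.Lib_helper94.XO.P1
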