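import Pool.Agent.Lib_helper94.XO.Defs
import Pool.Agent.Lib_helper94.XO.P1.KLEdge

/-!
# Part I, I.3: the Kikuchi lemma for every width
-/

set_option autoImplicit false

namespace Pool.Agent.XO

open Finset Pool.Agent.Lib_helper94.XO.P1

section Mat

variable {V : Type} [AddCommGroup V] [Fintype V] [DecidableEq V] {w N : ℕ}

/-- overwrite one entry in each row -/
def kl_ow (U : Fin w × Fin N → V) (c : Fin w → Fin N) (l : Fin w → V) : Fin w × Fin N → V :=
  fun m => if m.2 = c m.1 then l m.1 else U m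

/-- the chosen entries -/
def kl_pick (U : Fin w × Fin N → V) (c : Fin w → Fin N) : Fin w → V := fun t => U (t, c t)

/-- product weight -/
def kl_PP (p : V → ℝ) (U : Fin w × Fin N → V) : ℝ := ∏ m, p (U m)

omit [AddCommGroup V] [Fintype V] [DecidableEq V] in
theorem kl_pick_ow (U : Fin w × Fin N → V) (c : Fin w → Fin N) (l : Fin w → V) :
    kl_pick (kl_ow U c l) c = l := by
  ext t
  simp [kl_pick, kl_ow]

omit [AddCommGroup V] [Fintype V] [DecidableEq V] in
theorem kl_ow_pick (U : Fin w × Fin N → V) (c : Fin w → Fin N) (l : Fin w → V) :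
    kl_ow (kl_ow U c l) c (kl_pick U c) = U := by
  ext ⟨t, k⟩
  simp only [kl_ow, kl_pick]
  split_ifs with h
  · rw [h]
  · rfl

omit [AddCommGroup V] [Fintype V] [DecidableEq V] in
theorem kl_PP_ow (p : V → ℝ) (U : Fin w × Fin N → V) (c : Fin w → Fin N) (l : Fin w → V) :
    pw p (kl_pick U c) * kl_PP p (kl_ow U c l) = kl_PP p U * pw p l := by
  unfold kl_PP pw
  rw [Fintype.prod_prod_type, Fintype.prod_prod_type, ← Finset.prod_mul_distrib,
    ← Finset.prod_mul_distrib]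
  apply Finset.prod_congr rfl
  intro t _
  rw [← Finset.mul_prod_erase univ (fun k => p (kl_ow U c l (t, k))) (mem_univ (c t)),
    ← Finset.mul_prod_erase univ (fun k => p (U (t, k))) (mem_univ (c t))]
  have h1 : kl_ow U c l (t, c t) = l t := by simp [kl_ow]
  have h2 : ∏ k ∈ univ.erase (c t), p (kl_ow U c l (t, k)) =
      ∏ k ∈ univ.erase (c t), p (U (t, k)) := by
    apply Finset.prod_congr rfl
    intro k hk
    have : kl_ow U c l (t, k) = U (t, k) := by
      simp only [kl_ow]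
      rw [if_neg (Finset.ne_of_mem_erase hk)]
    rw [this]
  rw [h1, h2]
  simp only [kl_pick]
  ring

omit [AddCommGroup V] [DecidableEq V] in
theorem kl_sum_prod {I : Type} [Fintype I] [DecidableEq I] (p : V → ℝ) (hp1 : ∑ a, p a = 1) :
    ∑ U : I → V, ∏ m, p (U m) = 1 := by
  have := Finset.prod_univ_sum (fun _ : I => (Finset.univ : Finset V)) (fun _ a => p a)
  rw [Fintype.piFinset_univ] at this
  rw [← this]
  apply Finset.prod_eq_one
  intro _ _
  exact hp1

omit [AddCommGroup V] [DecidableEq V] in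
theorem kl_sum_PP (p : V → ℝ) (hp1 : ∑ a, p a = 1) :
    ∑ U : Fin w × Fin N → V, kl_PP p U = 1 := kl_sum_prod p hp1

omit [AddCommGroup V] [DecidableEq V] in
theorem kl_sum_pw (p : V → ℝ) (hp1 : ∑ a, p a = 1) :
    ∑ l : Fin w → V, pw p l = 1 := kl_sum_prod p hp1

omit [AddCommGroup V] [Fintype V] [DecidableEq V] in
theorem kl_PP_nonneg (p : V → ℝ) (hp : ∀ a, 0 ≤ p a) (U : Fin w × Fin N → V) :
    0 ≤ kl_PP p U := Finset.prod_nonneg fun _ _ => hp _

omit [AddCommGroup V] [Fintype V] [DecidableEq V] in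
theorem kl_pw_nonneg (p : V → ℝ) (hp : ∀ a, 0 ≤ p a) (l : Fin w → V) :
    0 ≤ pw p l := Finset.prod_nonneg fun _ _ => hp _

/-- the involution `(l, U) ↦ (chosen entries of U, U overwritten by l)` -/
def kl_equiv (c : Fin w → Fin N) :
    ((Fin w → V) × (Fin w × Fin N → V)) ≃ ((Fin w → V) × (Fin w × Fin N → V)) where
  toFun x := (kl_pick x.2 c, kl_ow x.2 c x.1)
  invFun x := (kl_pick x.2 c, kl_ow x.2 c x.1)
  left_inv x := by
    simp only [kl_pick_ow, kl_ow_pick]
  right_inv x := by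
    simp only [kl_pick_ow, kl_ow_pick]

omit [AddCommGroup V] [DecidableEq V] in
/-- the law of the overwritten matrix has density `ρ (chosen entries)` -/
theorem kl_dens (p : V → ℝ) (hp1 : ∑ a, p a = 1) (J ρ : (Fin w → V) → ℝ)
    (hρ : ∀ x, J x = ρ x * pw p x) (c : Fin w → Fin N) (F : (Fin w × Fin N → V) → ℝ) :
    ∑ l, J l * ∑ U, kl_PP p U * F (kl_ow U c l) =
      ∑ U, kl_PP p U * ρ (kl_pick U c) * F U := by
  have h1 : ∑ l, J l * ∑ U, kl_PP p U * F (kl_ow U c l) =
      ∑ x : (Fin w → V) × (Fin w × Fin N → V), J x.1 * (kl_PP p x.2 * F (kl_ow x.2 c x.1)) := by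
    rw [Fintype.sum_prod_type]
    apply Finset.sum_congr rfl
    intro l _
    rw [Finset.mul_sum]
  have h2 : ∑ x : (Fin w → V) × (Fin w × Fin N → V),
        J x.1 * (kl_PP p x.2 * F (kl_ow x.2 c x.1)) =
      ∑ x : (Fin w → V) × (Fin w × Fin N → V),
        J (kl_pick x.2 c) * (kl_PP p (kl_ow x.2 c x.1) * F x.2) := by
    refine (Fintype.sum_equiv (kl_equiv c) _ _ ?_).symm
    rintro ⟨l, U⟩
    simp only [kl_equiv, Equiv.coe_fn_mk, kl_ow_pick]
  rw [h1, h2, Fintype.sum_prod_type_right]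
  apply Finset.sum_congr rfl
  intro U _
  have h3 : ∀ l : Fin w → V, J (kl_pick U c) * (kl_PP p (kl_ow U c l) * F U) =
      kl_PP p U * ρ (kl_pick U c) * F U * pw p l := by
    intro l
    rw [hρ]
    calc ρ (kl_pick U c) * pw p (kl_pick U c) * (kl_PP p (kl_ow U c l) * F U)
        = ρ (kl_pick U c) * F U * (pw p (kl_pick U c) * kl_PP p (kl_ow U c l)) := by ring
      _ = _ := by rw [kl_PP_ow]; ring
  rw [Finset.sum_congr rfl (fun l _ => h3 l), ← Finset.mul_sum, kl_sum_pw p hp1, mul_one]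

/-- number of choices that agree with `c` somewhere -/
theorem kl_count (c : Fin w → Fin N) :
    (N : ℝ) * ∑ c' : Fin w → Fin N, (if ∃ t, c t = c' t then (1 : ℝ) else 0) ≤
      (w : ℝ) * (N : ℝ) ^ w := by
  have h1 : ∀ c' : Fin w → Fin N, (if ∃ t, c t = c' t then (1 : ℝ) else 0) ≤
      ∑ t, (if c t = c' t then (1 : ℝ) else 0) := by
    intro c'
    split_ifs with h
    · obtain ⟨t, ht⟩ := h
      calc (1 : ℝ) = if c t = c' t then (1 : ℝ) else 0 := by rw [if_pos ht]
        _ ≤ _ := Finset.single_le_sum (f := fun t => if c t = c' t then (1 : ℝ) else 0)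
            (fun x _ => by split_ifs <;> norm_num) (Finset.mem_univ t)
    · exact Finset.sum_nonneg fun x _ => by split_ifs <;> norm_num
  have h2 : ∀ t : Fin w, (N : ℝ) * ∑ c' : Fin w → Fin N, (if c t = c' t then (1 : ℝ) else 0) =
      (N : ℝ) ^ w := by
    intro t
    have h3 : ∀ c' : Fin w → Fin N, (if c t = c' t then (1 : ℝ) else 0) =
        ∏ r, (if r = t then (if c t = c' r then (1 : ℝ) else 0) else 1) := by
      intro c'
      rw [Finset.prod_ite_eq' Finset.univ t, if_pos (Finset.mem_univ t)]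
    rw [Finset.sum_congr rfl (fun c' _ => h3 c')]
    have := Finset.prod_univ_sum (fun _ : Fin w => (Finset.univ : Finset (Fin N)))
      (fun r a => if r = t then (if c t = a then (1 : ℝ) else 0) else 1)
    rw [Fintype.piFinset_univ] at this
    rw [← this, ← Finset.mul_prod_erase Finset.univ _ (Finset.mem_univ t)]
    simp only [if_true]
    rw [Finset.sum_ite_eq, if_pos (Finset.mem_univ _), one_mul]
    have h4 : ∏ x ∈ Finset.univ.erase t, ∑ j : Fin N,
        (if x = t then (if c t = j then (1 : ℝ) else 0) else 1) = (N : ℝ) ^ (w - 1) := by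
      rw [Finset.prod_congr rfl (fun x hx => by
        simp only [if_neg (Finset.ne_of_mem_erase hx)]
        rw [Finset.sum_const, nsmul_eq_mul, mul_one, Finset.card_univ, Fintype.card_fin]),
        Finset.prod_const, Finset.card_erase_of_mem (Finset.mem_univ t), Finset.card_univ,
        Fintype.card_fin]
    rw [h4, ← pow_succ']
    congr 1
    have := t.pos
    omega
  calc (N : ℝ) * ∑ c' : Fin w → Fin N, (if ∃ t, c t = c' t then (1 : ℝ) else 0)
      ≤ (N : ℝ) * ∑ c' : Fin w → Fin N, ∑ t, (if c t = c' t then (1 : ℝ) else 0) :=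
        mul_le_mul_of_nonneg_left (Finset.sum_le_sum fun c' _ => h1 c') (Nat.cast_nonneg _)
    _ = ∑ t : Fin w, (N : ℝ) * ∑ c' : Fin w → Fin N, (if c t = c' t then (1 : ℝ) else 0) := by
        rw [Finset.sum_comm, Finset.mul_sum]
    _ = (w : ℝ) * (N : ℝ) ^ w := by
        rw [Finset.sum_congr rfl (fun t _ => h2 t), Finset.sum_const, nsmul_eq_mul,
          Finset.card_univ, Fintype.card_fin]

/-- the averaged density -/
noncomputable def kl_W (ρ : (Fin w → V) → ℝ) (U : Fin w × Fin N → V) : ℝ :=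
  ((N : ℝ) ^ w)⁻¹ * ∑ c : Fin w → Fin N, ρ (kl_pick U c)

omit [AddCommGroup V] [DecidableEq V] in
theorem kl_law (p : V → ℝ) (hp1 : ∑ a, p a = 1) (J ρ : (Fin w → V) → ℝ)
    (hρ : ∀ x, J x = ρ x * pw p x) (F : (Fin w × Fin N → V) → ℝ) :
    ((N : ℝ) ^ w)⁻¹ * ∑ c : Fin w → Fin N, ∑ l, J l * ∑ U, kl_PP p U * F (kl_ow U c l) =
      ∑ U, kl_PP p U * kl_W (N := N) ρ U * F U := by
  rw [Finset.sum_congr rfl (fun c _ => kl_dens p hp1 J ρ hρ c F), Finset.sum_comm,
    Finset.mul_sum]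
  apply Finset.sum_congr rfl
  intro U _
  unfold kl_W
  rw [Finset.mul_sum, Finset.mul_sum, Finset.mul_sum, Finset.sum_mul]
  apply Finset.sum_congr rfl
  intro c _
  ring

omit [AddCommGroup V] [DecidableEq V] in
/-- second moment of the density -/
theorem kl_second (p : V → ℝ) (hp : ∀ a, 0 ≤ p a) (hp1 : ∑ a, p a = 1)
    (J ρ : (Fin w → V) → ℝ) (hρ : ∀ x, J x = ρ x * pw p x) (hρ0 : ∀ x, 0 ≤ ρ x)
    {τ : ℝ} (hρτ : ∀ x, ρ x ≤ τ) (hJ1 : ∑ l, J l = 1) (hN : 0 < N)
    (hNw : (w : ℝ) * τ ≤ N) :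
    ∑ U : Fin w × Fin N → V, kl_PP p U * kl_W (N := N) ρ U * kl_W (N := N) ρ U ≤ 2 := by
  have hN' : (0 : ℝ) < N := by exact_mod_cast hN
  have hNw' : (0 : ℝ) < (N : ℝ) ^ w := by positivity
  have hE1 : ∀ c : Fin w → Fin N, ∑ U, kl_PP p U * ρ (kl_pick U c) = 1 := by
    intro c
    have := kl_dens p hp1 J ρ hρ c (fun _ => 1)
    simp only [mul_one] at this
    rw [← this, kl_sum_PP p hp1]
    simpa using hJ1
  have hcc : ∀ c c' : Fin w → Fin N, ∑ U, kl_PP p U * ρ (kl_pick U c) * ρ (kl_pick U c') ≤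
      1 + τ * (if ∃ t, c t = c' t then (1 : ℝ) else 0) := by
    intro c c'
    split_ifs with h
    · calc ∑ U, kl_PP p U * ρ (kl_pick U c) * ρ (kl_pick U c')
          ≤ ∑ U, kl_PP p U * ρ (kl_pick U c) * τ := by
            apply Finset.sum_le_sum
            intro U _
            exact mul_le_mul_of_nonneg_left (hρτ _)
              (mul_nonneg (kl_PP_nonneg p hp U) (hρ0 _))
        _ = τ := by rw [← Finset.sum_mul, hE1 c, one_mul]
        _ ≤ 1 + τ * 1 := by linarith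
    · rw [mul_zero, add_zero, ← kl_dens p hp1 J ρ hρ c (fun U => ρ (kl_pick U c'))]
      have h2 : ∀ (U : Fin w × Fin N → V) (l : Fin w → V),
          kl_pick (kl_ow U c l) c' = kl_pick U c' := by
        intro U l
        ext t
        simp only [kl_pick, kl_ow]
        rw [if_neg (fun h3 => h ⟨t, h3.symm⟩)]
      simp only [h2, hE1 c', mul_one, hJ1, le_refl]
  have hexp : ∑ U : Fin w × Fin N → V, kl_PP p U * kl_W (N := N) ρ U * kl_W (N := N) ρ U =
      ((N : ℝ) ^ w)⁻¹ * ((N : ℝ) ^ w)⁻¹ * ∑ c : Fin w → Fin N, ∑ c' : Fin w → Fin N,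
        ∑ U, kl_PP p U * ρ (kl_pick U c) * ρ (kl_pick U c') := by
    have h3 : ∀ U : Fin w × Fin N → V, kl_PP p U * kl_W (N := N) ρ U * kl_W (N := N) ρ U =
        ((N : ℝ) ^ w)⁻¹ * ((N : ℝ) ^ w)⁻¹ * ∑ c : Fin w → Fin N, ∑ c' : Fin w → Fin N,
          kl_PP p U * ρ (kl_pick U c) * ρ (kl_pick U c') := by
      intro U
      unfold kl_W
      have h4 : ∑ c : Fin w → Fin N, ∑ c' : Fin w → Fin N,
          kl_PP p U * ρ (kl_pick U c) * ρ (kl_pick U c') =
          kl_PP p U * ((∑ c : Fin w → Fin N, ρ (kl_pick U c)) *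
            ∑ c' : Fin w → Fin N, ρ (kl_pick U c')) := by
        rw [Finset.sum_mul_sum, Finset.mul_sum]
        apply Finset.sum_congr rfl
        intro c _
        rw [Finset.mul_sum]
        apply Finset.sum_congr rfl
        intro c' _
        ring
      rw [h4]
      ring
    rw [Finset.sum_congr rfl (fun U _ => h3 U), ← Finset.mul_sum, Finset.sum_comm]
    congr 1
    apply Finset.sum_congr rfl
    intro c _
    rw [Finset.sum_comm]
  rw [hexp]
  have hsum : ∑ c : Fin w → Fin N, ∑ c' : Fin w → Fin N,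
      ∑ U, kl_PP p U * ρ (kl_pick U c) * ρ (kl_pick U c') ≤
      ∑ c : Fin w → Fin N, 2 * (N : ℝ) ^ w := by
    apply Finset.sum_le_sum
    intro c _
    calc ∑ c' : Fin w → Fin N, ∑ U, kl_PP p U * ρ (kl_pick U c) * ρ (kl_pick U c')
        ≤ ∑ c' : Fin w → Fin N, (1 + τ * (if ∃ t, c t = c' t then (1 : ℝ) else 0)) :=
          Finset.sum_le_sum fun c' _ => hcc c c'
      _ = (N : ℝ) ^ w + τ * ∑ c' : Fin w → Fin N, (if ∃ t, c t = c' t then (1 : ℝ) else 0) := by
          rw [Finset.sum_add_distrib, ← Finset.mul_sum, Finset.sum_const, nsmul_eq_mul, mul_one,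
            Finset.card_univ, Fintype.card_fun, Fintype.card_fin, Fintype.card_fin]
          push_cast
          rfl
      _ ≤ (N : ℝ) ^ w + (N : ℝ) ^ w := by
          gcongr
          have h5 := kl_count (N := N) c
          have h6 : 0 ≤ ∑ c' : Fin w → Fin N, (if ∃ t, c t = c' t then (1 : ℝ) else 0) :=
            Finset.sum_nonneg fun x _ => by split_ifs <;> norm_num
          rcases Nat.eq_zero_or_pos w with hw | hw
          · subst hw
            have : ∑ c' : Fin 0 → Fin N, (if ∃ t, c t = c' t then (1 : ℝ) else 0) = 0 := by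
              apply Finset.sum_eq_zero
              intro c' _
              rw [if_neg]
              rintro ⟨t, _⟩
              exact t.elim0
            rw [this, mul_zero]
            positivity
          · have hw' : (0 : ℝ) < w := by exact_mod_cast hw
            have h7 : τ ≤ N / w := by rw [le_div_iff₀ hw']; linarith
            calc τ * ∑ c' : Fin w → Fin N, (if ∃ t, c t = c' t then (1 : ℝ) else 0)
                ≤ N / w * ∑ c' : Fin w → Fin N, (if ∃ t, c t = c' t then (1 : ℝ) else 0) :=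
                  mul_le_mul_of_nonneg_right h7 h6
              _ = (N * ∑ c' : Fin w → Fin N, (if ∃ t, c t = c' t then (1 : ℝ) else 0)) / w := by
                  ring
              _ ≤ (w * (N : ℝ) ^ w) / w := by gcongr
              _ = (N : ℝ) ^ w := by field_simp
      _ = 2 * (N : ℝ) ^ w := by ring
  calc ((N : ℝ) ^ w)⁻¹ * ((N : ℝ) ^ w)⁻¹ * ∑ c : Fin w → Fin N, ∑ c' : Fin w → Fin N,
        ∑ U, kl_PP p U * ρ (kl_pick U c) * ρ (kl_pick U c')
      ≤ ((N : ℝ) ^ w)⁻¹ * ((N : ℝ) ^ w)⁻¹ * ∑ c : Fin w → Fin N, 2 * (N : ℝ) ^ w :=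
        mul_le_mul_of_nonneg_left hsum (by positivity)
    _ = 2 := by
        rw [Finset.sum_const, nsmul_eq_mul, Finset.card_univ, Fintype.card_fun,
          Fintype.card_fin, Fintype.card_fin]
        push_cast
        field_simp

omit [Fintype V] [DecidableEq V] in
theorem kl_sum_ow (h2 : ∀ a : V, a + a = 0) (U : Fin w × Fin N → V) (c : Fin w → Fin N)
    (l r : Fin w → V) (g : V) (hg : ∑ t, l t + ∑ t, r t = g) :
    ∑ m, kl_ow U c r m = ∑ m, kl_ow U c l m + g := by
  have h1 : ∑ m, kl_ow U c l m + ∑ m, kl_ow U c r m = g := by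
    rw [← hg, ← Finset.sum_add_distrib, ← Finset.sum_add_distrib, Fintype.sum_prod_type]
    apply Finset.sum_congr rfl
    intro t _
    have : ∀ k : Fin N, kl_ow U c l (t, k) + kl_ow U c r (t, k) =
        if k = c t then l t + r t else 0 := by
      intro k
      simp only [kl_ow]
      split_ifs
      · rfl
      · exact h2 _
    rw [Finset.sum_congr rfl (fun k _ => this k), Finset.sum_ite_eq', if_pos (Finset.mem_univ _)]
  rw [← h1, ← add_assoc, h2, zero_add]

/-- the joint functional of the two overwritten matrices -/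
noncomputable def kl_MM (p : V → ℝ) (J : (Fin w → V) → (Fin w → V) → ℝ)
    (F : (Fin w × Fin N → V) → (Fin w × Fin N → V) → ℝ) : ℝ :=
  ((N : ℝ) ^ w)⁻¹ * ∑ c : Fin w → Fin N, ∑ l, ∑ r, J l r *
      ∑ U, kl_PP p U * F (kl_ow U c l) (kl_ow U c r)

omit [AddCommGroup V] [DecidableEq V] in
theorem kl_MM_left (p : V → ℝ) (hp1 : ∑ a, p a = 1) (J : (Fin w → V) → (Fin w → V) → ℝ)
    (ρ : (Fin w → V) → ℝ) (hρ : ∀ x, ∑ r, J x r = ρ x * pw p x)
    (F : (Fin w × Fin N → V) → ℝ) :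
    kl_MM (N := N) p J (fun U _ => F U) = ∑ U, kl_PP p U * kl_W (N := N) ρ U * F U := by
  rw [← kl_law p hp1 (fun l => ∑ r, J l r) ρ hρ F]
  unfold kl_MM
  refine congrArg _ (Finset.sum_congr rfl fun c _ => Finset.sum_congr rfl fun l _ => ?_)
  exact (Finset.sum_mul _ _ _).symm

omit [AddCommGroup V] [DecidableEq V] in
theorem kl_MM_right (p : V → ℝ) (hp1 : ∑ a, p a = 1) (J : (Fin w → V) → (Fin w → V) → ℝ)
    (ρ : (Fin w → V) → ℝ) (hρ : ∀ x, ∑ l, J l x = ρ x * pw p x)
    (F : (Fin w × Fin N → V) → ℝ) :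
    kl_MM (N := N) p J (fun _ U => F U) = ∑ U, kl_PP p U * kl_W (N := N) ρ U * F U := by
  rw [← kl_law p hp1 (fun r => ∑ l, J l r) ρ hρ F]
  unfold kl_MM
  refine congrArg _ (Finset.sum_congr rfl fun c _ => ?_)
  rw [Finset.sum_comm]
  refine Finset.sum_congr rfl fun r _ => ?_
  exact (Finset.sum_mul _ _ _).symm

omit [AddCommGroup V] [DecidableEq V] in
theorem kl_MM_mono (p : V → ℝ) (hp : ∀ a, 0 ≤ p a) (J : (Fin w → V) → (Fin w → V) → ℝ)
    (hJ0 : ∀ l r, 0 ≤ J l r) (F G : (Fin w × Fin N → V) → (Fin w × Fin N → V) → ℝ)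
    (h : ∀ (c : Fin w → Fin N) l r U, J l r ≠ 0 → F (kl_ow U c l) (kl_ow U c r) ≤
        G (kl_ow U c l) (kl_ow U c r)) : kl_MM (N := N) p J F ≤ kl_MM (N := N) p J G := by
  unfold kl_MM
  apply mul_le_mul_of_nonneg_left _ (by positivity)
  refine Finset.sum_le_sum fun c _ => Finset.sum_le_sum fun l _ =>
    Finset.sum_le_sum fun r _ => ?_
  by_cases hJ : J l r = 0
  · rw [hJ, zero_mul, zero_mul]
  · apply mul_le_mul_of_nonneg_left _ (hJ0 l r)
    exact Finset.sum_le_sum fun U _ =>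
      mul_le_mul_of_nonneg_left (h c l r U hJ) (kl_PP_nonneg p hp U)

omit [AddCommGroup V] [DecidableEq V] in
theorem kl_MM_add (p : V → ℝ) (J : (Fin w → V) → (Fin w → V) → ℝ)
    (F G : (Fin w × Fin N → V) → (Fin w × Fin N → V) → ℝ) :
    kl_MM (N := N) p J (fun U U' => F U U' + G U U') =
      kl_MM (N := N) p J F + kl_MM (N := N) p J G := by
  unfold kl_MM
  rw [← mul_add, ← Finset.sum_add_distrib]
  refine congrArg _ (Finset.sum_congr rfl fun c _ => ?_)
  rw [← Finset.sum_add_distrib]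
  refine Finset.sum_congr rfl fun l _ => ?_
  rw [← Finset.sum_add_distrib]
  refine Finset.sum_congr rfl fun r _ => ?_
  rw [← mul_add, ← Finset.sum_add_distrib]
  refine congrArg _ (Finset.sum_congr rfl fun U _ => ?_)
  ring

omit [AddCommGroup V] [DecidableEq V] in
theorem kl_MM_sum (p : V → ℝ) (J : (Fin w → V) → (Fin w → V) → ℝ)
    (F : V → (Fin w × Fin N → V) → (Fin w × Fin N → V) → ℝ) :
    kl_MM (N := N) p J (fun U U' => ∑ a, F a U U') = ∑ a, kl_MM (N := N) p J (F a) := by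
  unfold kl_MM
  rw [← Finset.mul_sum]
  have h1 : ∀ (c : Fin w → Fin N) (l r : Fin w → V),
      J l r * ∑ U, kl_PP p U * ∑ a, F a (kl_ow U c l) (kl_ow U c r) =
      ∑ a, J l r * ∑ U, kl_PP p U * F a (kl_ow U c l) (kl_ow U c r) := by
    intro c l r
    rw [← Finset.mul_sum, Finset.sum_comm]
    simp only [Finset.mul_sum]
  have h2 : ∀ (c : Fin w → Fin N) (l : Fin w → V),
      ∑ r, J l r * ∑ U, kl_PP p U * ∑ a, F a (kl_ow U c l) (kl_ow U c r) =
      ∑ a, ∑ r, J l r * ∑ U, kl_PP p U * F a (kl_ow U c l) (kl_ow U c r) := by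
    intro c l
    rw [Finset.sum_congr rfl (fun r _ => h1 c l r)]
    exact Finset.sum_comm
  have h3 : ∀ (c : Fin w → Fin N),
      ∑ l, ∑ r, J l r * ∑ U, kl_PP p U * ∑ a, F a (kl_ow U c l) (kl_ow U c r) =
      ∑ a, ∑ l, ∑ r, J l r * ∑ U, kl_PP p U * F a (kl_ow U c l) (kl_ow U c r) := by
    intro c
    rw [Finset.sum_congr rfl (fun l _ => h2 c l)]
    exact Finset.sum_comm
  rw [Finset.sum_congr rfl (fun c _ => h3 c)]
  exact congrArg _ Finset.sum_comm

/-- one colour: a large amount of mass is flipped by `g` -/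
theorem kl_colour (h2 : ∀ a : V, a + a = 0) (p : V → ℝ) (hp : ∀ a, 0 ≤ p a)
    (hp1 : ∑ a, p a = 1) (g : V) (J : (Fin w → V) → (Fin w → V) → ℝ)
    (hJ0 : ∀ l r, 0 ≤ J l r) (hJ1 : ∑ l, ∑ r, J l r = 1)
    (hJg : ∀ l r, J l r ≠ 0 → ∑ t, l t + ∑ t, r t = g) {τ : ℝ} (hτ : 0 ≤ τ)
    (hl : ∀ l, ∑ r, J l r ≤ τ * pw p l) (hr : ∀ r, ∑ l, J l r ≤ τ * pw p r)
    (hN : 0 < N) (hNw : (w : ℝ) * τ ≤ N) :
    3 / 4 ≤ 16 * ∑ a : V, min (∑ U : Fin w × Fin N → V with ∑ m, U m = a, kl_PP p U)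
      (∑ U : Fin w × Fin N → V with ∑ m, U m = a + g, kl_PP p U) := by
  have hN' : (0 : ℝ) < N := by exact_mod_cast hN
  have hNw' : (0 : ℝ) < (N : ℝ) ^ w := by positivity
  set Jl : (Fin w → V) → ℝ := fun l => ∑ r, J l r with hJl
  set Jr : (Fin w → V) → ℝ := fun r => ∑ l, J l r with hJr
  have hJl0 : ∀ l, 0 ≤ Jl l := fun l => Finset.sum_nonneg fun r _ => hJ0 l r
  have hJr0 : ∀ r, 0 ≤ Jr r := fun r => Finset.sum_nonneg fun l _ => hJ0 l r
  have hJl1 : ∑ l, Jl l = 1 := hJ1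
  have hJr1 : ∑ r, Jr r = 1 := by rw [hJr, Finset.sum_comm]; exact hJ1
  set dl : (Fin w → V) → ℝ := fun x => Jl x / pw p x with hdl
  set dr : (Fin w → V) → ℝ := fun x => Jr x / pw p x with hdr
  have hpw := fun x : Fin w → V => kl_pw_nonneg p hp x
  have key : ∀ (K : (Fin w → V) → ℝ), (∀ x, 0 ≤ K x) → (∀ x, K x ≤ τ * pw p x) →
      (∀ x, K x = K x / pw p x * pw p x) ∧ (∀ x, 0 ≤ K x / pw p x) ∧
        (∀ x, K x / pw p x ≤ τ) := by
    intro K hK0 hK
    refine ⟨fun x => ?_, fun x => div_nonneg (hK0 x) (hpw x), fun x => ?_⟩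
    · rcases (hpw x).eq_or_lt with h | h
      · have : K x ≤ 0 := by have := hK x; rwa [← h, mul_zero] at this
        rw [le_antisymm this (hK0 x), zero_div, zero_mul]
      · field_simp
    · rcases (hpw x).eq_or_lt with h | h
      · rw [← h, div_zero]; exact hτ
      · rw [div_le_iff₀ h]; exact hK x
  obtain ⟨l1, l2, l3⟩ := key Jl hJl0 hl
  obtain ⟨r1, r2, r3⟩ := key Jr hJr0 hr
  have sl := kl_second (N := N) p hp hp1 Jl dl l1 l2 l3 hJl1 hN hNw
  have sr := kl_second (N := N) p hp hp1 Jr dr r1 r2 r3 hJr1 hN hNw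
  have hW0 : ∀ (ρ : (Fin w → V) → ℝ), (∀ x, 0 ≤ ρ x) → ∀ U, 0 ≤ kl_W (N := N) ρ U :=
    fun ρ hρ U => mul_nonneg (by positivity) (Finset.sum_nonneg fun c _ => hρ _)
  -- the joint functional
  have hMl : ∀ F : (Fin w × Fin N → V) → ℝ, kl_MM (N := N) p J (fun U _ => F U) =
      ∑ U, kl_PP p U * kl_W (N := N) dl U * F U := fun F => kl_MM_left p hp1 J dl l1 F
  have hMr : ∀ F : (Fin w × Fin N → V) → ℝ, kl_MM (N := N) p J (fun _ U => F U) =
      ∑ U, kl_PP p U * kl_W (N := N) dr U * F U := fun F => kl_MM_right p hp1 J dr r1 F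
  have hmono := kl_MM_mono (N := N) p hp J hJ0
  have hadd := kl_MM_add (N := N) p J
  classical
  set GG : (Fin w × Fin N → V) → (Fin w × Fin N → V) → ℝ := fun U U' =>
    if kl_W (N := N) dl U ≤ 16 ∧ kl_W (N := N) dr U' ≤ 16 then 1 else 0 with hGG
  -- the total mass of the good part
  have hone : kl_MM (N := N) p J (fun _ _ => 1) = 1 := by
    have := hMl (fun _ => 1)
    rw [this]
    have h3 := kl_law (N := N) p hp1 Jl dl l1 (fun _ => 1)
    rw [← h3]
    simp only [mul_one, kl_sum_PP p hp1, hJl1, Finset.sum_const, nsmul_eq_mul,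
      Finset.card_univ, Fintype.card_fun, Fintype.card_fin]
    push_cast
    field_simp
  have htail : ∀ (ρ : (Fin w → V) → ℝ), (∀ x, 0 ≤ ρ x) →
      ∑ U : Fin w × Fin N → V, kl_PP p U * kl_W (N := N) ρ U * kl_W (N := N) ρ U ≤ 2 →
      ∑ U : Fin w × Fin N → V, kl_PP p U * kl_W (N := N) ρ U *
        (if kl_W (N := N) ρ U ≤ 16 then 0 else 1) ≤ 1 / 8 := by
    intro ρ hρ h
    have h4 : ∑ U : Fin w × Fin N → V, kl_PP p U * kl_W (N := N) ρ U *
        (if kl_W (N := N) ρ U ≤ 16 then 0 else 1) ≤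
        ∑ U : Fin w × Fin N → V, (kl_PP p U * kl_W (N := N) ρ U * kl_W (N := N) ρ U) / 16 := by
      apply Finset.sum_le_sum
      intro U _
      have h5 : 0 ≤ kl_PP p U * kl_W (N := N) ρ U :=
        mul_nonneg (kl_PP_nonneg p hp U) (hW0 ρ hρ U)
      have h6 := hW0 ρ hρ U
      rw [mul_div_assoc]
      apply mul_le_mul_of_nonneg_left _ h5
      split_ifs with h7
      · positivity
      · push Not at h7
        rw [le_div_iff₀ (by norm_num)]
        linarith
    rw [← Finset.sum_div] at h4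
    linarith
  have hgood : 3 / 4 ≤ kl_MM (N := N) p J GG := by
    have h3 : kl_MM (N := N) p J (fun _ _ => 1) ≤ kl_MM (N := N) p J (fun U U' => GG U U' +
        ((if kl_W (N := N) dl U ≤ 16 then 0 else 1) +
          (if kl_W (N := N) dr U' ≤ 16 then 0 else 1))) := by
      apply hmono
      intro c l r U _
      simp only [hGG]
      by_cases h4 : kl_W (N := N) dl (kl_ow U c l) ≤ 16 <;>
        by_cases h5 : kl_W (N := N) dr (kl_ow U c r) ≤ 16 <;> simp [h4, h5]
    rw [hadd, hone, hadd (fun U _ => if kl_W (N := N) dl U ≤ 16 then 0 else 1)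
      (fun _ U' => if kl_W (N := N) dr U' ≤ 16 then 0 else 1), hMl, hMr] at h3
    have h6 := htail dl l2 sl
    have h7 := htail dr r2 sr
    linarith
  -- split according to the sum
  have hsplit : kl_MM (N := N) p J GG = ∑ a, kl_MM (N := N) p J (fun U U' => if ∑ m, U m = a then GG U U' else 0) := by
    rw [← kl_MM_sum]
    congr 1
    ext U U'
    rw [Finset.sum_ite_eq, if_pos (Finset.mem_univ _)]
  have hbound : ∀ (ρ : (Fin w → V) → ℝ), (∀ x, 0 ≤ ρ x) → ∀ b : V,
      ∑ U : Fin w × Fin N → V, kl_PP p U * kl_W (N := N) ρ U *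
        (if ∑ m, U m = b ∧ kl_W (N := N) ρ U ≤ 16 then 1 else 0) ≤
      16 * ∑ U : Fin w × Fin N → V with ∑ m, U m = b, kl_PP p U := by
    intro ρ hρ b
    rw [Finset.mul_sum, Finset.sum_filter]
    apply Finset.sum_le_sum
    intro U _
    have h5 := kl_PP_nonneg p hp U
    by_cases h8 : ∑ m, U m = b
    · rw [if_pos h8]
      by_cases h9 : kl_W (N := N) ρ U ≤ 16
      · rw [if_pos ⟨h8, h9⟩, mul_one, mul_comm]
        exact mul_le_mul_of_nonneg_right h9 h5
      · rw [if_neg (fun h => h9 h.2), mul_zero]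
        positivity
    · rw [if_neg h8, if_neg (fun h => h8 h.1), mul_zero]
  have hmin : ∀ a, kl_MM (N := N) p J (fun U U' => if ∑ m, U m = a then GG U U' else 0) ≤
      16 * min (∑ U : Fin w × Fin N → V with ∑ m, U m = a, kl_PP p U)
      (∑ U : Fin w × Fin N → V with ∑ m, U m = a + g, kl_PP p U) := by
    intro a
    rw [mul_min_of_nonneg _ _ (by norm_num)]
    apply le_min
    · have h3 : kl_MM (N := N) p J (fun U U' => if ∑ m, U m = a then GG U U' else 0) ≤
          kl_MM (N := N) p J (fun U _ => if ∑ m, U m = a ∧ kl_W (N := N) dl U ≤ 16 then 1 else 0) := by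
        apply hmono
        intro c l r U _
        simp only [hGG]
        by_cases h4 : kl_W (N := N) dl (kl_ow U c l) ≤ 16 <;>
          by_cases h5 : kl_W (N := N) dr (kl_ow U c r) ≤ 16 <;>
          by_cases h6 : ∑ m, kl_ow U c l m = a <;> simp [h4, h5, h6]
      rw [hMl] at h3
      exact h3.trans (hbound dl l2 a)
    · have h3 : kl_MM (N := N) p J (fun U U' => if ∑ m, U m = a then GG U U' else 0) ≤
          kl_MM (N := N) p J (fun _ U' => if ∑ m, U' m = a + g ∧ kl_W (N := N) dr U' ≤ 16 then 1 else 0) := by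
        apply hmono
        intro c l r U hJ
        have hs := kl_sum_ow h2 U c l r g (hJg l r hJ)
        simp only [hGG]
        rw [hs]
        by_cases h4 : kl_W (N := N) dl (kl_ow U c l) ≤ 16 <;>
          by_cases h5 : kl_W (N := N) dr (kl_ow U c r) ≤ 16 <;>
          by_cases h6 : ∑ m, kl_ow U c l m = a <;> simp [h4, h5, h6]
      rw [hMr] at h3
      exact h3.trans (hbound dr r2 (a + g))
  calc 3 / 4 ≤ kl_MM (N := N) p J GG := hgood
    _ = ∑ a, kl_MM (N := N) p J (fun U U' => if ∑ m, U m = a then GG U U' else 0) := hsplit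
    _ ≤ _ := by
        rw [Finset.mul_sum]
        exact Finset.sum_le_sum fun a _ => hmin a

end Mat

/-- independent vectors have dual functionals -/
theorem kl_dual {V : Type} [AddCommGroup V] [Module (ZMod 2) V] {D : ℕ} (g : Fin D → V)
    (hg : LinearIndependent (ZMod 2) g) :
    ∃ φ : Fin D → V →ₗ[ZMod 2] ZMod 2, ∀ i j, φ j (g i) = if i = j then 1 else 0 := by
  have h1 : ∀ j : Fin D, ∃ f : V →ₗ[ZMod 2] ZMod 2,
      f ∘ₗ (Submodule.span (ZMod 2) (Set.range g)).subtype =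
        (Finsupp.lapply j) ∘ₗ (hg.repr : _ →ₗ[ZMod 2] _) := fun j =>
    LinearMap.exists_extend _
  choose f hf using h1
  refine ⟨f, fun i j => ?_⟩
  have h2 := LinearMap.congr_fun (hf j) ⟨g i, Submodule.subset_span ⟨i, rfl⟩⟩
  simp only [LinearMap.comp_apply, Submodule.subtype_apply] at h2
  rw [h2]
  have h3 := hg.repr_eq_single i ⟨g i, Submodule.subset_span ⟨i, rfl⟩⟩ rfl
  rw [h3]
  simp [Finsupp.single_apply]

/-- **I.3, the Kikuchi lemma.** -/
theorem kikuchi {V : Type} [AddCommGroup V] [Module (ZMod 2) V] [Fintype V] [DecidableEq V]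
    (p : V → ℝ) (hp : IsLaw p) {D w : ℕ} (hw : 1 ≤ w) (g : Fin D → V)
    (hg : LinearIndependent (ZMod 2) g) {τ : ℝ} (hτ : 1 ≤ τ)
    (J : Fin D → (Fin w → V) → (Fin w → V) → ℝ) (hJ0 : ∀ i l r, 0 ≤ J i l r)
    (hJ1 : ∀ i, ∑ l, ∑ r, J i l r = 1)
    (hJg : ∀ i l r, J i l r ≠ 0 → ∑ t, l t + ∑ t, r t = g i)
    (hl : ∀ i l, ∑ r, J i l r ≤ τ * pw p l) (hr : ∀ i r, ∑ l, J i l r ≤ τ * pw p r) :
    (D : ℝ) ≤ 64 * (w : ℝ) ^ 2 * τ * (ent p / Real.log 2) := by
  have h2 : ∀ a : V, a + a = 0 := by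
    intro a
    have : (2 : ZMod 2) • a = 0 := by
      have h : (2 : ZMod 2) = 0 := by decide
      rw [h, zero_smul]
    rwa [two_smul] at this
  obtain ⟨φ, hφ⟩ := kl_dual g hg
  have hw' : (1 : ℝ) ≤ w := by exact_mod_cast hw
  set N : ℕ := ⌈(w : ℝ) * τ⌉₊ with hNdef
  have hwt : 1 ≤ (w : ℝ) * τ := by nlinarith
  have hN1 : (w : ℝ) * τ ≤ N := Nat.le_ceil _
  have hN2 : (N : ℝ) ≤ 2 * (w * τ) := by
    have := (Nat.ceil_lt_add_one (show 0 ≤ (w : ℝ) * τ by linarith)).le
    linarith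
  have hN0 : 0 < N := by
    have : (0 : ℝ) < N := by linarith
    exact_mod_cast this
  set Q : V → ℝ := fun a => ∑ U : Fin w × Fin N → V with ∑ m, U m = a, kl_PP p U with hQ
  have hQ0 : ∀ a, 0 ≤ Q a := fun a =>
    Finset.sum_nonneg fun U _ => kl_PP_nonneg p hp.nonneg U
  have hQ1 : ∑ a, Q a = 1 := by
    rw [hQ, Finset.sum_fiberwise]
    exact kl_sum_PP p hp.sum_one
  have hcol : ∀ i, 3 / 4 ≤ 16 * ∑ a, min (Q a) (Q (a + g i)) := fun i =>
    kl_colour h2 p hp.nonneg hp.sum_one (g i) (J i) (hJ0 i) (hJ1 i) (hJg i)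
      (by linarith) (hl i) (hr i) hN0 hN1
  have hedge := edge g (fun j a => φ j a) Finset.univ (by
    intro i _ j _ a
    rw [map_add, hφ i j]) Q hQ0
  rw [hQ1, Real.log_one, mul_zero, zero_sub] at hedge
  have hent : -∑ a, Q a * Real.log (Q a) ≤ (w * N : ℝ) * ent p := by
    have h3 := ent_push_le (kl_PP (w := w) (N := N) p)
      (kl_PP_nonneg p hp.nonneg) (fun U => ∑ m, U m)
    have h4 := ent_prod (I := Fin w × Fin N) p hp.sum_one
    have h5 : -∑ a, Q a * Real.log (Q a) = ∑ a, Real.negMulLog (Q a) := by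
      rw [← Finset.sum_neg_distrib]
      apply Finset.sum_congr rfl
      intro a _
      unfold Real.negMulLog
      ring
    rw [h5]
    refine h3.trans (le_of_eq ?_)
    unfold kl_PP
    rw [h4]
    unfold ent
    rw [Fintype.card_prod, Fintype.card_fin, Fintype.card_fin]
    push_cast
    ring
  have hlog : 0 < Real.log 2 := Real.log_pos (by norm_num)
  have hD : (D : ℝ) * (3 / 4) ≤ 16 * ∑ i, ∑ a, min (Q a) (Q (a + g i)) := by
    calc (D : ℝ) * (3 / 4) = ∑ _i : Fin D, (3 / 4 : ℝ) := by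
          rw [Finset.sum_const, nsmul_eq_mul, Finset.card_univ, Fintype.card_fin]
      _ ≤ ∑ i, 16 * ∑ a, min (Q a) (Q (a + g i)) := Finset.sum_le_sum fun i _ => hcol i
      _ = _ := by rw [← Finset.mul_sum]
  have hE0 : 0 ≤ ent p := by
    unfold ent
    apply Finset.sum_nonneg
    intro a _
    apply Real.negMulLog_nonneg (hp.nonneg a)
    rw [← hp.sum_one]
    exact Finset.single_le_sum (fun x _ => hp.nonneg x) (Finset.mem_univ a)
  have h6 : Real.log 2 * ((D : ℝ) * (3 / 4)) ≤ 16 * ((w * N : ℝ) * ent p) := by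
    calc Real.log 2 * ((D : ℝ) * (3 / 4))
        ≤ Real.log 2 * (16 * ∑ i, ∑ a, min (Q a) (Q (a + g i))) :=
          mul_le_mul_of_nonneg_left hD hlog.le
      _ = 16 * (Real.log 2 * ∑ i, ∑ a, min (Q a) (Q (a + g i))) := by ring
      _ ≤ 16 * ((w * N : ℝ) * ent p) := by
          apply mul_le_mul_of_nonneg_left (hedge.trans hent) (by norm_num)
  have h7 : (w * N : ℝ) * ent p ≤ (w * (2 * (w * τ))) * ent p := by
    apply mul_le_mul_of_nonneg_right _ hE0
    apply mul_le_mul_of_nonneg_left hN2 (by linarith)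
  have h8 : (D : ℝ) * Real.log 2 ≤ 64 * (w : ℝ) ^ 2 * τ * ent p := by
    have h9 : 0 ≤ (w : ℝ) ^ 2 * τ * ent p := by positivity
    nlinarith
  rw [show 64 * (w : ℝ) ^ 2 * τ * (ent p / Real.log 2) =
    (64 * (w : ℝ) ^ 2 * τ * ent p) / Real.log 2 by ring, le_div_iff₀ hlog]
  exact h8

end Pool.Agent.XO
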