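import Pool.Agent.Lib_helper94.XO.Pr
import Pool.Agent.Lib_helper94.XO.P1.Copy
import Pool.Agent.Lib_helper94.XO.P1.KL

/-!
# Part I, I.6 and I.7: the determination lemma
-/

set_option autoImplicit false

namespace Pool.Agent.XO

open Finset

section Gen

variable {Ω α : Type} [Fintype Ω] [Fintype α]

/-- sum of an event over the values of a random variable -/
theorem pr_sum_eq (P : Ω → ℝ) (X : Ω → α) (E : Ω → Prop) :
    ∑ a, pr P (fun ω => X ω = a ∧ E ω) = pr P E := by
  classical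
  unfold pr
  rw [Finset.sum_comm]
  apply Finset.sum_congr rfl
  intro ω _
  rw [Finset.sum_eq_single (X ω)]
  · by_cases h : E ω
    · rw [if_pos ⟨rfl, h⟩, if_pos h]
    · rw [if_neg (fun h' => h h'.2), if_neg h]
  · intro b _ hb
    rw [if_neg (fun h => hb h.1.symm)]
  · intro h
    exact absurd (Finset.mem_univ _) h

theorem pr_eq_mul [∀ p : Prop, Decidable p] (P : Ω → ℝ) (A : Ω → Prop) :
    pr P A = ∑ ω, P ω * (if A ω then 1 else 0) := by
  unfold pr
  apply Finset.sum_congr rfl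
  intro ω _
  by_cases h : A ω
  · rw [if_pos h, if_pos h, mul_one]
  · rw [if_neg h, if_neg h, mul_zero]

/-- Markov's inequality for conditional probabilities -/
theorem pr_bad {P : Ω → ℝ} (hP : ∀ ω, 0 ≤ P ω) (A : Ω → α) (E : Ω → Prop) :
    pr P (fun ω => 1 / 4 * lw P A (A ω) ≤ pr P (fun ω' => A ω' = A ω ∧ E ω')) ≤
      4 * pr P E := by
  classical
  have h1 : pr P (fun ω => 1 / 4 * lw P A (A ω) ≤ pr P (fun ω' => A ω' = A ω ∧ E ω')) =
      ∑ a, lw P A a * (if 1 / 4 * lw P A a ≤ pr P (fun ω' => A ω' = a ∧ E ω') then 1 else 0) := by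
    rw [sum_lw_mul P A (fun a => if 1 / 4 * lw P A a ≤ pr P (fun ω' => A ω' = a ∧ E ω') then
      (1 : ℝ) else 0)]
    exact pr_eq_mul P (fun ω => 1 / 4 * lw P A (A ω) ≤ pr P (fun ω' => A ω' = A ω ∧ E ω'))
  rw [h1, ← pr_sum_eq P A E, Finset.mul_sum]
  apply Finset.sum_le_sum
  intro a _
  split_ifs with h
  · linarith
  · rw [mul_zero]
    exact mul_nonneg (by norm_num) (pr_nonneg hP _)

end Gen

section Swap

variable {Ω α β : Type} [Fintype Ω] [Fintype α] [Fintype β]

omit [Fintype β] in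
theorem HH_cpy_swap (P : Ω → ℝ) (W : Ω → β) (F : Ω × Ω → α) :
    HH (cpy P W) (fun x => F x.swap) = HH (cpy P W) F := by
  unfold HH
  congr 1
  ext a
  unfold lw
  refine Fintype.sum_equiv (Equiv.prodComm Ω Ω) _ _ ?_
  intro x
  simp only [Equiv.prodComm_apply]
  rw [cpy_swap]
  congr

end Swap

section DL

variable {V : Type} [AddCommGroup V] [Module (ZMod 2) V] [Fintype V] [DecidableEq V]
variable {Ω β γ : Type} [Fintype Ω] [Fintype β] [Fintype γ] {w : ℕ}

omit [Fintype V] [DecidableEq V] in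
theorem two_tors (a : V) : a + a = 0 := by
  have : (2 : ZMod 2) • a = 0 := by
    have h : (2 : ZMod 2) = 0 := by decide
    rw [h, zero_smul]
  rwa [two_smul] at this

/-- **I.6** -/
theorem dl_space {P : Ω → ℝ} (hP : IsLaw P) (p : V → ℝ) (hp : IsLaw p) (hw : 1 ≤ w)
    (Y : Ω → V) (X : Ω → Fin w → V) (W : Ω → β) (B : Ω → γ)
    (hB : ∃ φ : β → γ, ∀ ω, B ω = φ (W ω)) (ψ : β → V)
    (hψ : ∀ ω, P ω ≠ 0 → Y ω + ∑ i, X ω i = ψ (W ω)) (hX : lw P X = pw p)
    (hind : ∀ x y b, lw P (fun ω => (X ω, Y ω, B ω)) (x, y, b) =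
      pw p x * lw P (fun ω => (Y ω, B ω)) (y, b)) {ι M : ℝ} (hM : 1 ≤ M)
    (hι : HH P (fun ω => (Y ω, B ω)) - HH P B - (HH P (fun ω => (Y ω, W ω)) - HH P W) ≤ ι) :
    ∃ U : Submodule (ZMod 2) V, (Module.finrank (ZMod 2) U : ℝ) ≤
        128 * (w : ℝ) ^ 2 * Real.exp (M * (ι + 1)) * (ent p / Real.log 2) ∧
      pr (cpy P W) (fun x => Y x.1 + Y x.2 ∉ U) ≤ 8 / M := by
  classical
  have hQ := hP.cpy W
  set Q := cpy P W with hQdef
  set A : Ω × Ω → V × V := fun x => (Y x.1, Y x.2) with hA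
  set X1 : Ω × Ω → Fin w → V := fun x => X x.1 with hX1
  set X2 : Ω × Ω → Fin w → V := fun x => X x.2 with hX2
  have hlX1 : lw Q X1 = pw p := by rw [← hX]; exact lw_cpy_fst hP W X
  have hlX2 : lw Q X2 = pw p := by rw [← hX]; exact lw_cpy_snd hP W X
  have hι1 : HH Q A + HH Q X1 - HH Q (fun x => (A x, X1 x)) ≤ ι := by
    have h := dl_info hP Y X W B hB (by rw [hX]; exact hind)
    have h' : HH Q X1 = HH P X := HH_cpy_fst hP W X
    rw [h']
    exact h.trans hι
  have hι2 : HH Q A + HH Q X2 - HH Q (fun x => (A x, X2 x)) ≤ ι := by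
    have e1 : HH Q X2 = HH Q X1 := by unfold HH; rw [hlX1, hlX2]
    have e2 : HH Q (fun x => (A x, X2 x)) = HH Q (fun x => (A x, X1 x)) := by
      rw [← HH_cpy_swap P W (fun x => (A x, X2 x))]
      exact HH_congr hQ _ _ (fun a => ((a.1.2, a.1.1), a.2)) (fun a => ((a.1.2, a.1.1), a.2))
        (fun _ => rfl) (fun _ => rfl)
    rw [e1, e2]
    exact hι1
  have hι0 : 0 ≤ ι := (info_nonneg hQ A X1).trans hι1
  set t := Real.exp (M * (ι + 1)) with ht
  have ht1 : 1 ≤ t := by
    rw [ht]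
    exact Real.one_le_exp (by nlinarith)
  have hT1 := info_tail hQ A X1 hM hι1
  have hT2 := info_tail hQ A X2 hM hι2
  rw [hlX1] at hT1
  rw [hlX2] at hT2
  set E1 : Ω × Ω → Prop := fun x => t * (lw Q A (A x) * pw p (X1 x)) <
      lw Q (fun x => (A x, X1 x)) (A x, X1 x) with hE1
  set E2 : Ω × Ω → Prop := fun x => t * (lw Q A (A x) * pw p (X2 x)) <
      lw Q (fun x => (A x, X2 x)) (A x, X2 x) with hE2
  set b1 : V × V → Prop := fun a => 1 / 4 * lw Q A a ≤ pr Q (fun x => A x = a ∧ E1 x) with hb1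
  set b2 : V × V → Prop := fun a => 1 / 4 * lw Q A a ≤ pr Q (fun x => A x = a ∧ E2 x) with hb2
  have hB1 : pr Q (fun x => b1 (A x)) ≤ 4 / M := by
    have := pr_bad hQ.nonneg A E1
    calc _ ≤ 4 * pr Q E1 := this
      _ ≤ 4 * (1 / M) := by linarith
      _ = 4 / M := by ring
  have hB2 : pr Q (fun x => b2 (A x)) ≤ 4 / M := by
    have := pr_bad hQ.nonneg A E2
    calc _ ≤ 4 * pr Q E2 := this
      _ ≤ 4 * (1 / M) := by linarith
      _ = 4 / M := by ring
  set S : Set V := {v | ∃ a : V × V, lw Q A a ≠ 0 ∧ ¬ b1 a ∧ ¬ b2 a ∧ v = a.1 + a.2} with hS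
  refine ⟨Submodule.span (ZMod 2) S, ?_, ?_⟩
  · obtain ⟨b, hbS, hspan, hli⟩ := exists_linearIndependent (ZMod 2) S
    have hbfin : Finite b := inferInstance
    have : Fintype b := Fintype.ofFinite b
    set e : Fin (Fintype.card b) ≃ b := (Fintype.equivFin b).symm with he
    set g : Fin (Fintype.card b) → V := fun i => (e i : V) with hg
    have hgli : LinearIndependent (ZMod 2) g := hli.comp e e.injective
    have hrange : Set.range g = b := by
      ext v
      constructor
      · rintro ⟨i, rfl⟩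
        exact (e i).2
      · intro hv
        exact ⟨e.symm ⟨v, hv⟩, by simp [hg]⟩
    have hfin : Module.finrank (ZMod 2) (Submodule.span (ZMod 2) S) = Fintype.card b := by
      have h1 := finrank_span_eq_card hgli
      rw [hrange, hspan, Fintype.card_fin] at h1
      exact h1
    rw [hfin]
    have hgood : ∀ i, ∃ a : V × V, lw Q A a ≠ 0 ∧ ¬ b1 a ∧ ¬ b2 a ∧ g i = a.1 + a.2 :=
      fun i => hbS (e i).2
    choose a ha0 ha1 ha2 hag using hgood
    set G : Fin (Fintype.card b) → Ω × Ω → Prop := fun i x => A x = a i ∧ ¬ E1 x ∧ ¬ E2 x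
      with hG
    set c : Fin (Fintype.card b) → ℝ := fun i => pr Q (G i) with hc
    have hq : ∀ i, 0 < lw Q A (a i) := fun i =>
      lt_of_le_of_ne (lw_nonneg hQ.nonneg A (a i)) (Ne.symm (ha0 i))
    have hchalf : ∀ i, lw Q A (a i) / 2 ≤ c i := by
      intro i
      have h1 : lw Q A (a i) ≤ pr Q (G i) + (pr Q (fun x => A x = a i ∧ E1 x) +
          pr Q (fun x => A x = a i ∧ E2 x)) := by
        calc lw Q A (a i) = pr Q (fun x => A x = a i) := rfl
          _ ≤ pr Q (fun x => G i x ∨ ((A x = a i ∧ E1 x) ∨ (A x = a i ∧ E2 x))) := by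
              apply pr_mono hQ.nonneg
              intro x _ hx
              by_cases h1 : E1 x
              · exact Or.inr (Or.inl ⟨hx, h1⟩)
              · by_cases h2 : E2 x
                · exact Or.inr (Or.inr ⟨hx, h2⟩)
                · exact Or.inl ⟨hx, h1, h2⟩
          _ ≤ _ := (pr_or_le hQ.nonneg _ _).trans
              (add_le_add le_rfl (pr_or_le hQ.nonneg _ _))
      have h2 := ha1 i
      have h3 := ha2 i
      simp only [hb1, hb2, not_le] at h2 h3
      have : c i = pr Q (G i) := rfl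
      linarith
    have hc0 : ∀ i, 0 < c i := fun i => by
      have := hchalf i
      have := hq i
      linarith
    have hkl := kikuchi p hp hw g hgli (τ := 2 * t) (by linarith)
      (fun i l r => (c i)⁻¹ * pr Q (fun x => X1 x = l ∧ (X2 x = r ∧ G i x)))
      (fun i l r => mul_nonneg (inv_nonneg.2 (hc0 i).le) (pr_nonneg hQ.nonneg _))
      (fun i => by
        have : ∀ l, ∑ r, (c i)⁻¹ * pr Q (fun x => X1 x = l ∧ (X2 x = r ∧ G i x)) =
            (c i)⁻¹ * pr Q (fun x => X1 x = l ∧ G i x) := by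
          intro l
          rw [← Finset.mul_sum, ← pr_sum_eq Q X2 (fun x => X1 x = l ∧ G i x)]
          congr 1
          apply Finset.sum_congr rfl
          intro r _
          congr 1
          ext x
          tauto
        rw [Finset.sum_congr rfl (fun l _ => this l), ← Finset.mul_sum, pr_sum_eq Q X1 (G i)]
        exact inv_mul_cancel₀ (hc0 i).ne')
      (fun i l r hne => by
        have h1 : pr Q (fun x => X1 x = l ∧ (X2 x = r ∧ G i x)) ≠ 0 :=
          fun h => hne (by rw [h, mul_zero])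
        have h2 : ∃ x, Q x ≠ 0 ∧ X1 x = l ∧ X2 x = r ∧ G i x := by
          by_contra hcon
          push Not at hcon
          apply h1
          unfold pr
          apply Finset.sum_eq_zero
          intro x _
          by_cases hx : Q x = 0
          · rw [hx]; simp
          · rw [if_neg]
            rintro ⟨h3, h4, h5⟩
            exact hcon x hx h3 h4 h5
        obtain ⟨x, hx, hl, hr, hAx, -, -⟩ := h2
        have hW : W x.1 = W x.2 := cpy_ae hx
        obtain ⟨hx1, hx2⟩ := cpy_ne hx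
        have e1 := hψ x.1 hx1
        have e2 := hψ x.2 hx2
        rw [hag i, ← hAx, ← hl, ← hr]
        simp only [hA, hX1, hX2]
        rw [← hW, ← e1] at e2
        -- e2 : Y x.2 + ∑ X x.2 = Y x.1 + ∑ X x.1
        have e3 : ∑ t, X x.1 t + ∑ t, X x.2 t = Y x.1 + Y x.2 := by
          calc ∑ t, X x.1 t + ∑ t, X x.2 t
              = ∑ t, X x.1 t + (Y x.2 + Y x.2) + ∑ t, X x.2 t := by
                rw [two_tors (Y x.2), add_zero]
            _ = ∑ t, X x.1 t + Y x.2 + (Y x.2 + ∑ t, X x.2 t) := by abel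
            _ = ∑ t, X x.1 t + Y x.2 + (Y x.1 + ∑ t, X x.1 t) := by rw [e2]
            _ = (∑ t, X x.1 t + ∑ t, X x.1 t) + (Y x.1 + Y x.2) := by abel
            _ = Y x.1 + Y x.2 := by rw [two_tors (∑ t, X x.1 t), zero_add]
        exact e3)
      (fun i l => by
        have h0 : ∑ r, (c i)⁻¹ * pr Q (fun x => X1 x = l ∧ (X2 x = r ∧ G i x)) =
            (c i)⁻¹ * pr Q (fun x => X1 x = l ∧ G i x) := by
          rw [← Finset.mul_sum, ← pr_sum_eq Q X2 (fun x => X1 x = l ∧ G i x)]
          congr 1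
          apply Finset.sum_congr rfl
          intro r _
          congr 1
          ext x
          tauto
        rw [h0]
        have h1 : pr Q (fun x => X1 x = l ∧ G i x) ≤ t * (lw Q A (a i) * pw p l) := by
          by_cases hex : ∃ x, X1 x = l ∧ G i x
          · obtain ⟨x, hxl, hxa, hx1, -⟩ := hex
            have h3 : lw Q (fun x => (A x, X1 x)) (a i, l) ≤ t * (lw Q A (a i) * pw p l) := by
              have := not_lt.1 hx1
              rw [hxa, hxl] at this
              exact this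
            refine le_trans ?_ h3
            apply pr_mono hQ.nonneg
            rintro y - ⟨hy1, hy2, -⟩
            show (A y, X1 y) = (a i, l)
            rw [hy1, hy2]
          · have : pr Q (fun x => X1 x = l ∧ G i x) = 0 := by
              unfold pr
              apply Finset.sum_eq_zero
              intro x _
              rw [if_neg (fun h => hex ⟨x, h⟩)]
            rw [this]
            have := kl_pw_nonneg p hp.nonneg l
            have := (hq i).le
            positivity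
        have h2 := hchalf i
        have h4 : 0 ≤ pw p l := kl_pw_nonneg p hp.nonneg l
        calc (c i)⁻¹ * pr Q (fun x => X1 x = l ∧ G i x)
            ≤ (c i)⁻¹ * (t * (lw Q A (a i) * pw p l)) :=
              mul_le_mul_of_nonneg_left h1 (inv_nonneg.2 (hc0 i).le)
          _ ≤ (c i)⁻¹ * (t * ((2 * c i) * pw p l)) := by
              apply mul_le_mul_of_nonneg_left _ (inv_nonneg.2 (hc0 i).le)
              apply mul_le_mul_of_nonneg_left _ (by linarith)
              apply mul_le_mul_of_nonneg_right _ h4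
              linarith
          _ = 2 * t * pw p l := by
              have := (hc0 i).ne'
              field_simp)
      (fun i r => by
        have h0 : ∑ l, (c i)⁻¹ * pr Q (fun x => X1 x = l ∧ (X2 x = r ∧ G i x)) =
            (c i)⁻¹ * pr Q (fun x => X2 x = r ∧ G i x) := by
          rw [← Finset.mul_sum, ← pr_sum_eq Q X1 (fun x => X2 x = r ∧ G i x)]
        rw [h0]
        have h1 : pr Q (fun x => X2 x = r ∧ G i x) ≤ t * (lw Q A (a i) * pw p r) := by
          by_cases hex : ∃ x, X2 x = r ∧ G i x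
          · obtain ⟨x, hxl, hxa, -, hx1⟩ := hex
            have h3 : lw Q (fun x => (A x, X2 x)) (a i, r) ≤ t * (lw Q A (a i) * pw p r) := by
              have := not_lt.1 hx1
              rw [hxa, hxl] at this
              exact this
            refine le_trans ?_ h3
            apply pr_mono hQ.nonneg
            rintro y - ⟨hy1, hy2, -⟩
            show (A y, X2 y) = (a i, r)
            rw [hy1, hy2]
          · have : pr Q (fun x => X2 x = r ∧ G i x) = 0 := by
              unfold pr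
              apply Finset.sum_eq_zero
              intro x _
              rw [if_neg (fun h => hex ⟨x, h⟩)]
            rw [this]
            have := kl_pw_nonneg p hp.nonneg r
            have := (hq i).le
            positivity
        have h2 := hchalf i
        have h4 : 0 ≤ pw p r := kl_pw_nonneg p hp.nonneg r
        calc (c i)⁻¹ * pr Q (fun x => X2 x = r ∧ G i x)
            ≤ (c i)⁻¹ * (t * (lw Q A (a i) * pw p r)) :=
              mul_le_mul_of_nonneg_left h1 (inv_nonneg.2 (hc0 i).le)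
          _ ≤ (c i)⁻¹ * (t * ((2 * c i) * pw p r)) := by
              apply mul_le_mul_of_nonneg_left _ (inv_nonneg.2 (hc0 i).le)
              apply mul_le_mul_of_nonneg_left _ (by linarith)
              apply mul_le_mul_of_nonneg_right _ h4
              linarith
          _ = 2 * t * pw p r := by
              have := (hc0 i).ne'
              field_simp)
    calc (Fintype.card b : ℝ) ≤ 64 * (w : ℝ) ^ 2 * (2 * t) * (ent p / Real.log 2) := hkl
      _ = 128 * (w : ℝ) ^ 2 * t * (ent p / Real.log 2) := by ring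
  · calc pr Q (fun x => Y x.1 + Y x.2 ∉ Submodule.span (ZMod 2) S)
        ≤ pr Q (fun x => b1 (A x) ∨ b2 (A x)) := by
          apply pr_mono hQ.nonneg
          intro x hx hnot
          by_contra hcon
          push Not at hcon
          apply hnot
          apply Submodule.subset_span
          refine ⟨A x, (lt_of_lt_of_le hx (le_lw hQ.nonneg A x)).ne', hcon.1, hcon.2, rfl⟩
      _ ≤ 4 / M + 4 / M := (pr_or_le hQ.nonneg _ _).trans (add_le_add hB1 hB2)
      _ = 8 / M := by ring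

/-- **I.7, first part**: the copy agrees with the original -/
theorem dl_agree {s κ κ' : ℝ} {P : Ω → ℝ} (hP : IsLaw P) (p : V → ℝ) (hPW : PWorld p s κ κ')
    (hw : 1 ≤ w) (Y : Ω → V) (X : Ω → Fin w → V) (W : Ω → β) (B : Ω → γ)
    (hB : ∃ φ : β → γ, ∀ ω, B ω = φ (W ω)) (ψ : β → V)
    (hψ : ∀ ω, P ω ≠ 0 → Y ω + ∑ i, X ω i = ψ (W ω)) (hX : lw P X = pw p)
    (hind : ∀ x y b, lw P (fun ω => (X ω, Y ω, B ω)) (x, y, b) =
      pw p x * lw P (fun ω => (Y ω, B ω)) (y, b)) (hY : lw P Y = p) {ι M : ℝ} (hM : 1 ≤ M)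
    (hι : HH P (fun ω => (Y ω, B ω)) - HH P B - (HH P (fun ω => (Y ω, W ω)) - HH P W) ≤ ι)
    (h128 : 128 * (w : ℝ) ^ 2 * Real.exp (M * (ι + 1)) * (Real.log s / Real.log 2) ≤ s ^ κ) :
    pr (cpy P W) (fun x => Y x.1 ≠ Y x.2) ≤ 8 / M + 2 * s ^ (-κ') := by
  classical
  obtain ⟨U, hU, hpr⟩ := dl_space hP p hPW.law hw Y X W B hB ψ hψ hX hind hM hι
  have hent : ent p ≤ Real.log s := by
    have h1 : HH P Y ≤ Real.log (univ.filter fun c => p c ≠ 0).card := by
      apply HH_le_log hP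
      intro ω hω
      rw [Finset.mem_filter]
      refine ⟨Finset.mem_univ _, ?_⟩
      rw [← hY]
      exact (lt_of_lt_of_le (lt_of_le_of_ne (hP.nonneg ω) (Ne.symm hω))
        (le_lw hP.nonneg Y ω)).ne'
    have h2 : HH P Y = ent p := by unfold HH; rw [hY]
    rw [← h2]
    refine h1.trans (Real.log_le_log ?_ hPW.card)
    have h3 : (univ.filter fun c => p c ≠ 0).Nonempty := by
      by_contra hne
      rw [Finset.not_nonempty_iff_eq_empty] at hne
      have hz : ∀ c, p c = 0 := fun c => by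
        by_contra hc
        have : c ∈ (univ.filter fun c => p c ≠ 0) := by
          rw [Finset.mem_filter]; exact ⟨Finset.mem_univ _, hc⟩
        rw [hne] at this
        exact absurd this (Finset.notMem_empty _)
      have := hPW.law.sum_one
      rw [Finset.sum_eq_zero (fun c _ => hz c)] at this
      exact zero_ne_one this
    exact_mod_cast Finset.card_pos.2 h3
  have hlog2 : 0 < Real.log 2 := Real.log_pos (by norm_num)
  have hUk : (Module.finrank (ZMod 2) U : ℝ) ≤ s ^ κ := by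
    refine hU.trans (le_trans ?_ h128)
    apply mul_le_mul_of_nonneg_left _ (by positivity)
    gcongr
  obtain ⟨Lt, hLt, hLs⟩ := hPW.spread U hUk
  have hQ := hP.cpy W
  have hmem1 : pr (cpy P W) (fun x => Y x.1 ∈ Lt) ≤ s ^ (-κ') := by
    refine le_trans (le_of_eq ?_) hLs
    have h1 := sum_lw_mul (cpy P W) (fun x : Ω × Ω => Y x.1) (fun a => if a ∈ Lt then 1 else 0)
    rw [lw_cpy_fst hP W Y, hY] at h1
    simp only [mul_ite, mul_one, mul_zero] at h1
    rw [Finset.sum_ite_mem, Finset.univ_inter] at h1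
    rw [h1]
    unfold pr
    exact Finset.sum_congr rfl fun x _ => by congr
  have hmem2 : pr (cpy P W) (fun x => Y x.2 ∈ Lt) ≤ s ^ (-κ') := by
    refine le_trans (le_of_eq ?_) hLs
    have h1 := sum_lw_mul (cpy P W) (fun x : Ω × Ω => Y x.2) (fun a => if a ∈ Lt then 1 else 0)
    rw [lw_cpy_snd hP W Y, hY] at h1
    simp only [mul_ite, mul_one, mul_zero] at h1
    rw [Finset.sum_ite_mem, Finset.univ_inter] at h1
    rw [h1]
    unfold pr
    exact Finset.sum_congr rfl fun x _ => by congr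
  calc pr (cpy P W) (fun x => Y x.1 ≠ Y x.2)
      ≤ pr (cpy P W) (fun x => Y x.1 + Y x.2 ∉ U ∨ (Y x.1 ∈ Lt ∨ Y x.2 ∈ Lt)) := by
        apply pr_mono hQ.nonneg
        intro x hx hne
        by_cases hU' : Y x.1 + Y x.2 ∈ U
        · right
          obtain ⟨h1, h2⟩ := cpy_ne hx.ne'
          have h3 : ∀ ω, P ω ≠ 0 → p (Y ω) ≠ 0 := fun ω hω => by
            rw [← hY]
            exact (lt_of_lt_of_le (lt_of_le_of_ne (hP.nonneg ω) (Ne.symm hω))
              (le_lw hP.nonneg Y ω)).ne'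
          exact hLt _ _ (h3 _ h1) (h3 _ h2) hne hU'
        · exact Or.inl hU'
    _ ≤ 8 / M + (s ^ (-κ') + s ^ (-κ')) :=
        (pr_or_le hQ.nonneg _ _).trans (add_le_add hpr
          ((pr_or_le hQ.nonneg _ _).trans (add_le_add hmem1 hmem2)))
    _ = 8 / M + 2 * s ^ (-κ') := by ring

omit [AddCommGroup V] [Module (ZMod 2) V] in
/-- **I.7 (a)** Fano -/
theorem dl_fano {P : Ω → ℝ} (hP : IsLaw P) (Y : Ω → V) (W : Ω → β) (p : V → ℝ)
    (hY : lw P Y = p) {s : ℝ} (hs : ((univ.filter fun c => p c ≠ 0).card : ℝ) ≤ s) {θ : ℝ}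
    (hθ : pr (cpy P W) (fun x => Y x.1 ≠ Y x.2) ≤ θ) :
    HH P (fun ω => (Y ω, W ω)) - HH P W ≤ Real.log 2 + θ * Real.log s := by
  classical
  have hQ := hP.cpy W
  set R := univ.filter fun c => p c ≠ 0 with hR
  have hpY : ∀ ω, P ω ≠ 0 → p (Y ω) ≠ 0 := fun ω hω => by
    rw [← hY]
    exact (lt_of_lt_of_le (lt_of_le_of_ne (hP.nonneg ω) (Ne.symm hω))
      (le_lw hP.nonneg Y ω)).ne'
  have hne : R.Nonempty := by
    obtain ⟨ω, hω⟩ : ∃ ω, P ω ≠ 0 := by
      by_contra hcon
      push Not at hcon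
      have := hP.sum_one
      rw [Finset.sum_eq_zero (fun ω _ => hcon ω)] at this
      exact zero_ne_one this
    exact ⟨Y ω, by rw [hR, Finset.mem_filter]; exact ⟨Finset.mem_univ _, hpY ω hω⟩⟩
  have hc : (1 : ℝ) ≤ R.card := by exact_mod_cast Finset.card_pos.2 hne
  have hc0 : (0 : ℝ) < R.card := by linarith
  -- H(Y|W) = H(Y'|Y,W) ≤ H(Y'|Y)
  have h1 := HH_cpy hP W Y Y
  have h2 := HH_submod hQ (fun x : Ω × Ω => Y x.2) (fun x : Ω × Ω => W x.1)
    (fun x : Ω × Ω => Y x.1)
  have r1 : HH (cpy P W) (fun x : Ω × Ω => (Y x.2, W x.1, Y x.1)) =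
      HH (cpy P W) (fun x : Ω × Ω => (Y x.1, Y x.2, W x.1)) :=
    HH_congr hQ _ _ (fun a => (a.2.2, a.1, a.2.1)) (fun a => (a.2.1, a.2.2, a.1))
      (fun _ => rfl) (fun _ => rfl)
  have r2 : HH (cpy P W) (fun x : Ω × Ω => (W x.1, Y x.1)) = HH P (fun ω => (Y ω, W ω)) := by
    rw [← HH_cpy_fst hP W (fun ω => (Y ω, W ω))]
    exact HH_congr hQ _ _ (fun a => (a.2, a.1)) (fun a => (a.2, a.1)) (fun _ => rfl)
      (fun _ => rfl)
  rw [r1, r2, h1] at h2
  have h3 := HH_gibbs hQ (fun x : Ω × Ω => Y x.2) (fun x : Ω × Ω => Y x.1)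
    (fun y' y => 1 / 2 * (if y' = y then 1 else 0) +
      1 / 2 * (if y' ∈ R then (R.card : ℝ)⁻¹ else 0))
    (fun a b => by positivity)
    (fun b => by
      rw [Finset.sum_add_distrib, ← Finset.mul_sum, ← Finset.mul_sum, Finset.sum_ite_eq',
        if_pos (Finset.mem_univ _), Finset.sum_ite_mem, Finset.univ_inter, Finset.sum_const,
        nsmul_eq_mul, mul_inv_cancel₀ hc0.ne']
      norm_num)
    (fun x hx => by
      obtain ⟨-, hx2⟩ := cpy_ne hx
      have hm : Y x.2 ∈ R := by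
        rw [hR, Finset.mem_filter]; exact ⟨Finset.mem_univ _, hpY _ hx2⟩
      rw [if_pos hm]
      have : 0 ≤ (1 : ℝ) / 2 * (if Y x.2 = Y x.1 then 1 else 0) := by positivity
      have h4 : 0 < (1 : ℝ) / 2 * (R.card : ℝ)⁻¹ := by positivity
      linarith)
  have hlogR : 0 ≤ Real.log R.card := Real.log_nonneg hc
  have h5 : ∑ x, cpy P W x * -Real.log (1 / 2 * (if Y x.2 = Y x.1 then 1 else 0) +
      1 / 2 * (if Y x.2 ∈ R then (R.card : ℝ)⁻¹ else 0)) ≤
      Real.log 2 + θ * Real.log R.card := by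
    have h6 : ∀ x : Ω × Ω, cpy P W x * -Real.log (1 / 2 * (if Y x.2 = Y x.1 then 1 else 0) +
      1 / 2 * (if Y x.2 ∈ R then (R.card : ℝ)⁻¹ else 0)) ≤
        cpy P W x * Real.log 2 + (if Y x.1 ≠ Y x.2 then cpy P W x else 0) * Real.log R.card := by
      intro x
      by_cases hx : cpy P W x = 0
      · rw [hx]; simp
      · have hx0 : 0 < cpy P W x := lt_of_le_of_ne (hQ.nonneg x) (Ne.symm hx)
        obtain ⟨-, hx2⟩ := cpy_ne hx
        have hm : Y x.2 ∈ R := by
          rw [hR, Finset.mem_filter]; exact ⟨Finset.mem_univ _, hpY _ hx2⟩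
        rw [if_pos hm]
        by_cases heq : Y x.1 = Y x.2
        · rw [if_pos heq.symm, if_neg (fun h => h heq), zero_mul, add_zero, mul_one]
          apply mul_le_mul_of_nonneg_left _ hx0.le
          have h7 : Real.log (1 / 2) ≤ Real.log (1 / 2 + 1 / 2 * (R.card : ℝ)⁻¹) := by
            apply Real.log_le_log (by norm_num)
            have : 0 < (1 : ℝ) / 2 * (R.card : ℝ)⁻¹ := by positivity
            linarith
          rw [one_div, Real.log_inv] at h7
          rw [one_div]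
          linarith
        · rw [if_neg (fun h => heq h.symm), if_pos heq, mul_zero, zero_add, ← mul_add]
          apply mul_le_mul_of_nonneg_left _ hx0.le
          rw [Real.log_mul (by norm_num) (by positivity), Real.log_inv, one_div, Real.log_inv]
          linarith
    have h8 := Finset.sum_le_sum (fun x (_ : x ∈ Finset.univ) => h6 x)
    rw [Finset.sum_add_distrib, ← Finset.sum_mul, ← Finset.sum_mul, hQ.sum_one, one_mul] at h8
    have h9 : ∑ x : Ω × Ω, (if Y x.1 ≠ Y x.2 then cpy P W x else 0) =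
        pr (cpy P W) (fun x => Y x.1 ≠ Y x.2) := by
      unfold pr
      exact Finset.sum_congr rfl fun x _ => by congr
    rw [h9] at h8
    have := mul_le_mul_of_nonneg_right hθ hlogR
    linarith
  have hθ0 : 0 ≤ θ := (pr_nonneg hQ.nonneg _).trans hθ
  have h10 : Real.log R.card ≤ Real.log s := Real.log_le_log hc0 hs
  have h11 := mul_le_mul_of_nonneg_left h10 hθ0
  linarith

omit [AddCommGroup V] [Module (ZMod 2) V] in
/-- **I.7 (b)** -/
theorem dl_det {P : Ω → ℝ} (hP : IsLaw P) (Y : Ω → V) (W : Ω → β) {θ : ℝ}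
    (hθ : pr (cpy P W) (fun x => Y x.1 ≠ Y x.2) ≤ θ) :
    pr P (fun ω => lw P (fun ω => (Y ω, W ω)) (Y ω, W ω) < 1 / 2 * lw P W (W ω)) ≤ 2 * θ := by
  classical
  have hQ := hP.cpy W
  set μ : Ω → ℝ := fun ω => lw P (fun ω => (Y ω, W ω)) (Y ω, W ω) / lw P W (W ω) with hμ
  -- the probability of agreement
  have h1 : pr (cpy P W) (fun x => Y x.1 = Y x.2) = ∑ ω, P ω * μ ω := by
    unfold pr
    rw [Fintype.sum_prod_type]
    apply Finset.sum_congr rfl
    intro ω _
    simp only [hμ]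
    have h2 : lw P (fun ω => (Y ω, W ω)) (Y ω, W ω) =
        ∑ ω', (if Y ω' = Y ω ∧ W ω' = W ω then P ω' else 0) := by
      unfold lw
      apply Finset.sum_congr rfl
      intro ω' _
      simp only [Prod.mk.injEq]
    rw [h2, mul_div_assoc', Finset.mul_sum, Finset.sum_div]
    apply Finset.sum_congr rfl
    intro ω' _
    unfold cpy
    by_cases h3 : Y ω = Y ω' <;> by_cases h4 : W ω = W ω' <;>
      simp [h3, h4, eq_comm]
  have h2 : pr (cpy P W) (fun x => Y x.1 ≠ Y x.2) = 1 - ∑ ω, P ω * μ ω := by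
    rw [← h1]
    exact pr_compl hQ _
  have hμ1 : ∀ ω, P ω ≠ 0 → μ ω ≤ 1 := by
    intro ω hω
    have h3 : 0 < lw P W (W ω) := lt_of_lt_of_le
      (lt_of_le_of_ne (hP.nonneg ω) (Ne.symm hω)) (le_lw hP.nonneg W ω)
    simp only [hμ]
    rw [div_le_one h3, ← lw_pair_sum P Y W (W ω)]
    exact Finset.single_le_sum (f := fun y => lw P (fun ω => (Y ω, W ω)) (y, W ω))
      (fun y _ => lw_nonneg hP.nonneg _ _) (Finset.mem_univ (Y ω))
  have h3 : pr P (fun ω => lw P (fun ω => (Y ω, W ω)) (Y ω, W ω) < 1 / 2 * lw P W (W ω)) ≤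
      ∑ ω, P ω * (2 * (1 - μ ω)) := by
    unfold pr
    apply Finset.sum_le_sum
    intro ω _
    by_cases hω : P ω = 0
    · rw [hω]; simp
    · have h4 : 0 < lw P W (W ω) := lt_of_lt_of_le
        (lt_of_le_of_ne (hP.nonneg ω) (Ne.symm hω)) (le_lw hP.nonneg W ω)
      have h5 := hμ1 ω hω
      have h6 := hP.nonneg ω
      split_ifs with h7
      · have h8 : μ ω < 1 / 2 := by
          simp only [hμ]
          rw [div_lt_iff₀ h4]
          exact h7
        nlinarith
      · apply mul_nonneg h6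
        linarith
  have h4 : ∑ ω, P ω * (2 * (1 - μ ω)) = 2 * (1 - ∑ ω, P ω * μ ω) := by
    have h5 : ∀ ω, P ω * (2 * (1 - μ ω)) = 2 * P ω - 2 * (P ω * μ ω) := fun ω => by ring
    rw [Finset.sum_congr rfl (fun ω _ => h5 ω), Finset.sum_sub_distrib, ← Finset.mul_sum,
      ← Finset.mul_sum, hP.sum_one]
    ring
  rw [h4, ← h2] at h3
  linarith

/-- **I.7** -/
theorem dl7 {s κ κ' : ℝ} {P : Ω → ℝ} (hP : IsLaw P) (p : V → ℝ) (hPW : PWorld p s κ κ')
    (hw : 1 ≤ w) (Y : Ω → V) (X : Ω → Fin w → V) (W : Ω → β) (B : Ω → γ)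
    (hB : ∃ φ : β → γ, ∀ ω, B ω = φ (W ω)) (ψ : β → V)
    (hψ : ∀ ω, P ω ≠ 0 → Y ω + ∑ i, X ω i = ψ (W ω)) (hX : lw P X = pw p)
    (hind : ∀ x y b, lw P (fun ω => (X ω, Y ω, B ω)) (x, y, b) =
      pw p x * lw P (fun ω => (Y ω, B ω)) (y, b)) (hY : lw P Y = p) {ι M : ℝ} (hM : 1 ≤ M)
    (hι : HH P (fun ω => (Y ω, B ω)) - HH P B - (HH P (fun ω => (Y ω, W ω)) - HH P W) ≤ ι)
    (h128 : 128 * (w : ℝ) ^ 2 * Real.exp (M * (ι + 1)) * (Real.log s / Real.log 2) ≤ s ^ κ) :
    HH P (fun ω => (Y ω, W ω)) - HH P W ≤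
        Real.log 2 + (8 / M + 2 * s ^ (-κ')) * Real.log s ∧
      pr P (fun ω => lw P (fun ω => (Y ω, W ω)) (Y ω, W ω) < 1 / 2 * lw P W (W ω)) ≤
        2 * (8 / M + 2 * s ^ (-κ')) := by
  have h := dl_agree hP p hPW hw Y X W B hB ψ hψ hX hind hY hM hι h128
  exact ⟨dl_fano hP Y W p hY hPW.card h, dl_det hP Y W h⟩

end DL

end Pool.Agent.XO
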