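import Pool.Agent.Lib_helper94.XO.Defs

/-!
# Part I, I.4: entropy calculus on finite laws
-/

set_option autoImplicit false

namespace Pool.Agent.XO

open Finset

section Basic

variable {Ω α β γ δ : Type} [Fintype Ω] [Fintype α] [Fintype β] [Fintype γ] [Fintype δ]

omit [Fintype α] in
theorem lw_nonneg {P : Ω → ℝ} (hP : ∀ ω, 0 ≤ P ω) (X : Ω → α) (a : α) : 0 ≤ lw P X a := by
  unfold lw
  apply Finset.sum_nonneg
  intro ω _
  split_ifs
  · exact hP ω
  · exact le_rfl

theorem sum_lw (P : Ω → ℝ) (X : Ω → α) : ∑ a, lw P X a = ∑ ω, P ω := by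
  classical
  unfold lw
  rw [Finset.sum_comm]
  apply Finset.sum_congr rfl
  intro ω _
  rw [Finset.sum_ite_eq, if_pos (Finset.mem_univ _)]

/-- expectation of a function of `X` -/
theorem sum_lw_mul (P : Ω → ℝ) (X : Ω → α) (F : α → ℝ) :
    ∑ a, lw P X a * F a = ∑ ω, P ω * F (X ω) := by
  classical
  unfold lw
  simp only [Finset.sum_mul]
  rw [Finset.sum_comm]
  apply Finset.sum_congr rfl
  intro ω _
  rw [Finset.sum_eq_single (X ω)]
  · rw [if_pos rfl]
  · intro b _ hb
    rw [if_neg (Ne.symm hb), zero_mul]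
  · intro h
    exact absurd (Finset.mem_univ _) h

theorem IsLaw.lw {P : Ω → ℝ} (hP : IsLaw P) (X : Ω → α) : IsLaw (lw P X) :=
  ⟨lw_nonneg hP.nonneg X, by rw [sum_lw]; exact hP.sum_one⟩

omit [Fintype α] in
theorem lw_le_one {P : Ω → ℝ} (hP : IsLaw P) (X : Ω → α) (a : α) : lw P X a ≤ 1 := by
  rw [← hP.sum_one]
  unfold Pool.Agent.XO.lw
  apply Finset.sum_le_sum
  intro ω _
  split_ifs
  · exact le_rfl
  · exact hP.nonneg ω

omit [Fintype α] in
/-- the weight of a point is at most the weight of its value -/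
theorem le_lw {P : Ω → ℝ} (hP : ∀ ω, 0 ≤ P ω) (X : Ω → α) (ω : Ω) : P ω ≤ lw P X (X ω) := by
  classical
  unfold lw
  calc P ω = if X ω = X ω then P ω else 0 := by rw [if_pos rfl]
    _ ≤ _ := Finset.single_le_sum (f := fun x => if X x = X ω then P x else 0)
        (fun x _ => by
          by_cases h : X x = X ω
          · simp only [h, if_true]; exact hP x
          · simp only [h, if_false]; exact le_rfl) (Finset.mem_univ ω)

omit [Fintype β] in
/-- the law of a function of `X` -/
theorem lw_lw (P : Ω → ℝ) (X : Ω → α) (f : α → β) (b : β) :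
    lw (lw P X) f b = lw P (fun ω => f (X ω)) b := by
  classical
  have := sum_lw_mul P X (fun a => if f a = b then 1 else 0)
  unfold lw at this ⊢
  simp only [mul_ite, mul_one, mul_zero] at this
  exact this

omit [Fintype Ω] in
theorem ent_nonneg {P : α → ℝ} (hP : IsLaw P) : 0 ≤ ent P := by
  unfold ent
  apply Finset.sum_nonneg
  intro a _
  apply Real.negMulLog_nonneg (hP.nonneg a)
  rw [← hP.sum_one]
  exact Finset.single_le_sum (fun x _ => hP.nonneg x) (Finset.mem_univ a)

theorem HH_nonneg {P : Ω → ℝ} (hP : IsLaw P) (X : Ω → α) : 0 ≤ HH P X :=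
  ent_nonneg (hP.lw X)

/-- the entropy as an expectation -/
theorem HH_eq (P : Ω → ℝ) (X : Ω → α) : HH P X = ∑ ω, P ω * -Real.log (lw P X (X ω)) := by
  unfold HH ent
  rw [← sum_lw_mul P X (fun a => -Real.log (lw P X a))]
  apply Finset.sum_congr rfl
  intro a _
  unfold Real.negMulLog
  ring

/-- entropy of a function -/
theorem HH_comp_le {P : Ω → ℝ} (hP : IsLaw P) (X : Ω → α) (f : α → β) :
    HH P (fun ω => f (X ω)) ≤ HH P X := by
  rw [HH_eq, HH_eq]
  apply Finset.sum_le_sum
  intro ω _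
  rcases (hP.nonneg ω).eq_or_lt with h | h
  · rw [← h, zero_mul, zero_mul]
  · apply mul_le_mul_of_nonneg_left _ h.le
    rw [neg_le_neg_iff]
    apply Real.log_le_log (lt_of_lt_of_le h (le_lw hP.nonneg X ω))
    rw [← lw_lw P X f]
    exact le_lw (lw_nonneg hP.nonneg X) f (X ω)

/-- two random variables that determine each other -/
theorem HH_congr {P : Ω → ℝ} (hP : IsLaw P) (X : Ω → α) (Y : Ω → β) (f : α → β) (g : β → α)
    (hf : ∀ ω, Y ω = f (X ω)) (hg : ∀ ω, X ω = g (Y ω)) : HH P X = HH P Y := by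
  apply le_antisymm
  · have := HH_comp_le hP Y g
    rwa [← funext hg] at this
  · have := HH_comp_le hP X f
    rwa [← funext hf] at this

omit [Fintype α] in
/-- two random variables that determine each other, almost surely -/
theorem lw_congr_ae {P : Ω → ℝ} (X Y : Ω → α) (h : ∀ ω, P ω ≠ 0 → X ω = Y ω) :
    lw P X = lw P Y := by
  classical
  ext a
  unfold lw
  apply Finset.sum_congr rfl
  intro ω _
  by_cases hω : P ω = 0
  · rw [hω]; simp
  · rw [h ω hω]

theorem HH_congr_ae {P : Ω → ℝ} (X Y : Ω → α) (h : ∀ ω, P ω ≠ 0 → X ω = Y ω) :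
    HH P X = HH P Y := by
  unfold HH
  rw [lw_congr_ae X Y h]

theorem HH_le_pair {P : Ω → ℝ} (hP : IsLaw P) (X : Ω → α) (Y : Ω → β) :
    HH P Y ≤ HH P (fun ω => (X ω, Y ω)) :=
  HH_comp_le hP (fun ω => (X ω, Y ω)) Prod.snd

theorem HH_le_pair' {P : Ω → ℝ} (hP : IsLaw P) (X : Ω → α) (Y : Ω → β) :
    HH P X ≤ HH P (fun ω => (X ω, Y ω)) :=
  HH_comp_le hP (fun ω => (X ω, Y ω)) Prod.fst

omit [Fintype Ω] [Fintype γ] [Fintype δ] in
/-- homogeneous subadditivity -/
theorem sub2 (q : α → β → ℝ) (hq : ∀ a b, 0 ≤ q a b) :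
    ∑ a, ∑ b, Real.negMulLog (q a b) + Real.negMulLog (∑ a, ∑ b, q a b) ≤
      ∑ a, Real.negMulLog (∑ b, q a b) + ∑ b, Real.negMulLog (∑ a, q a b) := by
  set Q := ∑ a, ∑ b, q a b with hQ
  have hQ0 : 0 ≤ Q := Finset.sum_nonneg fun a _ => Finset.sum_nonneg fun b _ => hq a b
  rcases hQ0.eq_or_lt with h0 | h0
  · have hz : ∀ a b, q a b = 0 := by
      intro a b
      have h1 := (Finset.sum_eq_zero_iff_of_nonneg
        (fun a _ => Finset.sum_nonneg fun b _ => hq a b)).1 (hQ ▸ h0.symm) a (Finset.mem_univ a)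
      exact (Finset.sum_eq_zero_iff_of_nonneg (fun b _ => hq a b)).1 h1 b (Finset.mem_univ b)
    simp [hz, ← h0]
  set r : α → ℝ := fun a => ∑ b, q a b with hr
  set c : β → ℝ := fun b => ∑ a, q a b with hc
  have hr0 : ∀ a, 0 ≤ r a := fun a => Finset.sum_nonneg fun b _ => hq a b
  have hc0 : ∀ b, 0 ≤ c b := fun b => Finset.sum_nonneg fun a _ => hq a b
  have hrs : ∑ a, r a = Q := rfl
  have hcs : ∑ b, c b = Q := Finset.sum_comm
  have hterm : ∀ a b, q a b - r a * c b / Q ≤
      q a b * (Real.log (q a b) + Real.log Q - Real.log (r a) - Real.log (c b)) := by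
    intro a b
    rcases (hq a b).eq_or_lt with h | h
    · rw [← h, zero_mul, zero_sub, neg_nonpos]
      exact div_nonneg (mul_nonneg (hr0 a) (hc0 b)) h0.le
    · have h1 : 0 < r a := lt_of_lt_of_le h
        (Finset.single_le_sum (fun b _ => hq a b) (Finset.mem_univ b))
      have h2 : 0 < c b := lt_of_lt_of_le h
        (Finset.single_le_sum (f := fun a => q a b) (fun a _ => hq a b) (Finset.mem_univ a))
      have h3 := Real.log_le_sub_one_of_pos (show 0 < r a * c b / (Q * q a b) by positivity)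
      rw [Real.log_div (by positivity) (by positivity), Real.log_mul h1.ne' h2.ne',
        Real.log_mul h0.ne' h.ne'] at h3
      have h4 := mul_le_mul_of_nonneg_left h3 h.le
      have h5 : q a b * (r a * c b / (Q * q a b) - 1) = r a * c b / Q - q a b := by
        field_simp
      rw [h5] at h4
      linarith
  have hsum : ∑ a, ∑ b, (q a b - r a * c b / Q) = 0 := by
    simp only [Finset.sum_sub_distrib]
    have : ∑ a, ∑ b, r a * c b / Q = Q := by
      calc ∑ a, ∑ b, r a * c b / Q = (∑ a, r a) * (∑ b, c b) / Q := by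
            rw [Finset.sum_mul_sum, Finset.sum_div]
            apply Finset.sum_congr rfl
            intro a _
            rw [Finset.sum_div]
        _ = Q := by rw [hrs, hcs]; field_simp
    rw [this]
    exact sub_self Q
  have h6 : 0 ≤ ∑ a, ∑ b, q a b *
      (Real.log (q a b) + Real.log Q - Real.log (r a) - Real.log (c b)) := by
    rw [← hsum]
    exact Finset.sum_le_sum fun a _ => Finset.sum_le_sum fun b _ => hterm a b
  have h7 : ∑ a, ∑ b, q a b *
      (Real.log (q a b) + Real.log Q - Real.log (r a) - Real.log (c b)) =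
      (∑ a, ∑ b, q a b * Real.log (q a b)) + Q * Real.log Q - (∑ a, r a * Real.log (r a)) -
        ∑ b, c b * Real.log (c b) := by
    have e1 : Q * Real.log Q = ∑ a, ∑ b, q a b * Real.log Q := by
      rw [hQ, Finset.sum_mul]
      apply Finset.sum_congr rfl
      intro a _
      rw [Finset.sum_mul]
    have e2 : ∑ a, r a * Real.log (r a) = ∑ a, ∑ b, q a b * Real.log (r a) := by
      apply Finset.sum_congr rfl
      intro a _
      rw [hr, Finset.sum_mul]
    have e3 : ∑ b, c b * Real.log (c b) = ∑ a, ∑ b, q a b * Real.log (c b) := by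
      rw [Finset.sum_comm]
      apply Finset.sum_congr rfl
      intro b _
      rw [hc, Finset.sum_mul]
    rw [e1, e2, e3, ← Finset.sum_add_distrib, ← Finset.sum_sub_distrib,
      ← Finset.sum_sub_distrib]
    apply Finset.sum_congr rfl
    intro a _
    rw [← Finset.sum_add_distrib, ← Finset.sum_sub_distrib, ← Finset.sum_sub_distrib]
    apply Finset.sum_congr rfl
    intro b _
    ring
  rw [h7] at h6
  unfold Real.negMulLog
  simp only [neg_mul, Finset.sum_neg_distrib]
  linarith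

/-- the law of a pair, summed over one variable -/
theorem lw_pair_sum (P : Ω → ℝ) (X : Ω → α) (Y : Ω → β) (y : β) :
    ∑ x, lw P (fun ω => (X ω, Y ω)) (x, y) = lw P Y y := by
  classical
  have h := lw_lw P (fun ω => (X ω, Y ω)) Prod.snd y
  simp only at h
  rw [← h]
  unfold lw
  rw [Fintype.sum_prod_type]
  apply Finset.sum_congr rfl
  intro x _
  rw [Finset.sum_ite_eq', if_pos (Finset.mem_univ _)]

theorem lw_pair_sum' (P : Ω → ℝ) (X : Ω → α) (Y : Ω → β) (x : α) :
    ∑ y, lw P (fun ω => (X ω, Y ω)) (x, y) = lw P X x := by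
  classical
  have h := lw_lw P (fun ω => (X ω, Y ω)) Prod.fst x
  simp only at h
  rw [← h]
  unfold lw
  rw [Fintype.sum_prod_type_right]
  apply Finset.sum_congr rfl
  intro y _
  rw [Finset.sum_ite_eq', if_pos (Finset.mem_univ _)]

/-- submodularity -/
theorem HH_submod {P : Ω → ℝ} (hP : IsLaw P) (A : Ω → α) (B : Ω → β) (C : Ω → γ) :
    HH P (fun ω => (A ω, B ω, C ω)) + HH P C ≤
      HH P (fun ω => (A ω, C ω)) + HH P (fun ω => (B ω, C ω)) := by
  classical
  have h1 : ∀ a c, lw P (fun ω => (A ω, C ω)) (a, c) =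
      ∑ b, lw P (fun ω => (A ω, B ω, C ω)) (a, b, c) := by
    intro a c
    have h := lw_lw P (fun ω => (A ω, B ω, C ω)) (fun x => (x.1, x.2.2)) (a, c)
    simp only at h
    rw [← h]
    unfold lw
    rw [Fintype.sum_prod_type, Finset.sum_eq_single a]
    · rw [Fintype.sum_prod_type]
      apply Finset.sum_congr rfl
      intro b _
      rw [Finset.sum_eq_single c]
      · rw [if_pos rfl]
      · intro c' _ hc
        rw [if_neg (fun h => hc (Prod.mk.inj h).2)]
      · intro h; exact absurd (Finset.mem_univ _) h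
    · intro a' _ ha
      apply Finset.sum_eq_zero
      intro x _
      rw [if_neg (fun h => ha (Prod.mk.inj h).1)]
    · intro h; exact absurd (Finset.mem_univ _) h
  have h2 : ∀ b c, lw P (fun ω => (B ω, C ω)) (b, c) =
      ∑ a, lw P (fun ω => (A ω, B ω, C ω)) (a, b, c) := fun b c =>
    (lw_pair_sum P A (fun ω => (B ω, C ω)) (b, c)).symm
  have h3 : ∀ c, lw P C c = ∑ a, ∑ b, lw P (fun ω => (A ω, B ω, C ω)) (a, b, c) := by
    intro c
    rw [← lw_pair_sum P A C c]
    exact Finset.sum_congr rfl fun a _ => h1 a c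
  have e1 : HH P (fun ω => (A ω, B ω, C ω)) =
      ∑ c, ∑ a, ∑ b, Real.negMulLog (lw P (fun ω => (A ω, B ω, C ω)) (a, b, c)) := by
    unfold HH ent
    rw [Fintype.sum_prod_type]
    simp only [Fintype.sum_prod_type]
    rw [Finset.sum_congr rfl (fun a _ => Finset.sum_comm), Finset.sum_comm]
  have e2 : HH P C = ∑ c, Real.negMulLog
      (∑ a, ∑ b, lw P (fun ω => (A ω, B ω, C ω)) (a, b, c)) := by
    unfold HH ent
    exact Finset.sum_congr rfl fun c _ => by rw [h3 c]
  have e3 : HH P (fun ω => (A ω, C ω)) = ∑ c, ∑ a, Real.negMulLog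
      (∑ b, lw P (fun ω => (A ω, B ω, C ω)) (a, b, c)) := by
    unfold HH ent
    rw [Fintype.sum_prod_type, Finset.sum_comm]
    exact Finset.sum_congr rfl fun c _ => Finset.sum_congr rfl fun a _ => by rw [h1 a c]
  have e4 : HH P (fun ω => (B ω, C ω)) = ∑ c, ∑ b, Real.negMulLog
      (∑ a, lw P (fun ω => (A ω, B ω, C ω)) (a, b, c)) := by
    unfold HH ent
    rw [Fintype.sum_prod_type, Finset.sum_comm]
    exact Finset.sum_congr rfl fun c _ => Finset.sum_congr rfl fun b _ => by rw [h2 b c]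
  rw [e1, e2, e3, e4, ← Finset.sum_add_distrib, ← Finset.sum_add_distrib]
  apply Finset.sum_le_sum
  intro c _
  exact sub2 (fun a b => lw P (fun ω => (A ω, B ω, C ω)) (a, b, c))
    (fun a b => lw_nonneg hP.nonneg _ _)

/-- independent random variables -/
theorem HH_indep {P : Ω → ℝ} (hP : IsLaw P) (X : Ω → α) (Y : Ω → β)
    (h : ∀ x y, lw P (fun ω => (X ω, Y ω)) (x, y) = lw P X x * lw P Y y) :
    HH P (fun ω => (X ω, Y ω)) = HH P X + HH P Y := by
  rw [HH_eq P (fun ω => (X ω, Y ω)), HH_eq P X, HH_eq P Y, ← Finset.sum_add_distrib]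
  apply Finset.sum_congr rfl
  intro ω _
  rw [h]
  rcases (hP.nonneg ω).eq_or_lt with h0 | h0
  · rw [← h0]; ring
  · have h1 := lt_of_lt_of_le h0 (le_lw hP.nonneg X ω)
    have h2 := lt_of_lt_of_le h0 (le_lw hP.nonneg Y ω)
    rw [Real.log_mul h1.ne' h2.ne']
    ring

/-- Gibbs' inequality: cross entropy with a sub-probability -/
theorem HH_gibbs {P : Ω → ℝ} (hP : IsLaw P) (X : Ω → α) (W : Ω → β) (r : α → β → ℝ)
    (hr : ∀ a b, 0 ≤ r a b) (hr1 : ∀ b, ∑ a, r a b ≤ 1)
    (hpos : ∀ ω, P ω ≠ 0 → 0 < r (X ω) (W ω)) :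
    HH P (fun ω => (X ω, W ω)) - HH P W ≤ ∑ ω, P ω * -Real.log (r (X ω) (W ω)) := by
  classical
  rw [HH_eq P (fun ω => (X ω, W ω)), HH_eq P W, sub_le_iff_le_add, ← Finset.sum_add_distrib]
  set q : α → β → ℝ := fun a b => lw P (fun ω => (X ω, W ω)) (a, b) with hq
  set u : β → ℝ := fun b => lw P W b with hu
  have hq0 : ∀ a b, 0 ≤ q a b := fun a b => lw_nonneg hP.nonneg _ _
  have hu0 : ∀ b, 0 ≤ u b := fun b => lw_nonneg hP.nonneg _ _
  -- termwise: P (log q - log r - log u) ≥ P - P r u / q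
  have hterm : ∀ ω, P ω - P ω * (r (X ω) (W ω) * u (W ω) / q (X ω) (W ω)) ≤
      P ω * (Real.log (q (X ω) (W ω)) - Real.log (r (X ω) (W ω)) - Real.log (u (W ω))) := by
    intro ω
    rcases (hP.nonneg ω).eq_or_lt with h0 | h0
    · rw [← h0]; simp
    · have h1 : 0 < q (X ω) (W ω) := lt_of_lt_of_le h0
        (le_lw hP.nonneg (fun ω => (X ω, W ω)) ω)
      have h2 : 0 < u (W ω) := lt_of_lt_of_le h0 (le_lw hP.nonneg W ω)
      have h3 := hpos ω h0.ne'
      have h4 := Real.log_le_sub_one_of_pos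
        (show 0 < r (X ω) (W ω) * u (W ω) / q (X ω) (W ω) by positivity)
      rw [Real.log_div (by positivity) h1.ne', Real.log_mul h3.ne' h2.ne'] at h4
      nlinarith
  have hsum1 : ∑ ω, P ω * (r (X ω) (W ω) * u (W ω) / q (X ω) (W ω)) ≤ 1 := by
    have h5 := sum_lw_mul P (fun ω => (X ω, W ω))
      (fun x => r x.1 x.2 * u x.2 / q x.1 x.2)
    simp only at h5
    rw [← h5, Fintype.sum_prod_type, Finset.sum_comm]
    calc ∑ b, ∑ a, lw P (fun ω => (X ω, W ω)) (a, b) * (r a b * u b / q a b)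
        ≤ ∑ b, ∑ a, r a b * u b := by
          apply Finset.sum_le_sum; intro b _
          apply Finset.sum_le_sum; intro a _
          have h6 : lw P (fun ω => (X ω, W ω)) (a, b) = q a b := rfl
          rw [h6]
          rcases (hq0 a b).eq_or_lt with h7 | h7
          · rw [← h7, zero_mul]; exact mul_nonneg (hr a b) (hu0 b)
          · rw [mul_div_cancel₀ _ h7.ne']
      _ ≤ ∑ b, u b := by
          apply Finset.sum_le_sum; intro b _
          rw [← Finset.sum_mul]
          calc (∑ a, r a b) * u b ≤ 1 * u b := mul_le_mul_of_nonneg_right (hr1 b) (hu0 b)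
            _ = u b := one_mul _
      _ = 1 := (hP.lw W).sum_one
  have hsum2 : 0 ≤ ∑ ω, P ω * (Real.log (q (X ω) (W ω)) - Real.log (r (X ω) (W ω)) -
      Real.log (u (W ω))) := by
    calc (0 : ℝ) ≤ ∑ ω, (P ω - P ω * (r (X ω) (W ω) * u (W ω) / q (X ω) (W ω))) := by
          rw [Finset.sum_sub_distrib, hP.sum_one]; linarith
      _ ≤ _ := Finset.sum_le_sum fun ω _ => hterm ω
  have hfin : ∑ ω, (P ω * -Real.log (r (X ω) (W ω)) + P ω * -Real.log (lw P W (W ω))) -
      ∑ ω, P ω * -Real.log (lw P (fun ω => (X ω, W ω)) (X ω, W ω)) =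
      ∑ ω, P ω * (Real.log (q (X ω) (W ω)) - Real.log (r (X ω) (W ω)) -
      Real.log (u (W ω))) := by
    rw [← Finset.sum_sub_distrib]
    apply Finset.sum_congr rfl
    intro ω _
    simp only [hq, hu]
    ring
  linarith

/-- entropy is at most the logarithm of the size of the support -/
theorem HH_le_log {P : Ω → ℝ} (hP : IsLaw P) (X : Ω → α) (R : Finset α)
    (hR : ∀ ω, P ω ≠ 0 → X ω ∈ R) : HH P X ≤ Real.log R.card := by
  classical
  have hne : R.Nonempty := by
    by_contra h
    rw [Finset.not_nonempty_iff_eq_empty] at h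
    have h1 : ∀ ω, P ω = 0 := fun ω => by
      by_contra h2
      have := hR ω h2
      rw [h] at this
      exact absurd this (Finset.notMem_empty _)
    have h3 := hP.sum_one
    rw [Finset.sum_eq_zero (fun ω _ => h1 ω)] at h3
    exact zero_ne_one h3
  have hc : (0 : ℝ) < R.card := by exact_mod_cast Finset.card_pos.2 hne
  have h := HH_gibbs hP X (fun _ => ()) (fun a _ => if a ∈ R then (R.card : ℝ)⁻¹ else 0)
    (fun a _ => by split_ifs <;> positivity) (fun _ => by
      rw [Finset.sum_ite_mem, Finset.univ_inter, Finset.sum_const, nsmul_eq_mul,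
        mul_inv_cancel₀ hc.ne']) (fun ω hω => by
      rw [if_pos (hR ω hω)]; positivity)
  have h0 : HH P (fun _ : Ω => ()) = 0 := by
    rw [HH_eq]
    apply Finset.sum_eq_zero
    intro ω _
    have : lw P (fun _ : Ω => ()) () = 1 := by
      unfold lw
      simp only [if_true]
      exact hP.sum_one
    rw [this, Real.log_one, neg_zero, mul_zero]
  have h1 : HH P (fun ω => (X ω, ())) = HH P X :=
    HH_congr hP _ _ Prod.fst (fun a => (a, ())) (fun _ => rfl) (fun _ => rfl)
  rw [h0, h1, sub_zero] at h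
  refine h.trans (le_of_eq ?_)
  calc ∑ ω, P ω * -Real.log (if X ω ∈ R then (R.card : ℝ)⁻¹ else 0)
      = ∑ ω, P ω * Real.log R.card := by
        apply Finset.sum_congr rfl
        intro ω _
        by_cases hω : P ω = 0
        · rw [hω, zero_mul, zero_mul]
        · rw [if_pos (hR ω hω), Real.log_inv, neg_neg]
    _ = Real.log R.card := by rw [← Finset.sum_mul, hP.sum_one, one_mul]

/-- subadditivity -/
theorem HH_subadd {P : Ω → ℝ} (hP : IsLaw P) (A : Ω → α) (B : Ω → β) :
    HH P (fun ω => (A ω, B ω)) ≤ HH P A + HH P B := by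
  have h := HH_submod hP A B (fun _ => ())
  have h1 : HH P (fun ω => (A ω, ())) = HH P A :=
    HH_congr hP _ _ Prod.fst (fun a => (a, ())) (fun _ => rfl) (fun _ => rfl)
  have h2 : HH P (fun ω => (B ω, ())) = HH P B :=
    HH_congr hP _ _ Prod.fst (fun a => (a, ())) (fun _ => rfl) (fun _ => rfl)
  have h3 : HH P (fun ω => (A ω, B ω, ())) = HH P (fun ω => (A ω, B ω)) :=
    HH_congr hP _ _ (fun x => (x.1, x.2.1)) (fun a => (a.1, a.2, ())) (fun _ => rfl)
      (fun _ => rfl)
  have h4 := HH_nonneg hP (fun _ : Ω => ())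
  rw [h1, h2, h3] at h
  linarith

end Basic

end Pool.Agent.XO
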