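import Mathlib
import Pool.Agent.Lib_helper94.XO.Defs
import Pool.Agent.Lib_helper94.XO.F.P2_A1
import Pool.Agent.Lib_helper94.XO.P1.Ent

/-!
# PART I, I.8 (a): product laws and sums of independent elements
-/

set_option autoImplicit false

namespace Pool.Agent.XO

open Finset

section prod

variable {Ω₁ Ω₂ α β : Type} [Fintype Ω₁] [Fintype Ω₂] [Fintype α] [Fintype β]

/-- product law -/
def p1_pq (P : Ω₁ → ℝ) (Q : Ω₂ → ℝ) (ω : Ω₁ × Ω₂) : ℝ := P ω.1 * Q ω.2

omit [Fintype α] [Fintype β] in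
theorem p1_pair (P : Ω₁ → ℝ) (Q : Ω₂ → ℝ) (f : Ω₁ → α) (g : Ω₂ → β) (a : α) (b : β) :
    lw (p1_pq P Q) (fun ω => (f ω.1, g ω.2)) (a, b) = lw P f a * lw Q g b := by
  classical
  unfold lw p1_pq
  rw [Finset.sum_mul_sum, Fintype.sum_prod_type]
  apply Finset.sum_congr rfl
  intro x _
  apply Finset.sum_congr rfl
  intro y _
  by_cases h1 : f x = a <;> by_cases h2 : g y = b <;> simp [h1, h2]

theorem p1_law {P : Ω₁ → ℝ} {Q : Ω₂ → ℝ} (hP : IsLaw P) (hQ : IsLaw Q) : IsLaw (p1_pq P Q) := by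
  refine ⟨fun ω => mul_nonneg (hP.nonneg _) (hQ.nonneg _), ?_⟩
  unfold p1_pq
  rw [Fintype.sum_prod_type, ← Finset.sum_mul_sum, hP.sum_one, hQ.sum_one, one_mul]

omit [Fintype α] in
theorem p1_fst (P : Ω₁ → ℝ) {Q : Ω₂ → ℝ} (hQ : IsLaw Q) (f : Ω₁ → α) :
    lw (p1_pq P Q) (fun ω => f ω.1) = lw P f := by
  classical
  ext a
  unfold lw p1_pq
  rw [Fintype.sum_prod_type]
  apply Finset.sum_congr rfl
  intro x _
  by_cases h1 : f x = a
  · simp only [h1, if_true]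
    rw [← Finset.mul_sum, hQ.sum_one, mul_one]
  · simp [h1]

omit [Fintype β] in
theorem p1_snd {P : Ω₁ → ℝ} (Q : Ω₂ → ℝ) (hP : IsLaw P) (g : Ω₂ → β) :
    lw (p1_pq P Q) (fun ω => g ω.2) = lw Q g := by
  classical
  ext a
  unfold lw p1_pq
  rw [Fintype.sum_prod_type, Finset.sum_comm]
  apply Finset.sum_congr rfl
  intro x _
  by_cases h1 : g x = a
  · simp only [h1, if_true]
    rw [← Finset.sum_mul, hP.sum_one, one_mul]
  · simp [h1]

theorem p1_indep {P : Ω₁ → ℝ} {Q : Ω₂ → ℝ} (hP : IsLaw P) (hQ : IsLaw Q) (f : Ω₁ → α)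
    (g : Ω₂ → β) :
    HH (p1_pq P Q) (fun ω => (f ω.1, g ω.2)) = HH P f + HH Q g := by
  rw [HH_indep (p1_law hP hQ) (fun ω => f ω.1) (fun ω => g ω.2)]
  · unfold HH
    rw [p1_fst P hQ, p1_snd Q hP]
  · intro x y
    rw [p1_pair, p1_fst P hQ, p1_snd Q hP]

end prod

section group

variable {V : Type} [AddCommGroup V] [Fintype V] [DecidableEq V]

theorem p1_add {Ω₁ Ω₂ : Type} [Fintype Ω₁] [Fintype Ω₂] (P : Ω₁ → ℝ) (Q : Ω₂ → ℝ) (f : Ω₁ → V)
    (g : Ω₂ → V) (z : V) :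
    lw (p1_pq P Q) (fun ω => f ω.1 + g ω.2) z = ∑ a, lw P f a * lw Q g (z - a) := by
  classical
  rw [sum_lw_mul P f (fun a => lw Q g (z - a))]
  unfold lw p1_pq
  rw [Fintype.sum_prod_type]
  apply Finset.sum_congr rfl
  intro x _
  rw [Finset.mul_sum]
  apply Finset.sum_congr rfl
  intro y _
  by_cases h : f x + g y = z
  · rw [if_pos h, if_pos (by rw [← h]; abel)]
  · rw [if_neg h, if_neg, mul_zero]
    intro h2
    apply h
    rw [h2]; abel

/-- the law of the sum of a tuple -/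
theorem p1_sum (p : V → ℝ) (k : ℕ) : lw (fun c : Fin k → V => pw p c) (fun c => ∑ i, c i) = cp p k := by
  classical
  ext z
  unfold lw cp
  apply Finset.sum_congr rfl
  intro c _
  congr

/-- the law of the identity -/
theorem p1_id {α : Type} [Fintype α] (p : α → ℝ) : lw p (fun x => x) = p := by
  classical
  ext z
  unfold lw
  rw [Finset.sum_ite_eq', if_pos (Finset.mem_univ _)]

/-- sums of independent elements -/
theorem p1_cp {Ω₁ Ω₂ : Type} [Fintype Ω₁] [Fintype Ω₂] {p : V → ℝ} {P : Ω₁ → ℝ} {Q : Ω₂ → ℝ}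
    {f : Ω₁ → V} {g : Ω₂ → V} {k l : ℕ} (hf : lw P f = cp p k) (hg : lw Q g = cp p l) :
    lw (p1_pq P Q) (fun ω => f ω.1 + g ω.2) = cp p (k + l) := by
  ext z
  rw [p1_add, hf, hg, cp_add]

/-- submodularity for sums: `A` is increasing -/
theorem p1_mono {p : V → ℝ} (hp : IsLaw p) {k : ℕ} (hk : 1 ≤ k) : AA p k ≤ AA p (k + 1) := by
  obtain ⟨k, rfl⟩ := Nat.exists_eq_add_of_le' hk
  have hk1 := cp_law hp k
  set P := p1_pq p (p1_pq p (cp p k)) with hP
  have hPl : IsLaw P := p1_law hp (p1_law hp hk1)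
  -- X, Y, Z
  have h1 := HH_submod hPl (fun ω => ω.1) (fun ω => ω.2.1) (fun ω => ω.1 + (ω.2.1 + ω.2.2))
  have e1 : HH P (fun ω => (ω.1, ω.2.1, ω.1 + (ω.2.1 + ω.2.2))) = ent p + (ent p + ent (cp p k)) := by
    have : HH P (fun ω => (ω.1, ω.2.1, ω.1 + (ω.2.1 + ω.2.2))) = HH P (fun ω => (ω.1, (ω.2.1, ω.2.2))) :=
      HH_congr hPl _ _ (fun t => (t.1, (t.2.1, t.2.2 - t.1 - t.2.1)))
        (fun t => (t.1, t.2.1, t.1 + (t.2.1 + t.2.2))) (fun ω => by
          simp only [Prod.mk.injEq, true_and]; abel) (fun ω => rfl)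
    rw [this]
    have h3 := p1_indep hp (p1_law hp hk1) (fun x => x) (fun y : V × V => (y.1, y.2))
    have h4 := p1_indep hp hk1 (fun x => x) (fun x => x)
    rw [h3, h4]
    unfold HH
    rw [p1_id, p1_id]
  have e2 : HH P (fun ω => ω.1 + (ω.2.1 + ω.2.2)) = ent (cp p (k + 2)) := by
    unfold HH
    rw [p1_cp (k := 1) (l := 1 + k) (p := p) (f := fun x => x) (g := fun y : V × V => y.1 + y.2)]
    · congr 2; omega
    · rw [p1_id]; ext z; rw [cp_one]
    · refine p1_cp (k := 1) (l := k) (p := p) (f := fun x => x) (g := fun x => x) ?_ ?_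
      · rw [p1_id]; ext z; rw [cp_one]
      · rw [p1_id]
  have e3 : HH P (fun ω => (ω.1, ω.1 + (ω.2.1 + ω.2.2))) = ent p + ent (cp p (k + 1)) := by
    have : HH P (fun ω => (ω.1, ω.1 + (ω.2.1 + ω.2.2))) = HH P (fun ω => (ω.1, (ω.2.1 + ω.2.2))) :=
      HH_congr hPl _ _ (fun t => (t.1, t.2 - t.1)) (fun t => (t.1, t.1 + t.2)) (fun ω => by
          simp only [Prod.mk.injEq, true_and]; abel) (fun ω => rfl)
    rw [this]
    have h3 := p1_indep hp (p1_law hp hk1) (fun x => x) (fun y : V × V => y.1 + y.2)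
    rw [h3]
    unfold HH
    rw [p1_id, p1_cp (k := 1) (l := k) (p := p) (f := fun x => x) (g := fun x => x)]
    · congr 3; omega
    · rw [p1_id]; ext z; rw [cp_one]
    · rw [p1_id]
  have e4 : HH P (fun ω => (ω.2.1, ω.1 + (ω.2.1 + ω.2.2))) ≤ ent p + ent (cp p (k + 1)) := by
    have : HH P (fun ω => (ω.2.1, ω.1 + (ω.2.1 + ω.2.2))) = HH P (fun ω => (ω.2.1, ω.1 + ω.2.2)) :=
      HH_congr hPl _ _ (fun t => (t.1, t.2 - t.1)) (fun t => (t.1, t.1 + t.2)) (fun ω => by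
          simp only [Prod.mk.injEq, true_and]; abel) (fun ω => by
          simp only [Prod.mk.injEq, true_and]; abel)
    rw [this]
    have h5 : lw P (fun ω => ω.1 + ω.2.2) = cp p (k + 1) := by
      have := p1_cp (p := p) (P := p) (Q := p1_pq p (cp p k)) (f := fun x => x)
        (g := fun y : V × V => y.2) (k := 1) (l := k) (by rw [p1_id]; ext z; rw [cp_one])
        (by rw [p1_snd (cp p k) hp (fun x => x), p1_id])
      rw [hP, this, add_comm]
    have h6 : lw P (fun ω => ω.2.1) = p := by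
      have := p1_snd (p1_pq p (cp p k)) hp (fun y : V × V => y.1)
      rw [hP, this, p1_fst p hk1 (fun x => x), p1_id]
    refine (HH_subadd hPl _ _).trans (le_of_eq ?_)
    unfold HH
    rw [h5, h6]
  rw [e1, e2, e3] at h1
  unfold AA
  simp only [Nat.add_sub_cancel]
  linarith

end group

end Pool.Agent.XO
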