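import Mathlib
import Pool.Agent.Lib_helper94.XO.Defs
import Pool.Agent.Lib_helper94.XO.F.P2_A1
import Pool.Agent.Lib_helper94.XO.P1.Ent
import Pool.Agent.Lib_helper94.XO.P1.I8a

/-!
# PART I, I.8 (b): the entropies of the four sums
-/

set_option autoImplicit false

namespace Pool.Agent.XO

open Finset

section group

variable {V : Type} [AddCommGroup V] [Fintype V] [DecidableEq V]

theorem p1_aa_one {p : V → ℝ} : AA p 1 = 0 := by
  unfold AA
  have h1 : cp p 1 = p := by ext z; rw [cp_one]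
  have h0 : ent (cp p 0) = 0 := by
    unfold ent
    apply Finset.sum_eq_zero
    intro z _
    rw [cp_zero]
    split_ifs <;> simp
  simp only [Nat.sub_self]
  rw [h0, h1]
  ring

theorem p1_mono' {p : V → ℝ} (hp : IsLaw p) {k l : ℕ} (hk : 1 ≤ k) (hkl : k ≤ l) :
    AA p k ≤ AA p l := by
  induction l, hkl using Nat.le_induction with
  | base => exact le_rfl
  | succ l hl ih => exact ih.trans (p1_mono hp (by omega))

theorem p1_aa_nonneg {p : V → ℝ} (hp : IsLaw p) {k : ℕ} (hk : 1 ≤ k) : 0 ≤ AA p k := by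
  rw [← p1_aa_one (p := p)]
  exact p1_mono' hp le_rfl hk

theorem p1_ent_mono {p : V → ℝ} (hp : IsLaw p) (k : ℕ) : ent (cp p k) ≤ ent (cp p (k + 1)) := by
  have hk := cp_law hp k
  have hl := p1_law hp hk
  have h1 := HH_subadd hl (fun ω : V × V => ω.1) (fun ω => ω.1 + ω.2)
  have h2 : HH (p1_pq p (cp p k)) (fun ω => (ω.1, ω.1 + ω.2)) =
      HH (p1_pq p (cp p k)) (fun ω => (ω.1, ω.2)) :=
    HH_congr hl _ _ (fun t => (t.1, t.2 - t.1)) (fun t => (t.1, t.1 + t.2)) (fun ω => by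
      simp only [Prod.mk.injEq, true_and]; abel) (fun ω => rfl)
  rw [h2, p1_indep hp hk (fun x => x) (fun x => x)] at h1
  unfold HH at h1
  rw [p1_id, p1_id, p1_fst p hk (fun x => x), p1_id,
    p1_cp (k := 1) (l := k) (p := p) (f := fun x => x) (g := fun x => x)
      (by rw [p1_id]; ext z; rw [cp_one]) (by rw [p1_id]), add_comm 1 k] at h1
  linarith

theorem p1_ent_le {p : V → ℝ} (hp : IsLaw p) {s : ℝ}
    (hs : ((univ.filter fun c => p c ≠ 0).card : ℝ) ≤ s) : ent p ≤ Real.log s := by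
  have h1 := HH_le_log hp (fun x => x) (univ.filter fun c => p c ≠ 0) (fun ω hω => by
    rw [Finset.mem_filter]; exact ⟨Finset.mem_univ _, hω⟩)
  unfold HH at h1
  rw [p1_id] at h1
  refine h1.trans (Real.log_le_log ?_ hs)
  have h2 : (univ.filter fun c => p c ≠ 0).Nonempty := by
    by_contra hne
    rw [Finset.not_nonempty_iff_eq_empty, Finset.filter_eq_empty_iff] at hne
    have h3 := hp.sum_one
    rw [Finset.sum_eq_zero (fun c hc => by simpa using hne hc)] at h3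
    exact zero_ne_one h3
  exact_mod_cast Finset.card_pos.2 h2

theorem p1_aa_le {p : V → ℝ} (hp : IsLaw p) {s : ℝ}
    (hs : ((univ.filter fun c => p c ≠ 0).card : ℝ) ≤ s) {k : ℕ} (hk : 1 ≤ k) :
    AA p k ≤ Real.log s := by
  obtain ⟨k, rfl⟩ := Nat.exists_eq_add_of_le' hk
  have h1 := p1_ent_mono hp k
  have h2 := p1_ent_le hp hs
  unfold AA
  simp only [Nat.add_sub_cancel]
  linarith

/-- the sample space: `y ∼ p`, `r ∼ p_(k-1)`, `x ∼ p ^ k`, `q ∼ p_(n-k)` -/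
def p1_P (p : V → ℝ) (k l : ℕ) : V × V × (Fin (k + 1) → V) × V → ℝ :=
  p1_pq p (p1_pq (cp p k) (p1_pq (fun c : Fin (k + 1) → V => pw p c) (cp p l)))

theorem p1_P_law {p : V → ℝ} (hp : IsLaw p) (k l : ℕ) : IsLaw (p1_P p k l) :=
  p1_law hp (p1_law (cp_law hp k) (p1_law (pw_law hp (k + 1)) (cp_law hp l)))

/-- law of `y` -/
theorem p1_Y {p : V → ℝ} (hp : IsLaw p) (k l : ℕ) : lw (p1_P p k l) (fun ω => ω.1) = p := by
  unfold p1_P
  rw [p1_fst p (p1_law (cp_law hp k) (p1_law (pw_law hp (k + 1)) (cp_law hp l))) (fun x => x), p1_id]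

/-- the entropies (`K = k + 1`, `N = K + l`): `B = y + r`, `Zx = ∑ x + q`, `u = y + ∑ x` -/
theorem p1_entropies {p : V → ℝ} (hp : IsLaw p) (k l : ℕ) :
    (HH (p1_P p k l) (fun ω => (ω.1, ω.1 + ω.2.1)) - HH (p1_P p k l) (fun ω => ω.1 + ω.2.1)
      = AA p (k + 1)) ∧
    AA p (k + 1) + AA p (k + 2) - AA p (k + 1 + l) -
      (2 * ent (cp p (k + 1 + l)) - ent (cp p (k + 1 + l + (k + 1))) - ent (cp p l)) ≤
    HH (p1_P p k l) (fun ω => (ω.1, (ω.1 + ω.2.1, (∑ i, ω.2.2.1 i) + ω.2.2.2, ω.1 + ∑ i, ω.2.2.1 i)))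
      - HH (p1_P p k l) (fun ω => (ω.1 + ω.2.1, (∑ i, ω.2.2.1 i) + ω.2.2.2, ω.1 + ∑ i, ω.2.2.1 i)) := by
  have hP := p1_P_law hp k l
  have hk := cp_law hp k
  have hw := pw_law hp (k + 1)
  have hl := cp_law hp l
  have hwl := p1_law hw hl
  have hkwl := p1_law hk hwl
  have c1 : cp p 1 = p := by ext z; rw [cp_one]
  -- laws
  have lB : lw (p1_P p k l) (fun ω => ω.1 + ω.2.1) = cp p (k + 1) := by
    unfold p1_P
    rw [p1_cp (k := 1) (l := k) (p := p) (f := fun x => x) (g := fun y : V × (Fin (k + 1) → V) × V => y.1), add_comm]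
    · rw [p1_id, c1]
    · rw [p1_fst (cp p k) hwl (fun x => x), p1_id]
  have lZ : lw (p1_P p k l) (fun ω => (∑ i, ω.2.2.1 i) + ω.2.2.2) = cp p (k + 1 + l) := by
    unfold p1_P
    rw [p1_snd (p1_pq (cp p k) (p1_pq (fun c : Fin (k + 1) → V => pw p c) (cp p l))) hp
      (fun y : V × (Fin (k + 1) → V) × V => (∑ i, y.2.1 i) + y.2.2), p1_snd (p1_pq (fun c : Fin (k + 1) → V => pw p c) (cp p l)) hk
      (fun y : (Fin (k + 1) → V) × V => (∑ i, y.1 i) + y.2)]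
    refine p1_cp (k := k + 1) (l := l) (p := p) (f := fun x : Fin (k + 1) → V => ∑ i, x i) (g := fun x => x) ?_ ?_
    · exact p1_sum p (k + 1)
    · rw [p1_id]
  have lu : lw (p1_P p k l) (fun ω => ω.1 + ∑ i, ω.2.2.1 i) = cp p (k + 2) := by
    unfold p1_P
    rw [p1_cp (k := 1) (l := k + 1) (p := p) (f := fun x => x) (g := fun y : V × (Fin (k + 1) → V) × V => ∑ i, y.2.1 i)]
    · congr 1; omega
    · rw [p1_id, c1]
    · rw [p1_snd (p1_pq (fun c : Fin (k + 1) → V => pw p c) (cp p l)) hk (fun y : (Fin (k + 1) → V) × V => ∑ i, y.1 i),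
        p1_fst (fun c : Fin (k + 1) → V => pw p c) hl (fun x : Fin (k + 1) → V => ∑ i, x i), p1_sum]
  have lr : lw (p1_P p k l) (fun ω => ω.2.1 + ω.2.2.2) = cp p (k + l) := by
    unfold p1_P
    rw [p1_snd (p1_pq (cp p k) (p1_pq (fun c : Fin (k + 1) → V => pw p c) (cp p l))) hp
      (fun y : V × (Fin (k + 1) → V) × V => y.1 + y.2.2)]
    refine p1_cp (k := k) (l := l) (p := p) (f := fun x => x) (g := fun x : (Fin (k + 1) → V) × V => x.2) ?_ ?_
    · rw [p1_id]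
    · rw [p1_snd (cp p l) hw (fun x => x), p1_id]
  have lS : lw (p1_P p k l) (fun ω => (ω.1 + ω.2.1) + ((∑ i, ω.2.2.1 i) + ω.2.2.2)) =
      cp p (k + 1 + l + (k + 1)) := by
    have e : (fun ω : V × V × (Fin (k + 1) → V) × V => (ω.1 + ω.2.1) + ((∑ i, ω.2.2.1 i) + ω.2.2.2)) =
        fun ω => ω.1 + (ω.2.1 + ((∑ i, ω.2.2.1 i) + ω.2.2.2)) := by
      funext ω; abel
    rw [e]
    unfold p1_P
    rw [p1_cp (k := 1) (l := k + (k + 1 + l)) (p := p) (f := fun x => x)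
      (g := fun y : V × (Fin (k + 1) → V) × V => y.1 + ((∑ i, y.2.1 i) + y.2.2))]
    · congr 1; omega
    · rw [p1_id, c1]
    · refine p1_cp (k := k) (l := k + 1 + l) (p := p) (f := fun x => x)
        (g := fun x : (Fin (k + 1) → V) × V => (∑ i, x.1 i) + x.2) ?_ ?_
      · rw [p1_id]
      · refine p1_cp (k := k + 1) (l := l) (p := p) (f := fun x : Fin (k + 1) → V => ∑ i, x i) (g := fun x => x) ?_ ?_
        · exact p1_sum p (k + 1)
        · rw [p1_id]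
  -- joint entropies
  have j1 : HH (p1_P p k l) (fun ω => (ω.1, ω.1 + ω.2.1)) = ent p + ent (cp p k) := by
    have e : HH (p1_P p k l) (fun ω => (ω.1, ω.1 + ω.2.1)) = HH (p1_P p k l) (fun ω => (ω.1, ω.2.1)) :=
      HH_congr hP _ _ (fun t => (t.1, t.2 - t.1)) (fun t => (t.1, t.1 + t.2)) (fun ω => by
        simp only [Prod.mk.injEq, true_and]; abel) (fun ω => rfl)
    rw [e]
    have := p1_indep hp hkwl (fun x => x) (fun y : V × (Fin (k + 1) → V) × V => y.1)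
    unfold p1_P
    rw [this]
    unfold HH
    rw [p1_id, p1_fst (cp p k) hwl (fun x => x), p1_id]
  have j2 : HH (p1_P p k l) (fun ω => (ω.1, (ω.1 + ω.2.1, (∑ i, ω.2.2.1 i) + ω.2.2.2,
      ω.1 + ∑ i, ω.2.2.1 i))) = ent p + (ent (cp p k) + (ent (cp p (k + 1)) + ent (cp p l))) := by
    have e : HH (p1_P p k l) (fun ω => (ω.1, (ω.1 + ω.2.1, (∑ i, ω.2.2.1 i) + ω.2.2.2,
        ω.1 + ∑ i, ω.2.2.1 i))) = HH (p1_P p k l) (fun ω => (ω.1, (ω.2.1, (∑ i, ω.2.2.1 i, ω.2.2.2)))) :=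
      HH_congr hP _ _ (fun t => (t.1, (t.2.1 - t.1, (t.2.2.2 - t.1, t.2.2.1 - (t.2.2.2 - t.1)))))
        (fun t => (t.1, (t.1 + t.2.1, t.2.2.1 + t.2.2.2, t.1 + t.2.2.1))) (fun ω => by
        simp only [Prod.mk.injEq, true_and]; refine ⟨by abel, by abel, by abel⟩) (fun ω => rfl)
    rw [e]
    have h1 := p1_indep hp hkwl (fun x => x) (fun y : V × (Fin (k + 1) → V) × V => (y.1, (∑ i, y.2.1 i, y.2.2)))
    have h2 := p1_indep hk hwl (fun x => x) (fun y : (Fin (k + 1) → V) × V => (∑ i, y.1 i, y.2))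
    have h3 := p1_indep hw hl (fun x : Fin (k + 1) → V => ∑ i, x i) (fun x => x)
    unfold p1_P
    rw [h1, h2, h3]
    unfold HH
    rw [p1_id, p1_id, p1_id, p1_sum]
  have j3 : HH (p1_P p k l) (fun ω => (ω.1 + ω.2.1, (∑ i, ω.2.2.1 i) + ω.2.2.2,
      ω.1 + ∑ i, ω.2.2.1 i)) + ent (cp p (k + 1 + l + (k + 1))) ≤
      (ent (cp p (k + 1)) + ent (cp p (k + 1 + l))) + (ent (cp p (k + 2)) + ent (cp p (k + l))) := by
    have hs := HH_submod hP (fun ω => (ω.1 + ω.2.1, (∑ i, ω.2.2.1 i) + ω.2.2.2))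
      (fun ω => ω.1 + ∑ i, ω.2.2.1 i) (fun ω => (ω.1 + ω.2.1) + ((∑ i, ω.2.2.1 i) + ω.2.2.2))
    have e1 : HH (p1_P p k l) (fun ω => ((ω.1 + ω.2.1, (∑ i, ω.2.2.1 i) + ω.2.2.2),
        ω.1 + ∑ i, ω.2.2.1 i, (ω.1 + ω.2.1) + ((∑ i, ω.2.2.1 i) + ω.2.2.2))) =
        HH (p1_P p k l) (fun ω => (ω.1 + ω.2.1, (∑ i, ω.2.2.1 i) + ω.2.2.2,
          ω.1 + ∑ i, ω.2.2.1 i)) :=
      HH_congr hP _ _ (fun t => (t.1.1, t.1.2, t.2.1)) (fun t => ((t.1, t.2.1), t.2.2, t.1 + t.2.1))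
        (fun ω => rfl) (fun ω => rfl)
    have e2 : HH (p1_P p k l) (fun ω => ((ω.1 + ω.2.1, (∑ i, ω.2.2.1 i) + ω.2.2.2),
        (ω.1 + ω.2.1) + ((∑ i, ω.2.2.1 i) + ω.2.2.2))) =
        HH (p1_P p k l) (fun ω => (ω.1 + ω.2.1, (∑ i, ω.2.2.1 i) + ω.2.2.2)) :=
      HH_congr hP _ _ (fun t => t.1) (fun t => (t, t.1 + t.2)) (fun ω => rfl) (fun ω => rfl)
    have e3 : HH (p1_P p k l) (fun ω => (ω.1 + ∑ i, ω.2.2.1 i,
        (ω.1 + ω.2.1) + ((∑ i, ω.2.2.1 i) + ω.2.2.2))) =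
        HH (p1_P p k l) (fun ω => (ω.1 + ∑ i, ω.2.2.1 i, ω.2.1 + ω.2.2.2)) :=
      HH_congr hP _ _ (fun t => (t.1, t.2 - t.1)) (fun t => (t.1, t.1 + t.2)) (fun ω => by
        simp only [Prod.mk.injEq, true_and]; abel) (fun ω => by
        simp only [Prod.mk.injEq, true_and]; abel)
    rw [e1, e2, e3] at hs
    have h4 := HH_subadd hP (fun ω => ω.1 + ω.2.1) (fun ω => (∑ i, ω.2.2.1 i) + ω.2.2.2)
    have h5 := HH_subadd hP (fun ω => ω.1 + ∑ i, ω.2.2.1 i) (fun ω => ω.2.1 + ω.2.2.2)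
    have g1 : HH (p1_P p k l) (fun ω => ω.1 + ω.2.1) = ent (cp p (k + 1)) := by
      unfold HH; rw [lB]
    have g2 : HH (p1_P p k l) (fun ω => (∑ i, ω.2.2.1 i) + ω.2.2.2) = ent (cp p (k + 1 + l)) := by
      unfold HH; rw [lZ]
    have g3 : HH (p1_P p k l) (fun ω => ω.1 + ∑ i, ω.2.2.1 i) = ent (cp p (k + 2)) := by
      unfold HH; rw [lu]
    have g4 : HH (p1_P p k l) (fun ω => ω.2.1 + ω.2.2.2) = ent (cp p (k + l)) := by
      unfold HH; rw [lr]
    have g5 : HH (p1_P p k l) (fun ω => (ω.1 + ω.2.1) + ((∑ i, ω.2.2.1 i) + ω.2.2.2)) =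
        ent (cp p (k + 1 + l + (k + 1))) := by
      unfold HH; rw [lS]
    linarith
  have jB : HH (p1_P p k l) (fun ω => ω.1 + ω.2.1) = ent (cp p (k + 1)) := by
    unfold HH; rw [lB]
  constructor
  · rw [j1, jB]
    unfold AA
    simp only [Nat.add_sub_cancel]
  · rw [j2]
    unfold AA
    have e1 : k + 1 + l - 1 = k + l := by omega
    have e2 : k + 2 - 1 = k + 1 := by omega
    simp only [Nat.add_sub_cancel, e1, e2]
    linarith

end group

end Pool.Agent.XO
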