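import Mathlib

/-!
# PART I, I.8 (d): the choice of the scales
-/

set_option autoImplicit false

namespace Pool.Agent.XO

open Filter Topology

/-- the conditions on `s` hold eventually -/
theorem p1_event (κ κ' ε M t : ℝ) (hκ : 0 < κ) (hκ' : 0 < κ') (hε : 0 < ε) (ht : 0 < t) :
    ∀ᶠ s : ℝ in atTop, 1 ≤ Real.log s ∧ Real.log s + 5 ≤ s ^ t ∧
      128 * Real.exp (2 * M) / Real.log 2 * Real.log s ≤ s ^ (5 * κ / 8) ∧
      Real.log 2 + 1 + 2 * s ^ (-κ') * Real.log s ≤ ε / 2 * Real.log s := by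
  have hlog : Tendsto Real.log atTop atTop := Real.tendsto_log_atTop
  have h1 : ∀ᶠ s : ℝ in atTop, 1 ≤ Real.log s := hlog.eventually_ge_atTop 1
  have h2 : ∀ᶠ s : ℝ in atTop, Real.log s + 5 ≤ s ^ t := by
    have ha : ∀ᶠ s : ℝ in atTop, Real.log s ≤ 1 / 2 * s ^ t := by
      have := (isLittleO_log_rpow_atTop ht).bound (by norm_num : (0 : ℝ) < 1 / 2)
      filter_upwards [this, eventually_ge_atTop 1] with s hs hs1
      rw [Real.norm_eq_abs, Real.norm_eq_abs, abs_of_nonneg (Real.log_nonneg hs1),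
        abs_of_nonneg (Real.rpow_nonneg (by linarith) _)] at hs
      exact hs
    have hb : ∀ᶠ s : ℝ in atTop, 10 ≤ s ^ t := (tendsto_rpow_atTop ht).eventually_ge_atTop 10
    filter_upwards [ha, hb] with s h3 h4
    linarith
  have h3 : ∀ᶠ s : ℝ in atTop, 128 * Real.exp (2 * M) / Real.log 2 * Real.log s ≤
      s ^ (5 * κ / 8) := by
    have hc : 0 < 128 * Real.exp (2 * M) / Real.log 2 := by positivity
    have := (isLittleO_log_rpow_atTop (show 0 < 5 * κ / 8 by positivity)).bound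
      (show (0 : ℝ) < 1 / (128 * Real.exp (2 * M) / Real.log 2) by positivity)
    filter_upwards [this, eventually_ge_atTop 1] with s hs hs1
    rw [Real.norm_eq_abs, Real.norm_eq_abs, abs_of_nonneg (Real.log_nonneg hs1),
      abs_of_nonneg (Real.rpow_nonneg (by linarith) _)] at hs
    calc 128 * Real.exp (2 * M) / Real.log 2 * Real.log s
        ≤ 128 * Real.exp (2 * M) / Real.log 2 *
          (1 / (128 * Real.exp (2 * M) / Real.log 2) * s ^ (5 * κ / 8)) :=
        mul_le_mul_of_nonneg_left hs hc.le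
      _ = s ^ (5 * κ / 8) := by field_simp
  have h4 : ∀ᶠ s : ℝ in atTop, (Real.log 2 + 1) ≤ ε / 4 * Real.log s := by
    filter_upwards [hlog.eventually_ge_atTop ((Real.log 2 + 1) / (ε / 4))] with s hs
    rw [div_le_iff₀ (by positivity)] at hs
    linarith
  have h5 : ∀ᶠ s : ℝ in atTop, 2 * s ^ (-κ') ≤ ε / 4 := by
    have := (tendsto_rpow_neg_atTop hκ').eventually (gt_mem_nhds (show (0 : ℝ) < ε / 8 by positivity))
    filter_upwards [this] with s hs
    linarith
  filter_upwards [h1, h2, h3, h4, h5] with s a1 a2 a3 a4 a5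
  refine ⟨a1, a2, a3, ?_⟩
  have : 2 * s ^ (-κ') * Real.log s ≤ ε / 4 * Real.log s :=
    mul_le_mul_of_nonneg_right a5 (by linarith)
  linarith

/-- a small step in a decreasing chain -/
theorem p1_step (J : ℕ) (a : ℕ → ℝ) (L e : ℝ) (hL : 0 < L) (h0 : a 0 ≤ L) (hJ : 0 ≤ a J)
    (he : 1 < J * e) : ∃ j, j < J ∧ a j - a (j + 1) ≤ e * L := by
  by_contra hh
  push Not at hh
  have h : ∀ j, j ≤ J → j * (e * L) ≤ a 0 - a j := by
    intro j
    induction j with
    | zero => intro _; simp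
    | succ j ih =>
      intro hj
      have h1 := ih (by omega)
      have h2 := hh j (by omega)
      push_cast
      linarith
  have h1 := h J le_rfl
  have h2 : 1 * L < J * e * L := mul_lt_mul_of_pos_right he hL
  nlinarith

/-- a small step in an increasing chain -/
theorem p1_step' (J : ℕ) (hJ : 0 < J) (a : ℕ → ℝ) (L : ℝ) (h0 : 0 ≤ a 0) (hJ2 : a J ≤ L) :
    ∃ j, j < J ∧ a (j + 1) - a j ≤ L / J := by
  by_contra hh
  push Not at hh
  have h : ∀ j, j ≤ J → 0 < j → j * (L / J) < a j - a 0 := by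
    intro j
    induction j with
    | zero => intro _ h; omega
    | succ j ih =>
      intro hj _
      have h2 := hh j (by omega)
      rcases Nat.eq_zero_or_pos j with h3 | h3
      · subst h3
        simpa using h2
      · have h1 := ih (by omega) h3
        push_cast
        linarith
  have h1 := h J le_rfl hJ
  have h2 : (J : ℝ) * (L / J) = L := by
    have : (J : ℝ) ≠ 0 := by exact_mod_cast hJ.ne'
    field_simp
  rw [h2] at h1
  linarith

/-- **the scales** -/
theorem p1_scales (κ κ' ε : ℝ) (hκ : 0 < κ) (hκ' : 0 < κ') (hε : 0 < ε) :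
    ∃ t0 : ℝ, 0 < t0 ∧ ∃ M : ℝ, 1 ≤ M ∧ ∀ᶠ s : ℝ in atTop, ∀ A : ℕ → ℝ,
      (∀ k l, 1 ≤ k → k ≤ l → A k ≤ A l) → (∀ k, 1 ≤ k → 0 ≤ A k) →
      (∀ k, 1 ≤ k → A k ≤ Real.log s) →
      (∀ K l : ℕ, 1 ≤ K → 1 ≤ l →
        128 * (K : ℝ) ^ 2 * Real.exp (M * ((A (l + K) - A (K + 1) +
          K * (A (l + K + K) - A l)) + 1)) * Real.log s / Real.log 2 ≤ s ^ κ →
        A K + A (K + 1) - A (l + K) - K * (A (l + K + K) - A l) ≤
          Real.log 2 + (8 / M + 2 * s ^ (-κ')) * Real.log s) →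
      ∀ n : ℕ, 1 ≤ n → (n : ℝ) ≤ s ^ t0 → A n ≤ ε * Real.log s := by
  set M : ℝ := max 1 (32 / ε) with hM
  have hM1 : 1 ≤ M := le_max_left _ _
  have hM0 : 0 < M := by linarith
  have hM2 : 8 / M ≤ ε / 4 := by
    have h1 : 32 / ε ≤ M := le_max_right _ _
    rw [div_le_iff₀ hM0]
    rw [div_le_iff₀ hε] at h1
    nlinarith
  set e : ℝ := min (ε / 4) (κ / (4 * M)) with he
  have he0 : 0 < e := lt_min (by positivity) (by positivity)
  have he1 : e ≤ ε / 4 := min_le_left _ _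
  have he2 : M * e ≤ κ / 4 := by
    have h1 : e ≤ κ / (4 * M) := min_le_right _ _
    calc M * e ≤ M * (κ / (4 * M)) := mul_le_mul_of_nonneg_left h1 hM0.le
      _ = κ / 4 := by field_simp
  obtain ⟨J, hJ⟩ : ∃ J : ℕ, 1 / e < J := exists_nat_gt _
  have hJe : 1 < J * e := by rwa [div_lt_iff₀ he0] at hJ
  have hJ0 : 0 < J := by
    rcases Nat.eq_zero_or_pos J with h | h
    · rw [h] at hJe; norm_num at hJe
    · exact h
  set t : ℕ → ℝ := fun j => κ / 4 / 4 ^ j with ht
  have ht0 : ∀ j, 0 < t j := fun j => by simp only [ht]; positivity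
  have hts : ∀ j, t j = 4 * t (j + 1) := fun j => by
    simp only [ht, pow_succ]; field_simp
  have htanti : ∀ i j, i ≤ j → t j ≤ t i := by
    intro i j hij
    simp only [ht]
    apply div_le_div_of_nonneg_left (by positivity) (by positivity)
    exact pow_le_pow_right₀ (by norm_num) hij
  refine ⟨t J, ht0 J, M, hM1, ?_⟩
  filter_upwards [p1_event κ κ' ε M (t J) hκ hκ' hε (ht0 J), eventually_ge_atTop 1]
    with s ⟨hs1, hs2, hs3, hs4⟩ hs0 A hmono hnn hle hineq n hn1 hn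
  have hspos : 0 < s := by linarith
  have hL0 : 0 < Real.log s := by linarith
  have hfl : ∀ j, j ≤ J → Real.log s + 4 ≤ (⌊s ^ t j⌋₊ : ℝ) := by
    intro j hj
    have h1 : s ^ t J ≤ s ^ t j := Real.rpow_le_rpow_of_exponent_le hs0 (htanti j J hj)
    have h2 := Nat.lt_floor_add_one (s ^ t j)
    linarith
  have hfl1 : ∀ j, j ≤ J → 1 ≤ ⌊s ^ t j⌋₊ := by
    intro j hj
    have h1 := hfl j hj
    have h2 : (1 : ℝ) ≤ (⌊s ^ t j⌋₊ : ℝ) := by linarith
    exact_mod_cast h2
  obtain ⟨j, hjJ, hj⟩ := p1_step J (fun j => A ⌊s ^ t j⌋₊) (Real.log s) e hL0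
    (hle _ (hfl1 0 (Nat.zero_le _))) (hnn _ (hfl1 J le_rfl)) hJe
  set K : ℕ := ⌊s ^ t (j + 1)⌋₊ with hK
  have hKR := hfl (j + 1) (by omega)
  rw [← hK] at hKR
  have hK1 : 1 ≤ K := hfl1 (j + 1) (by omega)
  have hK5 : 5 ≤ K := by
    have : (5 : ℝ) ≤ K := by linarith
    exact_mod_cast this
  have hKle : (K : ℝ) ≤ s ^ t (j + 1) := Nat.floor_le (Real.rpow_nonneg hspos.le _)
  -- the choice of `l`
  obtain ⟨l, hlK, hl⟩ := p1_step' (K ^ 2) (by positivity) (fun l => A (K ^ 3 - K + 2 * K * l))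
    (Real.log s) (hnn _ (by
      have : K * 1 < K * K ^ 2 := Nat.mul_lt_mul_of_pos_left (by nlinarith) hK1
      have h3 : K * K ^ 2 = K ^ 3 := by ring
      omega)) (hle _ (by
      have : K * 1 < K * K ^ 2 := Nat.mul_lt_mul_of_pos_left (by nlinarith) hK1
      have h3 : K * K ^ 2 = K ^ 3 := by ring
      omega))
  have hK3 : K < K ^ 3 := by
    have : K * 1 < K * K ^ 2 := Nat.mul_lt_mul_of_pos_left (by nlinarith) hK1
    have h3 : K * K ^ 2 = K ^ 3 := by ring
    omega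
  obtain ⟨l0, hl0⟩ : ∃ l0, l0 = K ^ 3 - K + 2 * K * l := ⟨_, rfl⟩
  have hl1 : 1 ≤ l0 := by omega
  have hl2 : K ^ 3 - K + 2 * K * (l + 1) = l0 + K + K := by rw [hl0]; ring
  simp only [hl2, ← hl0] at hl
  -- `n + K ≤ K ^ 4 ≤ s ^ t_j`
  have hup : l0 + K + K ≤ ⌊s ^ t j⌋₊ := by
    have h1 : l0 + K + K ≤ K ^ 4 := by
      have h2 : 2 * K * (l + 1) ≤ 2 * K * K ^ 2 := Nat.mul_le_mul_left _ (by omega)
      have h3 : 2 * K * K ^ 2 = 2 * K ^ 3 := by ring
      have h4 : 5 * K ^ 3 ≤ K * K ^ 3 := Nat.mul_le_mul_right _ hK5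
      have h5 : K * K ^ 3 = K ^ 4 := by ring
      omega
    refine h1.trans (Nat.le_floor ?_)
    push_cast
    calc (K : ℝ) ^ 4 ≤ (s ^ t (j + 1)) ^ 4 := pow_le_pow_left₀ (by positivity) hKle 4
      _ = s ^ t j := by
        rw [hts j, ← Real.rpow_natCast, ← Real.rpow_mul hspos.le]
        congr 1
        push_cast
        ring
  have g1 : A (l0 + K) ≤ A (l0 + K + K) := hmono _ _ (by omega) (by omega)
  have g2 : A (l0 + K + K) ≤ A ⌊s ^ t j⌋₊ := hmono _ _ (by omega) hup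
  have g3 : A K ≤ A (K + 1) := hmono _ _ hK1 (by omega)
  have hKpos : (0 : ℝ) < K := by exact_mod_cast hK1
  have g4 : (K : ℝ) * (A (l0 + K + K) - A l0) ≤ 1 := by
    have h1 : (K : ℝ) * (A (l0 + K + K) - A l0) ≤ K * (Real.log s / ((K ^ 2 : ℕ) : ℝ)) :=
      mul_le_mul_of_nonneg_left hl hKpos.le
    refine h1.trans ?_
    push_cast
    have h2 : (K : ℝ) * (Real.log s / (K : ℝ) ^ 2) = Real.log s / K := by
      field_simp
    rw [h2, div_le_one hKpos]
    linarith
  have g5 : A (l0 + K) - A (K + 1) ≤ e * Real.log s := by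
    have : A ⌊s ^ t j⌋₊ - A K ≤ e * Real.log s := hj
    linarith
  have h128 : 128 * (K : ℝ) ^ 2 * Real.exp (M * ((A (l0 + K) - A (K + 1) +
          K * (A (l0 + K + K) - A l0)) + 1)) * Real.log s / Real.log 2 ≤ s ^ κ := by
    have a1 : (K : ℝ) ^ 2 ≤ s ^ (κ / 8) := by
      calc (K : ℝ) ^ 2 ≤ (s ^ t (j + 1)) ^ 2 := pow_le_pow_left₀ (by positivity) hKle 2
        _ = s ^ (t (j + 1) * 2) := by
          rw [← Real.rpow_natCast, ← Real.rpow_mul hspos.le]
          norm_num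
        _ ≤ s ^ (κ / 8) := by
          apply Real.rpow_le_rpow_of_exponent_le hs0
          have := htanti 1 (j + 1) (by omega)
          have h2 : t 1 = κ / 16 := by simp only [ht]; ring
          linarith
    have a2 : Real.exp (M * ((A (l0 + K) - A (K + 1) + K * (A (l0 + K + K) - A l0)) + 1)) ≤
        Real.exp (2 * M) * s ^ (κ / 4) := by
      have b1 : M * ((A (l0 + K) - A (K + 1) + K * (A (l0 + K + K) - A l0)) + 1) ≤
          2 * M + Real.log s * (κ / 4) := by
        have b2 : M * ((A (l0 + K) - A (K + 1) + K * (A (l0 + K + K) - A l0)) + 1) ≤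
            M * (e * Real.log s + 2) := mul_le_mul_of_nonneg_left (by linarith) hM0.le
        have b3 : M * e * Real.log s ≤ κ / 4 * Real.log s :=
          mul_le_mul_of_nonneg_right he2 hL0.le
        nlinarith
      calc _ ≤ Real.exp (2 * M + Real.log s * (κ / 4)) := Real.exp_le_exp.2 b1
        _ = _ := by rw [Real.exp_add, Real.rpow_def_of_pos hspos]
    have a3 : s ^ κ = s ^ (κ / 8) * s ^ (κ / 4) * s ^ (5 * κ / 8) := by
      rw [← Real.rpow_add hspos, ← Real.rpow_add hspos]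
      congr 1
      ring
    have hl2 : 0 < Real.log 2 := Real.log_pos (by norm_num)
    calc 128 * (K : ℝ) ^ 2 * Real.exp (M * ((A (l0 + K) - A (K + 1) +
          K * (A (l0 + K + K) - A l0)) + 1)) * Real.log s / Real.log 2
        ≤ 128 * s ^ (κ / 8) * (Real.exp (2 * M) * s ^ (κ / 4)) * Real.log s / Real.log 2 := by
          gcongr
      _ = s ^ (κ / 8) * s ^ (κ / 4) * (128 * Real.exp (2 * M) / Real.log 2 * Real.log s) := by
          ring
      _ ≤ s ^ (κ / 8) * s ^ (κ / 4) * s ^ (5 * κ / 8) :=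
          mul_le_mul_of_nonneg_left hs3 (by positivity)
      _ = s ^ κ := a3.symm
  have hfin := hineq K l0 hK1 hl1 h128
  have hnK : n ≤ K := by
    rw [hK]
    apply Nat.le_floor
    exact hn.trans (Real.rpow_le_rpow_of_exponent_le hs0 (htanti (j + 1) J (by omega)))
  have h1 := hmono n K hn1 hnK
  have h2 : 8 / M * Real.log s ≤ ε / 4 * Real.log s := mul_le_mul_of_nonneg_right hM2 hL0.le
  have h3 : e * Real.log s ≤ ε / 4 * Real.log s := mul_le_mul_of_nonneg_right he1 hL0.le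
  nlinarith

end Pool.Agent.XO
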