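import Mathlib
import Pool.Agent.Lib_helper94.XO.Defs
import Pool.Agent.Lib_helper94.XO.F.P2_A1
import Pool.Agent.Lib_helper94.XO.P1.Ent
import Pool.Agent.Lib_helper94.XO.P1.DL
import Pool.Agent.Lib_helper94.XO.P1.I8b
import Pool.Agent.Lib_helper94.XO.P1.I8d

/-!
# PART I, I.8: `A(n) ≤ ε log s` for `n ≤ s ^ t₀`
-/

set_option autoImplicit false

namespace Pool.Agent.XO

open Finset Filter

section group

variable {V : Type} [AddCommGroup V] [Fintype V] [DecidableEq V]

theorem p1_up {p : V → ℝ} (hp : IsLaw p) (l : ℕ) (hl : 1 ≤ l) (K : ℕ) :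
    ent (cp p (l + K)) ≤ ent (cp p l) + K * (ent p - AA p l) := by
  induction K with
  | zero => simp
  | succ K ih =>
    have h1 := p1_mono' hp hl (show l ≤ l + K + 1 by omega)
    have h2 : AA p (l + K + 1) = ent p + ent (cp p (l + K)) - ent (cp p (l + K + 1)) := by
      unfold AA
      simp only [Nat.add_sub_cancel]
    have h3 : l + (K + 1) = l + K + 1 := by omega
    rw [h3]
    push_cast
    linarith

theorem p1_down {p : V → ℝ} (hp : IsLaw p) (n : ℕ) (K j : ℕ) (hj : j ≤ K) :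
    ent (cp p n) + j * (ent p - AA p (n + K)) ≤ ent (cp p (n + j)) := by
  induction j with
  | zero => simp
  | succ j ih =>
    have h0 := ih (by omega)
    have h1 := p1_mono' hp (show 1 ≤ n + j + 1 by omega) (show n + j + 1 ≤ n + K by omega)
    have h2 : AA p (n + j + 1) = ent p + ent (cp p (n + j)) - ent (cp p (n + j + 1)) := by
      unfold AA
      simp only [Nat.add_sub_cancel]
    have h3 : n + (j + 1) = n + j + 1 := by omega
    rw [h3]
    push_cast
    linarith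

/-- the second difference of the entropies -/
theorem p1_second {p : V → ℝ} (hp : IsLaw p) (l K : ℕ) (hl : 1 ≤ l) :
    2 * ent (cp p (l + K)) - ent (cp p (l + K + K)) - ent (cp p l) ≤
      K * (AA p (l + K + K) - AA p l) := by
  have h1 := p1_up hp l hl K
  have h2 := p1_down hp (l + K) K K le_rfl
  linarith

theorem p1_lw_iff {Ω α β : Type} [Fintype Ω] (P : Ω → ℝ) (X : Ω → α) (Y : Ω → β) (a : α) (b : β)
    (h : ∀ ω, X ω = a ↔ Y ω = b) : lw P X a = lw P Y b := by
  classical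
  unfold lw
  apply Finset.sum_congr rfl
  intro ω _
  by_cases h1 : X ω = a
  · rw [if_pos h1, if_pos ((h ω).1 h1)]
  · rw [if_neg h1, if_neg (fun h2 => h1 ((h ω).2 h2))]

variable [Module (ZMod 2) V]

/-- the inequality of I.8 -/
theorem p1_ineq {p : V → ℝ} {s κ κ' : ℝ} (hW : PWorld p s κ κ') {M : ℝ} (hM : 1 ≤ M)
    (K l : ℕ) (hK : 1 ≤ K) (hl : 1 ≤ l)
    (h128 : 128 * (K : ℝ) ^ 2 * Real.exp (M * ((AA p (l + K) - AA p (K + 1) +
      K * (AA p (l + K + K) - AA p l)) + 1)) * Real.log s / Real.log 2 ≤ s ^ κ) :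
    AA p K + AA p (K + 1) - AA p (l + K) - K * (AA p (l + K + K) - AA p l) ≤
      Real.log 2 + (8 / M + 2 * s ^ (-κ')) * Real.log s := by
  obtain ⟨k, rfl⟩ := Nat.exists_eq_add_of_le' hK
  have hp := hW.law
  have hP := p1_P_law hp k l
  obtain ⟨h1, h2⟩ := p1_entropies hp k l
  have h3 := p1_second hp l (k + 1) hl
  have e1 : k + 1 + l = l + (k + 1) := by omega
  rw [e1] at h2
  have hk := cp_law hp k
  have hw := pw_law hp (k + 1)
  have hl' := cp_law hp l
  have hwl := p1_law hw hl'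
  have hkwl := p1_law hk hwl
  -- laws of pairs and triples
  have l2 : ∀ y b, lw (p1_P p k l) (fun ω => (ω.1, ω.1 + ω.2.1)) (y, b) = p y * cp p k (b - y) := by
    intro y b
    rw [p1_lw_iff (p1_P p k l) (fun ω => (ω.1, ω.1 + ω.2.1)) (fun ω => (ω.1, ω.2.1)) (y, b)
      (y, b - y) (fun ω => by
        simp only [Prod.mk.injEq]
        constructor
        · rintro ⟨h4, h5⟩
          exact ⟨h4, by rw [← h5, h4]; abel⟩
        · rintro ⟨h4, h5⟩
          exact ⟨h4, by rw [h5, h4]; abel⟩)]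
    have := p1_pair p (p1_pq (cp p k) (p1_pq (fun c : Fin (k + 1) → V => pw p c) (cp p l)))
      (fun x => x) (fun y : V × (Fin (k + 1) → V) × V => y.1) y (b - y)
    unfold p1_P
    rw [this, p1_id, p1_fst (cp p k) hwl (fun x => x), p1_id]
  have l3 : ∀ x y b, lw (p1_P p k l) (fun ω => (ω.2.2.1, ω.1, ω.1 + ω.2.1)) (x, y, b) =
      pw p x * (p y * cp p k (b - y)) := by
    intro x y b
    rw [p1_lw_iff (p1_P p k l) (fun ω => (ω.2.2.1, ω.1, ω.1 + ω.2.1))
      (fun ω => (ω.1, (ω.2.1, ω.2.2.1))) (x, y, b) (y, (b - y, x)) (fun ω => by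
        simp only [Prod.mk.injEq]
        constructor
        · rintro ⟨h6, h4, h5⟩
          exact ⟨h4, by rw [← h5, h4]; abel, h6⟩
        · rintro ⟨h4, h5, h6⟩
          exact ⟨h6, h4, by rw [h5, h4]; abel⟩)]
    have t1 := p1_pair p (p1_pq (cp p k) (p1_pq (fun c : Fin (k + 1) → V => pw p c) (cp p l)))
      (fun x => x) (fun y : V × (Fin (k + 1) → V) × V => (y.1, y.2.1)) y (b - y, x)
    have t2 := p1_pair (cp p k) (p1_pq (fun c : Fin (k + 1) → V => pw p c) (cp p l))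
      (fun x => x) (fun y : (Fin (k + 1) → V) × V => y.1) (b - y) x
    unfold p1_P
    rw [t1, t2, p1_id, p1_id, p1_fst (fun c : Fin (k + 1) → V => pw p c) hl' (fun x => x), p1_id]
    ring
  have key := dl7 hP p hW (w := k + 1) (by omega) (fun ω => ω.1) (fun ω => ω.2.2.1)
    (fun ω => (ω.1 + ω.2.1, (∑ i, ω.2.2.1 i) + ω.2.2.2, ω.1 + ∑ i, ω.2.2.1 i))
    (fun ω => ω.1 + ω.2.1) ⟨fun t => t.1, fun ω => rfl⟩ (fun t => t.2.2) (fun ω _ => rfl)
    (by
      unfold p1_P
      have t1 := p1_snd (P := p) (p1_pq (cp p k) (p1_pq (fun c : Fin (k + 1) → V => pw p c) (cp p l)))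
        hp (fun y : V × (Fin (k + 1) → V) × V => y.2.1)
      have t2 := p1_snd (P := cp p k) (p1_pq (fun c : Fin (k + 1) → V => pw p c) (cp p l)) hk
        (fun y : (Fin (k + 1) → V) × V => y.1)
      rw [t1, t2, p1_fst (fun c : Fin (k + 1) → V => pw p c) hl' (fun x => x), p1_id])
    (fun x y b => by rw [l3, l2]) (p1_Y hp k l) hM
    (ι := AA p (l + (k + 1)) - AA p (k + 1 + 1) +
      ((k + 1 : ℕ) : ℝ) * (AA p (l + (k + 1) + (k + 1)) - AA p l))
    (by
      have : AA p (k + 1 + 1) = AA p (k + 2) := rfl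
      rw [h1, this]
      linarith)
    (by
      refine le_trans (le_of_eq ?_) h128
      ring)
  have e2 : AA p (k + 1 + 1) = AA p (k + 2) := rfl
  rw [e2]
  linarith [key.1]

end group

/-- **I.8 (E1)** -/
theorem e1 (κ κ' ε : ℝ) (hκ : 0 < κ) (hκ' : 0 < κ') (hε : 0 < ε) :
    ∃ t0 : ℝ, 0 < t0 ∧ ∀ᶠ s : ℝ in atTop, ∀ (V : Type) [AddCommGroup V] [Module (ZMod 2) V]
      [Fintype V] [DecidableEq V] (p : V → ℝ), PWorld p s κ κ' →
      ∀ n : ℕ, 1 ≤ n → (n : ℝ) ≤ s ^ t0 → AA p n ≤ ε * Real.log s := by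
  obtain ⟨t0, ht0, M, hM, h⟩ := p1_scales κ κ' ε hκ hκ' hε
  refine ⟨t0, ht0, ?_⟩
  filter_upwards [h] with s hs V _ _ _ _ p hW n hn1 hn
  have hp := hW.law
  exact hs (AA p) (fun k l h1 h2 => p1_mono' hp h1 h2) (fun k hk => p1_aa_nonneg hp hk)
    (fun k hk => p1_aa_le hp hW.card hk)
    (fun K l hK hl h128 => p1_ineq hW hM K l hK hl h128) n hn1 hn

end Pool.Agent.XO
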