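import Mathlib
import Pool.Agent.Lib_helper94.XO.P1.I8e
set_option autoImplicit false

/-! I.8 (E1) -/

namespace Pool.Agent.XO

open Finset Filter

/-- I.8 (E1) -/
theorem e_one (κ κ' ε : ℝ) (hκ : 0 < κ) (hκ' : 0 < κ') (hε : 0 < ε) :
    ∃ t₀ : ℝ, 0 < t₀ ∧ ∀ᶠ s : ℝ in atTop, ∀ (V : Type) [AddCommGroup V] [Module (ZMod 2) V]
      [Fintype V] [DecidableEq V] (p : V → ℝ), PWorld p s κ κ' →
      ∀ n : ℕ, 1 ≤ n → (n : ℝ) ≤ s ^ t₀ → AA p n ≤ ε * Real.log s :=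
  e1 κ κ' ε hκ hκ' hε

end Pool.Agent.XO
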