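import Mathlib

/-!
# Part I, I.9: choice of the scales
-/

set_option autoImplicit false

namespace Pool.Agent.XO

open Finset

theorem to_scale (f : ℕ → ℝ) (hmono : ∀ a b, 1 ≤ a → a ≤ b → f a ≤ f b)
    (h0 : ∀ a, 1 ≤ a → 0 ≤ f a) (m : ℕ) (hm : 2 ≤ m) (L t0 e0 : ℝ) (hL : 0 < L) (ht0 : 0 < t0)
    (he0 : 0 ≤ e0) (hbig : 4 * Real.log (2 * m) ≤ t0 * L)
    (hf : ∀ n : ℕ, 1 ≤ n → (n : ℝ) ≤ Real.exp (t0 * L) → f n ≤ e0 * L) :
    ∃ N j : ℕ, m ≤ N ∧ m ≤ j ∧ j + 1 ≤ 2 * m ∧ ((2 * m * N : ℕ) : ℝ) ≤ Real.exp (t0 * L) ∧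
      f (2 * m * N) - f N ≤ 2 * (e0 / t0) * Real.log (2 * m) ∧
      f ((j + 1) * N) - f ((j - 1) * N) ≤ 2 / m * (f (2 * m * N) - f N) := by
  have hm' : (2 : ℝ) ≤ m := by exact_mod_cast hm
  set l := Real.log (2 * m) with hl
  have hl0 : 0 < l := Real.log_pos (by linarith)
  set y := t0 * L / l with hy
  have hy4 : 4 ≤ y := by
    rw [hy, le_div_iff₀ hl0]
    exact hbig
  have hyl : y * l = t0 * L := by
    rw [hy]
    field_simp
  set J := ⌊y⌋₊ - 1 with hJ
  have hfl : 4 ≤ ⌊y⌋₊ := Nat.le_floor (by exact_mod_cast hy4)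
  have hJ1 : J + 1 = ⌊y⌋₊ := by omega
  have hJy : ((J + 1 : ℕ) : ℝ) ≤ y := by
    rw [hJ1]
    exact Nat.floor_le (by linarith)
  have hJy2 : y / 2 ≤ J := by
    have h1 := Nat.lt_floor_add_one y
    have h2 : ((J + 1 : ℕ) : ℝ) = (⌊y⌋₊ : ℝ) := by rw [hJ1]
    push_cast at h2
    linarith
  have hJ0 : 0 < J := by omega
  have hJ0' : (0 : ℝ) < J := by exact_mod_cast hJ0
  have hNle : ∀ i, i ≤ J → ((m * (2 * m) ^ i : ℕ) : ℝ) ≤ Real.exp (t0 * L) := by
    intro i hi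
    have h1 : m * (2 * m) ^ i ≤ (2 * m) ^ (J + 1) := by
      calc m * (2 * m) ^ i ≤ (2 * m) * (2 * m) ^ i := Nat.mul_le_mul_right _ (by omega)
        _ = (2 * m) ^ (i + 1) := by ring
        _ ≤ (2 * m) ^ (J + 1) := Nat.pow_le_pow_right (by omega) (by omega)
    have h2 : (((2 * m) ^ (J + 1) : ℕ) : ℝ) = Real.exp (((J + 1 : ℕ) : ℝ) * l) := by
      rw [hl, ← Real.log_pow, Real.exp_log (by positivity)]
      push_cast
      ring
    calc ((m * (2 * m) ^ i : ℕ) : ℝ) ≤ (((2 * m) ^ (J + 1) : ℕ) : ℝ) := by exact_mod_cast h1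
      _ = Real.exp (((J + 1 : ℕ) : ℝ) * l) := h2
      _ ≤ Real.exp (t0 * L) := by
          apply Real.exp_le_exp.2
          rw [← hyl]
          exact mul_le_mul_of_nonneg_right hJy hl0.le
  have hNpos : ∀ i, 1 ≤ m * (2 * m) ^ i := fun i =>
    Nat.mul_pos (by omega) (Nat.pow_pos (by omega))
  -- the scale N
  have htel : ∑ i ∈ range J, (f (m * (2 * m) ^ (i + 1)) - f (m * (2 * m) ^ i)) ≤
      ∑ _i ∈ range J, e0 * L / J := by
    rw [Finset.sum_range_sub (fun i => f (m * (2 * m) ^ i)), Finset.sum_const, card_range,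
      nsmul_eq_mul, mul_div_cancel₀ _ hJ0'.ne']
    have h1 := hf _ (hNpos J) (hNle J le_rfl)
    have h2 := h0 _ (hNpos 0)
    linarith
  obtain ⟨i, hi, hiN⟩ := Finset.exists_le_of_sum_le (by
    exact ⟨0, Finset.mem_range.2 hJ0⟩) htel
  rw [Finset.mem_range] at hi
  set N := m * (2 * m) ^ i with hN
  have hN1 : m * (2 * m) ^ (i + 1) = 2 * m * N := by rw [hN]; ring
  rw [hN1] at hiN
  have hNm : m ≤ N := by
    calc m = m * 1 := (mul_one m).symm
      _ ≤ N := Nat.mul_le_mul_left m (Nat.pow_pos (by omega))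
  have hNp : 1 ≤ N := hNpos i
  have hD : f (2 * m * N) - f N ≤ 2 * (e0 / t0) * l := by
    refine hiN.trans ?_
    rw [div_le_iff₀ hJ0']
    have h1 : e0 * L = (e0 / t0) * l * y := by
      rw [hy]
      field_simp
    have h2 : 0 ≤ e0 / t0 * l := mul_nonneg (div_nonneg he0 ht0.le) hl0.le
    rw [h1]
    calc e0 / t0 * l * y = e0 / t0 * l * (2 * (y / 2)) := by ring
      _ ≤ e0 / t0 * l * (2 * J) := by
          apply mul_le_mul_of_nonneg_left _ h2
          linarith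
      _ = 2 * (e0 / t0) * l * J := by ring
  -- the choice of j
  have hm0 : (0 : ℝ) < m := by linarith
  have hsumj : ∑ k ∈ range m, (f ((m + k + 1) * N) - f ((m + k - 1) * N)) ≤
      ∑ _k ∈ range m, 2 / m * (f (2 * m * N) - f N) := by
    have e1 : ∑ k ∈ range m, (f ((m + k + 1) * N) - f ((m + k) * N)) =
        f ((m + m) * N) - f ((m + 0) * N) :=
      Finset.sum_range_sub (fun k => f ((m + k) * N)) m
    have e2 : ∑ k ∈ range m, (f ((m - 1 + (k + 1)) * N) - f ((m - 1 + k) * N)) =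
        f ((m - 1 + m) * N) - f ((m - 1 + 0) * N) :=
      Finset.sum_range_sub (fun k => f ((m - 1 + k) * N)) m
    have e3 : ∑ k ∈ range m, (f ((m + k + 1) * N) - f ((m + k - 1) * N)) =
        (f ((m + m) * N) - f ((m + 0) * N)) + (f ((m - 1 + m) * N) - f ((m - 1 + 0) * N)) := by
      rw [← e1, ← e2, ← Finset.sum_add_distrib]
      apply Finset.sum_congr rfl
      intro k _
      rw [show m - 1 + (k + 1) = m + k by omega, show m - 1 + k = m + k - 1 by omega]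
      ring
    rw [e3, Finset.sum_const, card_range, nsmul_eq_mul]
    have g1 : f ((m - 1 + m) * N) ≤ f (2 * m * N) :=
      hmono _ _ (Nat.mul_pos (by omega) hNp) (Nat.mul_le_mul_right N (by omega))
    have g2 : f N ≤ f ((m + 0) * N) := by
      apply hmono _ _ hNp
      calc N = 1 * N := (one_mul N).symm
        _ ≤ (m + 0) * N := Nat.mul_le_mul_right N (by omega)
    have g3 : f N ≤ f ((m - 1 + 0) * N) := by
      apply hmono _ _ hNp
      calc N = 1 * N := (one_mul N).symm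
        _ ≤ (m - 1 + 0) * N := Nat.mul_le_mul_right N (by omega)
    have g4 : (m + m) * N = 2 * m * N := by ring
    rw [g4]
    have g5 : (m : ℝ) * (2 / m * (f (2 * m * N) - f N)) = 2 * (f (2 * m * N) - f N) := by
      field_simp
    rw [g5]
    linarith
  obtain ⟨k, hk, hkN⟩ := Finset.exists_le_of_sum_le (by
    exact ⟨0, Finset.mem_range.2 (by omega)⟩) hsumj
  rw [Finset.mem_range] at hk
  refine ⟨N, m + k, hNm, by omega, by omega, ?_, hD, hkN⟩
  rw [← hN1]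
  exact hNle (i + 1) (by omega)

end Pool.Agent.XO
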