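import Pool.Agent.Lib_helper94.XO.P1.TOa
import Pool.Agent.Lib_helper94.XO.P1.Scale
import Pool.Agent.Lib_helper94.XO.P1.EOne

/-!
# Part I, I.9: tightness
-/

set_option autoImplicit false

namespace Pool.Agent.XO

open Finset Filter

section Seq

variable {V : Type} [AddCommGroup V] [Fintype V] [DecidableEq V]

theorem to_diff_upper {p : V → ℝ} (hp : IsLaw p) (m v : ℕ) :
    ent (cp p (m + v)) - ent (cp p v) ≤ m * (ent p - AA p (v + 1)) := by
  induction m with
  | zero => simp
  | succ m ih =>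
    have h1 := AA_succ p (m + v)
    have h2 := AA_mono hp (show 1 ≤ v + 1 by omega) (show v + 1 ≤ m + v + 1 by omega)
    have e1 : m + 1 + v = m + v + 1 := by ring
    rw [e1]
    push_cast
    linarith

theorem to_diff_lower {p : V → ℝ} (hp : IsLaw p) (m k : ℕ) :
    m * (ent p - AA p (m + k)) ≤ ent (cp p (m + k)) - ent (cp p k) := by
  induction m with
  | zero => simp
  | succ m ih =>
    have h1 := AA_succ p (m + k)
    have e1 : m + 1 + k = m + k + 1 := by ring
    rw [e1]
    push_cast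
    rcases Nat.eq_zero_or_pos (m + k) with h0 | h0
    · obtain ⟨rfl, rfl⟩ : m = 0 ∧ k = 0 := by omega
      simp only [Nat.cast_zero, zero_add] at h1 ⊢
      linarith
    · have h2 := AA_mono hp (show 1 ≤ m + k by omega) (show m + k ≤ m + k + 1 by omega)
      have h3 : (m : ℝ) * (ent p - AA p (m + k + 1)) ≤ m * (ent p - AA p (m + k)) :=
        mul_le_mul_of_nonneg_left (by linarith) (Nat.cast_nonneg m)
      linarith

/-- the bound of `E R` -/
theorem to_K {p : V → ℝ} (hp : IsLaw p) (m u v : ℕ) :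
    ent (cp p (u + v)) - ent (cp p (m + 1 + (u + v))) - ent (cp p u) - ent (cp p v) +
      ent (cp p (u + 1)) + ent (cp p (m + v)) ≤
      (m + 1) * AA p (m + 1 + (u + v)) - AA p (u + 1) - m * AA p (v + 1) := by
  have h1 := to_diff_upper hp m v
  have h2 := to_diff_lower hp (m + 1) (u + v)
  have h3 := AA_succ p u
  push_cast at h2
  linarith

/-- the bound of `E R` with the scales -/
theorem to_KN {p : V → ℝ} (hp : IsLaw p) {m N j : ℕ} (hm : 1 ≤ m) (hN : m + 1 ≤ N)
    (hj : m + 1 ≤ j) (hj2 : j + 1 ≤ 2 * (m + 1)) {D : ℝ}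
    (hD : AA p (2 * (m + 1) * N) - AA p N ≤ D)
    (hjD : AA p ((j + 1) * N) - AA p ((j - 1) * N) ≤
      2 / ((m + 1 : ℕ) : ℝ) * (AA p (2 * (m + 1) * N) - AA p N)) :
    ent (cp p ((N - 1) + (j * N - m))) - ent (cp p (m + 1 + ((N - 1) + (j * N - m)))) -
      ent (cp p (N - 1)) - ent (cp p (j * N - m)) +
      ent (cp p ((N - 1) + 1)) + ent (cp p (m + (j * N - m))) ≤ 3 * D := by
  refine (to_K hp m (N - 1) (j * N - m)).trans ?_
  have hjN : m + 1 ≤ j * N := by
    calc m + 1 ≤ N := hN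
      _ = 1 * N := (one_mul N).symm
      _ ≤ j * N := Nat.mul_le_mul_right N (by omega)
  have e1 : m + 1 + ((N - 1) + (j * N - m)) = (j + 1) * N := by
    rw [Nat.add_mul]
    omega
  have e2 : N - 1 + 1 = N := by omega
  rw [e1, e2]
  have hjm : (j - 1) * N ≤ j * N - m + 1 := by
    rw [Nat.sub_mul, one_mul]
    omega
  have hj1 : 1 ≤ (j - 1) * N := by
    have : 1 * 1 ≤ (j - 1) * N := Nat.mul_le_mul (by omega) (by omega)
    simpa using this
  have h1 := AA_mono hp hj1 hjm
  have h2 : AA p ((j + 1) * N) ≤ AA p (2 * (m + 1) * N) :=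
    AA_mono hp (by
      have : 1 * 1 ≤ (j + 1) * N := Nat.mul_le_mul (by omega) (by omega)
      simpa using this) (Nat.mul_le_mul_right N hj2)
  have h3 : AA p N ≤ AA p (2 * (m + 1) * N) :=
    AA_mono hp (by omega) (by
      calc N = 1 * N := (one_mul N).symm
        _ ≤ 2 * (m + 1) * N := Nat.mul_le_mul_right N (by omega))
  have hm0 : (0 : ℝ) ≤ m := Nat.cast_nonneg m
  have hm1 : (0 : ℝ) < ((m + 1 : ℕ) : ℝ) := by positivity
  set E := AA p (2 * (m + 1) * N) - AA p N with hE
  have hE0 : 0 ≤ E := by linarith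
  have h4 : (m : ℝ) * (2 / ((m + 1 : ℕ) : ℝ) * E) ≤ 2 * E := by
    have h5 : (m : ℝ) / ((m + 1 : ℕ) : ℝ) ≤ 1 := by
      rw [div_le_one hm1]; push_cast; linarith
    calc (m : ℝ) * (2 / ((m + 1 : ℕ) : ℝ) * E) = (m : ℝ) / ((m + 1 : ℕ) : ℝ) * (2 * E) := by ring
      _ ≤ 1 * (2 * E) := mul_le_mul_of_nonneg_right h5 (by linarith)
      _ = 2 * E := one_mul _
  have h6 := mul_le_mul_of_nonneg_left hjD hm0
  have h7 : (m : ℝ) * AA p ((j - 1) * N) ≤ m * AA p (j * N - m + 1) :=
    mul_le_mul_of_nonneg_left h1 hm0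
  have h8 : (m : ℝ) * (AA p ((j + 1) * N) - AA p ((j - 1) * N)) =
      m * AA p ((j + 1) * N) - m * AA p ((j - 1) * N) := by ring
  nlinarith

theorem to_mu_one (p : V → ℝ) {c : V} (hc : p c ≠ 0) : mu p 1 c c = 1 := by
  unfold mu
  rw [sub_self, q_cp_one, show 1 - 1 = 0 from rfl, q_cp_zero, if_pos rfl, mul_one, div_self hc]

end Seq

/-- eventual inequalities -/
theorem to_event (κ κ' δ M t₀ : ℝ) (hκ : 0 < κ) (hκ' : 0 < κ') (hδ : 0 < δ) (hM : 1 ≤ M)
    (ht₀ : 0 < t₀) (m : ℕ) :
    ∀ᶠ s : ℝ in atTop, 1 < s ∧ 4 * Real.log (2 * ((m + 1 : ℕ) : ℝ)) ≤ t₀ * Real.log s ∧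
      128 * (m : ℝ) ^ 2 * Real.exp (M * (κ / (4 * M) * Real.log s + 1)) *
        (Real.log s / Real.log 2) ≤ s ^ κ ∧ 4 * s ^ (-κ') ≤ δ / 8 := by
  have h1 : ∀ᶠ s : ℝ in atTop, 1 < s := eventually_gt_atTop 1
  have h2 : ∀ᶠ s : ℝ in atTop, 4 * Real.log (2 * ((m + 1 : ℕ) : ℝ)) / t₀ ≤ Real.log s :=
    Real.tendsto_log_atTop.eventually_ge_atTop _
  have h3 : ∀ᶠ s : ℝ in atTop, Real.log s ≤ s ^ (κ / 4) := by
    have := (isLittleO_log_rpow_atTop (show 0 < κ / 4 by positivity)).bound
      (show (0 : ℝ) < 1 by norm_num)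
    filter_upwards [this, h1] with s hs hs1
    rw [one_mul, Real.norm_eq_abs, Real.norm_eq_abs,
      abs_of_nonneg (Real.log_nonneg hs1.le), abs_of_nonneg (by positivity)] at hs
    exact hs
  have h4 : ∀ᶠ s : ℝ in atTop, 128 * (m : ℝ) ^ 2 * Real.exp M / Real.log 2 ≤ s ^ (κ / 4) :=
    (tendsto_rpow_atTop (show 0 < κ / 4 by positivity)).eventually_ge_atTop _
  have h5 : ∀ᶠ s : ℝ in atTop, s ^ (-κ') ≤ δ / 32 := by
    have := (tendsto_rpow_neg_atTop hκ').eventually (ge_mem_nhds (show 0 < δ / 32 by positivity))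
    exact this
  filter_upwards [h1, h2, h3, h4, h5] with s s1 s2 s3 s4 s5
  have hs0 : 0 < s := by linarith
  have hlog2 : 0 < Real.log 2 := Real.log_pos (by norm_num)
  refine ⟨s1, ?_, ?_, by linarith⟩
  · rw [div_le_iff₀ ht₀] at s2
    linarith
  · have e1 : Real.exp (M * (κ / (4 * M) * Real.log s + 1)) = s ^ (κ / 4) * Real.exp M := by
      rw [Real.rpow_def_of_pos hs0, ← Real.exp_add]
      congr 1
      have : M ≠ 0 := by linarith
      field_simp
    rw [e1]
    have e2 : s ^ κ = s ^ (κ / 4) * s ^ (κ / 4) * s ^ (κ / 4) * s ^ (κ / 4) := by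
      rw [← Real.rpow_add hs0, ← Real.rpow_add hs0, ← Real.rpow_add hs0]
      congr 1
      ring
    have e3 : 1 ≤ s ^ (κ / 4) := Real.one_le_rpow s1.le (by positivity)
    have hq : 0 < s ^ (κ / 4) := by positivity
    have hl0 : 0 ≤ Real.log s := Real.log_nonneg s1.le
    calc 128 * (m : ℝ) ^ 2 * (s ^ (κ / 4) * Real.exp M) * (Real.log s / Real.log 2)
        = (128 * (m : ℝ) ^ 2 * Real.exp M / Real.log 2) * (s ^ (κ / 4) * Real.log s) := by ring
      _ ≤ s ^ (κ / 4) * (s ^ (κ / 4) * s ^ (κ / 4)) := by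
          apply mul_le_mul s4 _ (by positivity) hq.le
          exact mul_le_mul_of_nonneg_left s3 hq.le
      _ = s ^ (κ / 4) * s ^ (κ / 4) * s ^ (κ / 4) * 1 := by ring
      _ ≤ s ^ κ := by
          rw [e2]
          exact mul_le_mul_of_nonneg_left e3 (by positivity)

/-- **I.9 (E2'), tightness** -/
theorem tight_one_pr (κ κ' δ : ℝ) (hκ : 0 < κ) (hκ' : 0 < κ') (hδ : 0 < δ) :
    ∃ C : ℝ, 0 < C ∧ ∀ m : ℕ, ∀ᶠ s : ℝ in atTop,
      ∀ (V : Type) [AddCommGroup V] [Module (ZMod 2) V] [Fintype V] [DecidableEq V] (p : V → ℝ),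
      PWorld p s κ κ' →
      pr (fun c : Fin (m + 1) → V => pw p c) (fun c => mu p (m + 1) (∑ i, c i) (c 0) <
        Real.exp (-(C * (1 + Real.log (m + 1))))) ≤ δ := by
  set M : ℝ := 128 / δ + 1 with hMdef
  have hM : 1 ≤ M := by
    have : 0 < 128 / δ := by positivity
    linarith
  have hM0 : 0 < M := by linarith
  set e0 : ℝ := κ / (4 * M) with he0
  have he00 : 0 < e0 := by positivity
  obtain ⟨t0, ht0, hev⟩ := e_one κ κ' e0 hκ hκ' he00
  have hQ : 0 < e0 / t0 := by positivity
  refine ⟨4 * (6 * (e0 / t0) + 1) / δ + 8 / δ, by positivity, ?_⟩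
  intro m
  set C := 4 * (6 * (e0 / t0) + 1) / δ + 8 / δ with hC
  have hC0 : 0 < C := by positivity
  rcases Nat.eq_zero_or_pos m with hm0 | hm1
  · -- one element
    subst hm0
    filter_upwards with s V _ _ _ _ p hPW
    have h0 : pr (fun c : Fin (0 + 1) → V => pw p c) (fun c => mu p (0 + 1) (∑ i, c i) (c 0) <
        Real.exp (-(C * (1 + Real.log ((0 : ℕ) + 1))))) = 0 := by
      unfold pr
      apply Finset.sum_eq_zero
      intro c _
      split_ifs with h
      · by_contra hne
        have hc : p (c 0) ≠ 0 := by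
          intro hz
          apply hne
          unfold pw
          exact Finset.prod_eq_zero (Finset.mem_univ 0) hz
        have hmu : mu p (0 + 1) (∑ i, c i) (c 0) = 1 := by
          have e1 : ∑ i, c i = c 0 := by simp
          rw [e1]
          exact to_mu_one p hc
        change mu p (0 + 1) (∑ i, c i) (c 0) < _ at h
        rw [hmu] at h
        have : Real.exp (-(C * (1 + Real.log ((0 : ℕ) + 1)))) ≤ 1 := by
          rw [Real.exp_le_one_iff]
          simp
          exact hC0.le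
        linarith
      · rfl
    rw [h0]
    exact hδ.le
  · filter_upwards [hev, to_event κ κ' δ M t0 hκ hκ' hδ hM ht0 m] with s hs1 hs2 V _ _ _ _ p hPW
    obtain ⟨s1, s2, s3, s4⟩ := hs2
    have hs0 : 0 < s := by linarith
    have hL : 0 < Real.log s := Real.log_pos s1
    have hp := hPW.law
    have hst : s ^ t0 = Real.exp (t0 * Real.log s) := by
      rw [Real.rpow_def_of_pos hs0, mul_comm]
    obtain ⟨N, j, hN, hj, hj2, hNs, hD, hjD⟩ := to_scale (fun n => AA p n)
      (fun a b ha hab => AA_mono hp ha hab) (fun a ha => AA_nonneg hp ha) (m + 1) (by omega)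
      (Real.log s) t0 e0 hL ht0 he00.le s2 (fun n hn hns => hs1 V p hPW n hn (by
        rw [hst]; exact hns))
    set K : ℝ := 6 * (e0 / t0) * Real.log (2 * ((m + 1 : ℕ) : ℝ)) with hK
    have hKN := to_KN hp hm1 hN hj hj2 hD hjD
    have hlog0 : 0 ≤ Real.log (2 * ((m + 1 : ℕ) : ℝ)) := by
      apply Real.log_nonneg
      have : (1 : ℝ) ≤ ((m + 1 : ℕ) : ℝ) := by exact_mod_cast (by omega : 1 ≤ m + 1)
      linarith
    have hK0 : 0 ≤ K := by positivity
    have hx : 0 < 4 * (K + 1) / δ := by positivity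
    have hAN : AA p (N - 1 + 1) ≤ e0 * Real.log s := by
      rw [show N - 1 + 1 = N by omega]
      apply hs1 V p hPW N (by omega)
      rw [hst]
      refine le_trans ?_ hNs
      have : N ≤ 2 * (m + 1) * N := by
        calc N = 1 * N := (one_mul N).symm
          _ ≤ 2 * (m + 1) * N := Nat.mul_le_mul_right N (by omega)
      exact_mod_cast this
    have hfin := tight_fin hPW hm1 (N - 1) (j * N - m) hM hAN s3
      (K := K) (by
        refine hKN.trans (le_of_eq ?_)
        rw [hK]; ring) hx (show 0 < δ / 4 by positivity)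
    have hmono : pr (fun c : Fin (m + 1) → V => pw p c)
        (fun c => mu p (m + 1) (∑ i, c i) (c 0) < Real.exp (-(C * (1 + Real.log (m + 1))))) ≤
        pr (fun c : Fin (m + 1) → V => pw p c)
        (fun c => mu p (m + 1) (∑ i, c i) (c 0) <
          Real.exp (-(4 * (K + 1) / δ)) * (δ / 4 / 2)) := by
      apply pr_mono (fun c => kl_pw_nonneg p hp.nonneg c)
      intro c _ hc
      refine lt_of_lt_of_le hc ?_
      have hl : 0 ≤ Real.log ((m : ℝ) + 1) := by
        apply Real.log_nonneg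
        have : (0 : ℝ) ≤ m := Nat.cast_nonneg m
        linarith
      set l := 1 + Real.log ((m : ℝ) + 1) with hldef
      have hl1 : 1 ≤ l := by linarith
      have hlog2m : Real.log (2 * ((m + 1 : ℕ) : ℝ)) ≤ l := by
        have : (0 : ℝ) < (m : ℝ) + 1 := by positivity
        rw [Nat.cast_add_one, Real.log_mul (by norm_num) this.ne']
        have h2 : Real.log 2 ≤ 1 := by
          have := Real.log_two_lt_d9
          linarith
        linarith
      have hKl : K + 1 ≤ (6 * (e0 / t0) + 1) * l := by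
        rw [hK]
        have := mul_le_mul_of_nonneg_left hlog2m (show 0 ≤ 6 * (e0 / t0) by positivity)
        linarith
      have h8 : Real.exp (-(8 / δ * l)) ≤ δ / 4 / 2 := by
        have e1 : Real.exp (-(8 / δ * l)) ≤ Real.exp (-(8 / δ)) := by
          apply Real.exp_le_exp.2
          have : 0 < 8 / δ := by positivity
          nlinarith
        have e2 : 8 / δ ≤ Real.exp (8 / δ) := by
          have := Real.add_one_le_exp (8 / δ)
          linarith
        have e3 : Real.exp (-(8 / δ)) ≤ δ / 8 := by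
          rw [Real.exp_neg, inv_le_comm₀ (Real.exp_pos _) (by positivity), inv_div]
          exact e2
        linarith
      have h9 : Real.exp (-(4 * (6 * (e0 / t0) + 1) / δ * l)) ≤
          Real.exp (-(4 * (K + 1) / δ)) := by
        apply Real.exp_le_exp.2
        rw [neg_le_neg_iff]
        calc 4 * (K + 1) / δ = 4 / δ * (K + 1) := by ring
          _ ≤ 4 / δ * ((6 * (e0 / t0) + 1) * l) :=
              mul_le_mul_of_nonneg_left hKl (by positivity)
          _ = _ := by ring
      calc Real.exp (-(C * l)) = Real.exp (-(4 * (6 * (e0 / t0) + 1) / δ * l)) *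
            Real.exp (-(8 / δ * l)) := by
            rw [← Real.exp_add, hC]
            congr 1
            ring
        _ ≤ _ := mul_le_mul h9 h8 (Real.exp_pos _).le (Real.exp_pos _).le
    refine hmono.trans (hfin.trans ?_)
    have e1 : (K + 1) / (4 * (K + 1) / δ) = δ / 4 := by
      have : K + 1 ≠ 0 := by linarith
      field_simp
    have e2 : 8 / M ≤ δ / 16 := by
      rw [div_le_iff₀ hM0, hMdef]
      have : δ / 16 * (128 / δ + 1) = 8 + δ / 16 := by
        field_simp
        ring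
      rw [this]
      linarith
    rw [e1]
    linarith

end Pool.Agent.XO
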