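import Mathlib
import Pool.Agent.Lib_helper94.XO.Defs
import Pool.Agent.Lib_helper94.XO.Defs2
import Pool.Agent.Lib_helper94.XO.Pr
import Pool.Agent.Lib_helper94.XO.P1.TOb
import Pool.Agent.Lib_helper94.XO.F.P2_A1
import Pool.Agent.Lib_helper94.XO.F.P2_A2a
import Pool.Agent.Lib_helper94.XO.F.P2_A2b

set_option autoImplicit false

/-! PART I, I.10: tightness for tuples, from `tight_one_pr`. -/

namespace Pool.Agent.XO

open Finset Filter

section I10

variable {V : Type} [AddCommGroup V] [Fintype V] [DecidableEq V]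

/-- dropping the first coordinate -/
theorem i10_tail {p : V → ℝ} (hp : IsLaw p) (n : ℕ) (A : (Fin n → V) → Prop) :
    pr (fun c : Fin (n + 1) → V => pw p c) (fun c => A (Fin.tail c)) =
      pr (fun c : Fin n → V => pw p c) A := by
  classical
  unfold pr
  rw [← (Fin.consEquiv (fun _ : Fin (n + 1) => V)).sum_comp, Fintype.sum_prod_type]
  have h1 : ∀ x : V, ∀ c : Fin n → V,
      (if A (Fin.tail ((Fin.consEquiv (fun _ : Fin (n + 1) => V)) (x, c))) then
        pw p ((Fin.consEquiv (fun _ : Fin (n + 1) => V)) (x, c)) else 0) =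
      p x * (if A c then pw p c else 0) := by
    intro x c
    have h2 : Fin.tail ((Fin.consEquiv (fun _ : Fin (n + 1) => V)) (x, c)) = c := by
      simp [Fin.consEquiv, Fin.tail_cons]
    have h3 : pw p ((Fin.consEquiv (fun _ : Fin (n + 1) => V)) (x, c)) = p x * pw p c := by
      simp [pw, Fin.consEquiv, Fin.prod_univ_succ]
    rw [h2, h3]
    split_ifs <;> simp
  simp only [h1]
  rw [← Finset.sum_mul_sum, hp.sum_one, one_mul]

/-- the threshold for one element among `k` -/
noncomputable def i10t (C : ℝ) (k : ℕ) : ℝ := Real.exp (-(C * (1 + Real.log k)))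

theorem i10t_pos (C : ℝ) (k : ℕ) : 0 < i10t C k := Real.exp_pos _

/-- chain rule and union bound -/
theorem i10_chain {p : V → ℝ} (hp : IsLaw p) (C η : ℝ) :
    ∀ (m n : ℕ) (hmn : m ≤ n),
      (∀ k, k + 1 ≤ n → n < k + 1 + m →
        pr (fun c : Fin (k + 1) → V => pw p c)
          (fun c => mu p (k + 1) (∑ i, c i) (c 0) < i10t C (k + 1)) ≤ η) →
      pr (fun c : Fin n → V => pw p c) (fun c => mum p n (∑ i, c i)
        (fun i : Fin m => c (Fin.castLE hmn i)) < ∏ i ∈ Finset.range m, i10t C (n - i))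
        ≤ m * η := by
  intro m
  induction m with
  | zero =>
    intro n hmn _
    have h0 : pr (fun c : Fin n → V => pw p c) (fun c => mum p n (∑ i, c i)
        (fun i : Fin 0 => c (Fin.castLE hmn i)) < ∏ i ∈ Finset.range 0, i10t C (n - i)) ≤
        pr (fun c : Fin n → V => pw p c) (fun _ => False) := by
      refine pr_mono (fun c => pw_nonneg hp c) (fun c hc hlt => ?_)
      have h1 : 0 < cp p n (∑ i, c i) := lt_of_lt_of_le hc (pw_le_cp hp c)
      have h2 : mum p n (∑ i, c i) (fun i : Fin 0 => c (Fin.castLE hmn i)) = 1 := by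
        unfold mum
        simp only [pw, Finset.univ_eq_empty, Finset.prod_empty, Finset.sum_empty, sub_zero,
          Nat.sub_zero, one_mul]
        exact div_self h1.ne'
      rw [h2, Finset.prod_range_zero] at hlt
      exact lt_irrefl _ hlt
    refine h0.trans ?_
    simp [pr]
  | succ m ih =>
    intro n hmn hk
    obtain ⟨n', rfl⟩ : ∃ n', n = n' + 1 := ⟨n - 1, by omega⟩
    have hmn' : m ≤ n' := by omega
    have hih := ih n' hmn' (fun k h1 h2 => hk k (by omega) (by omega))
    have hfirst := hk n' le_rfl (by omega)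
    have hsub : pr (fun c : Fin (n' + 1) → V => pw p c) (fun c => mum p (n' + 1) (∑ i, c i)
        (fun i : Fin (m + 1) => c (Fin.castLE hmn i)) <
          ∏ i ∈ Finset.range (m + 1), i10t C (n' + 1 - i)) ≤
        pr (fun c : Fin (n' + 1) → V => pw p c) (fun c =>
          mu p (n' + 1) (∑ i, c i) (c 0) < i10t C (n' + 1) ∨
          mum p n' (∑ i, (Fin.tail c) i) (fun i : Fin m => (Fin.tail c) (Fin.castLE hmn' i)) <
            ∏ i ∈ Finset.range m, i10t C (n' - i)) := by
      refine pr_mono (fun c => pw_nonneg hp c) (fun c _ hlt => ?_)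
      by_contra hcon
      push Not at hcon
      obtain ⟨h1, h2⟩ := hcon
      have h3 : mum p (n' + 1) (∑ i, c i) (fun i : Fin (m + 1) => c (Fin.castLE hmn i)) =
          mu p (n' + 1) (∑ i, c i) (c 0) *
            mum p n' (∑ i, (Fin.tail c) i)
              (fun i : Fin m => (Fin.tail c) (Fin.castLE hmn' i)) := by
        rw [mum_succ hp hmn]
        have e1 : (∑ i, c i) - c (Fin.castLE hmn 0) = ∑ i, (Fin.tail c) i := by
          rw [Fin.sum_univ_succ]
          have : Fin.castLE hmn (0 : Fin (m + 1)) = 0 := rfl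
          rw [this, add_sub_cancel_left]
          rfl
        have e2 : (Fin.tail fun i : Fin (m + 1) => c (Fin.castLE hmn i)) =
            fun i : Fin m => (Fin.tail c) (Fin.castLE hmn' i) := by
          funext i
          rfl
        rw [e1, e2]
        rfl
      rw [h3, Finset.prod_range_succ'] at hlt
      have h4 : (∏ k ∈ Finset.range m, i10t C (n' + 1 - (k + 1))) =
          ∏ k ∈ Finset.range m, i10t C (n' - k) :=
        Finset.prod_congr rfl (fun k _ => by rw [Nat.add_sub_add_right])
      rw [h4, Nat.sub_zero, mul_comm] at hlt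
      have h5 : i10t C (n' + 1) * ∏ k ∈ Finset.range m, i10t C (n' - k) ≤
          mu p (n' + 1) (∑ i, c i) (c 0) *
            mum p n' (∑ i, (Fin.tail c) i)
              (fun i : Fin m => (Fin.tail c) (Fin.castLE hmn' i)) :=
        mul_le_mul h1 h2 (Finset.prod_nonneg fun k _ => (i10t_pos C _).le)
          ((i10t_pos C _).le.trans h1)
      exact absurd hlt (not_lt.2 (by linarith))
    refine hsub.trans ((pr_or_le (fun c => pw_nonneg hp c) _ _).trans ?_)
    rw [i10_tail hp n' (fun c' => mum p n' (∑ i, c' i)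
      (fun i : Fin m => c' (Fin.castLE hmn' i)) < ∏ i ∈ Finset.range m, i10t C (n' - i))]
    push_cast
    linarith

theorem i10_prod_le {C : ℝ} (hC : 0 < C) {m n : ℕ} (hn : 1 ≤ n) :
    Real.exp (-(m * C * (1 + Real.log n))) ≤ ∏ i ∈ Finset.range m, i10t C (n - i) := by
  have h1 : ∀ i ∈ Finset.range m, Real.exp (-(C * (1 + Real.log n))) ≤ i10t C (n - i) := by
    intro i _
    unfold i10t
    refine Real.exp_le_exp.2 (neg_le_neg (mul_le_mul_of_nonneg_left ?_ hC.le))
    have h2 : Real.log ((n - i : ℕ) : ℝ) ≤ Real.log n := by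
      rcases Nat.eq_zero_or_pos (n - i) with h0 | h0
      · rw [h0, Nat.cast_zero, Real.log_zero]
        exact Real.log_nonneg (by exact_mod_cast hn)
      · exact Real.log_le_log (by exact_mod_cast h0) (by exact_mod_cast Nat.sub_le n i)
    linarith
  calc Real.exp (-(m * C * (1 + Real.log n)))
      = ∏ _i ∈ Finset.range m, Real.exp (-(C * (1 + Real.log n))) := by
        rw [Finset.prod_const, Finset.card_range, ← Real.exp_nat_mul]
        congr 1
        ring
    _ ≤ ∏ i ∈ Finset.range m, i10t C (n - i) :=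
        Finset.prod_le_prod (fun i _ => (Real.exp_pos _).le) h1

end I10

/-- PART I, tightness for tuples inside `n` elements -/
theorem tight_in (κ κ' δ : ℝ) (hκ : 0 < κ) (hκ' : 0 < κ') (hδ : 0 < δ) (m : ℕ) :
    ∃ C : ℝ, 0 < C ∧ ∀ n : ℕ, 1 ≤ n → ∀ hmn : m ≤ n, ∀ᶠ s : ℝ in atTop,
      ∀ (V : Type) [AddCommGroup V] [Module (ZMod 2) V] [Fintype V] [DecidableEq V] (p : V → ℝ),
      PWorld p s κ κ' →
      pr (fun c : Fin n → V => pw p c) (fun c => mum p n (∑ i, c i)
        (fun i : Fin m => c (Fin.castLE hmn i)) < Real.exp (-(C * (1 + Real.log n)))) ≤ δ := by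
  have hη : 0 < δ / (m + 1) := by positivity
  obtain ⟨C, hC, htight⟩ := tight_one_pr κ κ' (δ / (m + 1)) hκ hκ' hη
  refine ⟨(m + 1) * C, by positivity, fun n hn hmn => ?_⟩
  have hall : ∀ᶠ s : ℝ in atTop, ∀ k ∈ Finset.range n, ∀ (V : Type) [AddCommGroup V]
      [Module (ZMod 2) V] [Fintype V] [DecidableEq V] (p : V → ℝ), PWorld p s κ κ' →
      pr (fun c : Fin (k + 1) → V => pw p c) (fun c => mu p (k + 1) (∑ i, c i) (c 0) <
        Real.exp (-(C * (1 + Real.log (k + 1))))) ≤ δ / (m + 1) := by
    rw [Filter.eventually_all_finset]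
    exact fun k _ => htight k
  filter_upwards [hall] with s hs V _ _ _ _ p hp
  have hchain := i10_chain hp.law C (δ / (m + 1)) m n hmn (fun k hk _ => by
    have := hs k (Finset.mem_range.2 (by omega)) V p hp
    unfold i10t
    push_cast
    exact this)
  have hlog : 0 ≤ 1 + Real.log n := by
    have : 0 ≤ Real.log n := Real.log_nonneg (by exact_mod_cast hn)
    linarith
  have h1 : Real.exp (-((m + 1) * C * (1 + Real.log n))) ≤
      ∏ i ∈ Finset.range m, i10t C (n - i) := by
    refine le_trans ?_ (i10_prod_le hC hn)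
    refine Real.exp_le_exp.2 (neg_le_neg ?_)
    have : (m : ℝ) * C ≤ (m + 1) * C := by nlinarith
    exact mul_le_mul_of_nonneg_right this hlog
  refine (pr_mono (fun c => pw_nonneg hp.law c) (fun c _ h => lt_of_lt_of_le h h1)).trans ?_
  refine hchain.trans ?_
  rw [mul_div_assoc', div_le_iff₀ (by positivity)]
  nlinarith

/-- PART I, tightness for tuples given their own sum -/
theorem tight_own (κ κ' δ : ℝ) (hκ : 0 < κ) (hκ' : 0 < κ') (hδ : 0 < δ) (m : ℕ) :
    ∃ v : ℝ, 0 < v ∧ ∀ᶠ s : ℝ in atTop, ∀ (V : Type) [AddCommGroup V] [Module (ZMod 2) V]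
      [Fintype V] [DecidableEq V] (p : V → ℝ), PWorld p s κ κ' →
      pr (fun c : Fin m → V => pw p c) (fun c => pw p c < v * cp p m (∑ i, c i)) ≤ δ := by
  rcases Nat.eq_zero_or_pos m with rfl | hm
  · refine ⟨1, one_pos, Filter.Eventually.of_forall fun s V _ _ _ _ p hp => ?_⟩
    have h0 : pr (fun c : Fin 0 → V => pw p c) (fun c => pw p c < 1 * cp p 0 (∑ i, c i)) ≤
        pr (fun c : Fin 0 → V => pw p c) (fun _ => False) := by
      refine pr_mono (fun c => pw_nonneg hp.law c) (fun c _ h => ?_)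
      rw [cp_zero] at h
      simp [pw] at h
    refine h0.trans ?_
    simp [pr, hδ.le]
  · obtain ⟨C, hC, htight⟩ := tight_in κ κ' δ hκ hκ' hδ m
    refine ⟨Real.exp (-(C * (1 + Real.log m))), Real.exp_pos _, ?_⟩
    filter_upwards [htight m hm le_rfl] with s hs V _ _ _ _ p hp
    refine (pr_mono (fun c => pw_nonneg hp.law c) (fun c hc h => ?_)).trans (hs V p hp)
    have h1 : 0 < cp p m (∑ i, c i) := lt_of_lt_of_le hc (pw_le_cp hp.law c)
    have h2 : mum p m (∑ i, c i) (fun i : Fin m => c (Fin.castLE le_rfl i)) =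
        pw p c / cp p m (∑ i, c i) := by
      unfold mum
      have e1 : (fun i : Fin m => c (Fin.castLE le_rfl i)) = c := by
        funext i
        rfl
      rw [e1, sub_self, Nat.sub_self, cp_zero, if_pos rfl, mul_one]
    rw [h2, div_lt_iff₀ h1]
    exact h

end Pool.Agent.XO
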