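import Pool.Agent.Lib_helper94.XO.P1.Ent
import Pool.Agent.Lib_helper94.XO.P1.KL

/-!
# Product laws, convolution powers `cp`, the sequence `A(k)`
-/

set_option autoImplicit false

namespace Pool.Agent.XO

open Finset

section Prl

variable {α β γ δ : Type} [Fintype α] [Fintype β] [Fintype γ] [Fintype δ]

/-- product of two laws -/
def prl (q₁ : α → ℝ) (q₂ : β → ℝ) (x : α × β) : ℝ := q₁ x.1 * q₂ x.2

theorem IsLaw.prl {q₁ : α → ℝ} {q₂ : β → ℝ} (h₁ : IsLaw q₁) (h₂ : IsLaw q₂) :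
    IsLaw (prl q₁ q₂) := by
  refine ⟨fun x => mul_nonneg (h₁.nonneg _) (h₂.nonneg _), ?_⟩
  unfold Pool.Agent.XO.prl
  rw [Fintype.sum_prod_type, ← Finset.sum_mul_sum, h₁.sum_one, h₂.sum_one, one_mul]

omit [Fintype γ] [Fintype δ] in
/-- functions of independent variables are independent -/
theorem lw_prl (q₁ : α → ℝ) (q₂ : β → ℝ) (X : α → γ) (Y : β → δ) (a : γ) (b : δ) :
    lw (prl q₁ q₂) (fun x => (X x.1, Y x.2)) (a, b) = lw q₁ X a * lw q₂ Y b := by
  classical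
  unfold lw prl
  rw [Fintype.sum_prod_type, Finset.sum_mul_sum]
  apply Finset.sum_congr rfl; intro x _
  apply Finset.sum_congr rfl; intro y _
  simp only [Prod.mk.injEq]
  by_cases h1 : X x = a <;> by_cases h2 : Y y = b <;> simp [h1, h2]

omit [Fintype γ] in
theorem lw_prl_fst (q₁ : α → ℝ) {q₂ : β → ℝ} (h₂ : IsLaw q₂) (X : α → γ) :
    lw (prl q₁ q₂) (fun x => X x.1) = lw q₁ X := by
  classical
  ext a
  unfold lw prl
  rw [Fintype.sum_prod_type]
  apply Finset.sum_congr rfl; intro x _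
  by_cases h1 : X x = a
  · simp only [if_pos h1, ← Finset.mul_sum, h₂.sum_one, mul_one]
  · simp only [if_neg h1, Finset.sum_const_zero]

omit [Fintype γ] in
theorem lw_prl_snd {q₁ : α → ℝ} (q₂ : β → ℝ) (h₁ : IsLaw q₁) (Y : β → γ) :
    lw (prl q₁ q₂) (fun x => Y x.2) = lw q₂ Y := by
  classical
  ext a
  unfold lw prl
  rw [Fintype.sum_prod_type_right]
  apply Finset.sum_congr rfl; intro x _
  by_cases h1 : Y x = a
  · simp only [if_pos h1, ← Finset.sum_mul, h₁.sum_one, one_mul]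
  · simp only [if_neg h1, Finset.sum_const_zero]

theorem HH_prl {q₁ : α → ℝ} {q₂ : β → ℝ} (h₁ : IsLaw q₁) (h₂ : IsLaw q₂) (X : α → γ)
    (Y : β → δ) : HH (prl q₁ q₂) (fun x => (X x.1, Y x.2)) = HH q₁ X + HH q₂ Y := by
  have h := HH_indep (h₁.prl h₂) (fun x => X x.1) (fun x => Y x.2) (fun a b => by
    rw [lw_prl, lw_prl_fst q₁ h₂, lw_prl_snd q₂ h₁])
  rw [h]
  unfold HH
  rw [lw_prl_fst q₁ h₂, lw_prl_snd q₂ h₁]

theorem HH_prl_fst {q₁ : α → ℝ} {q₂ : β → ℝ} (h₂ : IsLaw q₂) (X : α → γ) :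
    HH (prl q₁ q₂) (fun x => X x.1) = HH q₁ X := by
  unfold HH
  rw [lw_prl_fst q₁ h₂]

theorem HH_prl_snd {q₁ : α → ℝ} {q₂ : β → ℝ} (h₁ : IsLaw q₁) (Y : β → γ) :
    HH (prl q₁ q₂) (fun x => Y x.2) = HH q₂ Y := by
  unfold HH
  rw [lw_prl_snd q₂ h₁]

theorem lw_id (q : α → ℝ) : lw q (fun x => x) = q := by
  classical
  ext a
  unfold lw
  rw [Finset.sum_ite_eq', if_pos (Finset.mem_univ _)]

theorem HH_id (q : α → ℝ) : HH q (fun x => x) = ent q := by
  unfold HH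
  rw [lw_id]

end Prl

section Conv

variable {V : Type} [AddCommGroup V] [Fintype V] [DecidableEq V]

/-- convolution -/
def conv (q₁ q₂ : V → ℝ) (Z : V) : ℝ := ∑ u, q₁ u * q₂ (Z - u)

omit [DecidableEq V] in
theorem lw_prl_add (q₁ q₂ : V → ℝ) : lw (prl q₁ q₂) (fun x => x.1 + x.2) = conv q₁ q₂ := by
  classical
  ext Z
  unfold lw prl conv
  rw [Fintype.sum_prod_type]
  apply Finset.sum_congr rfl; intro u _
  rw [Finset.sum_eq_single (Z - u)]
  · rw [if_pos (by simp)]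
  · intro b _ hb
    rw [if_neg]
    intro h
    exact hb (eq_sub_of_add_eq' h)
  · intro h; exact absurd (Finset.mem_univ _) h

omit [DecidableEq V] in
/-- the law of a sum of functions of independent variables -/
theorem lw_prl_add' {α β : Type} [Fintype α] [Fintype β] (q₁ : α → ℝ) (q₂ : β → ℝ) (X : α → V)
    (Y : β → V) : lw (prl q₁ q₂) (fun x => X x.1 + Y x.2) = conv (lw q₁ X) (lw q₂ Y) := by
  classical
  rw [← lw_prl_add]
  ext Z
  have h := lw_lw (prl q₁ q₂) (fun x => (X x.1, Y x.2)) (fun y : V × V => y.1 + y.2) Z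
  simp only at h
  rw [← h]
  congr 1
  ext ⟨a, b⟩
  rw [lw_prl]
  rfl

omit [DecidableEq V] in
theorem IsLaw.conv {q₁ q₂ : V → ℝ} (h₁ : IsLaw q₁) (h₂ : IsLaw q₂) : IsLaw (conv q₁ q₂) := by
  rw [← lw_prl_add]
  exact (h₁.prl h₂).lw _

omit [DecidableEq V] in
theorem conv_comm (q₁ q₂ : V → ℝ) : conv q₁ q₂ = conv q₂ q₁ := by
  ext Z
  unfold conv
  refine Fintype.sum_equiv (Equiv.subLeft Z) _ _ ?_
  intro u
  simp only [Equiv.subLeft_apply, sub_sub_cancel]
  ring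

omit [AddCommGroup V] [Fintype V] [DecidableEq V] in
theorem q_pw_cons (p : V → ℝ) {k : ℕ} (a : V) (c : Fin k → V) :
    pw p (Fin.cons a c : Fin (k + 1) → V) = p a * pw p c := by
  unfold pw
  rw [Fin.prod_univ_succ]
  simp only [Fin.cons_zero, Fin.cons_succ]

omit [AddCommGroup V] [Fintype V] [DecidableEq V] in
theorem q_pw_succ (p : V → ℝ) {k : ℕ} (c : Fin (k + 1) → V) :
    pw p c = p (c 0) * pw p (fun i : Fin k => c i.succ) := by
  unfold pw
  rw [Fin.prod_univ_succ]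

omit [AddCommGroup V] [DecidableEq V] in
theorem IsLaw.pw {p : V → ℝ} (hp : IsLaw p) {k : ℕ} : IsLaw (fun c : Fin k → V => pw p c) :=
  ⟨fun c => kl_pw_nonneg p hp.nonneg c, kl_sum_pw p hp.sum_one⟩

theorem q_cp_eq_lw (p : V → ℝ) (k : ℕ) :
    cp p k = lw (fun c : Fin k → V => pw p c) (fun c => ∑ i, c i) := by
  classical
  ext Z
  unfold cp lw
  apply Finset.sum_congr rfl
  intro c _
  congr

theorem IsLaw.cp {p : V → ℝ} (hp : IsLaw p) (k : ℕ) : IsLaw (cp p k) := by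
  rw [q_cp_eq_lw]
  exact hp.pw.lw _

theorem q_cp_nonneg {p : V → ℝ} (hp : ∀ c, 0 ≤ p c) (k : ℕ) (Z : V) : 0 ≤ cp p k Z := by
  unfold cp
  exact Finset.sum_nonneg fun c _ => by
    split_ifs
    · exact kl_pw_nonneg p hp c
    · exact le_rfl

theorem q_cp_zero (p : V → ℝ) (Z : V) : cp p 0 Z = if Z = 0 then 1 else 0 := by
  unfold cp
  rw [Fintype.sum_unique]
  simp only [Finset.univ_eq_empty, Finset.sum_empty, pw, Finset.prod_empty]
  by_cases h : Z = 0
  · rw [if_pos h, if_pos h.symm]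
  · rw [if_neg h, if_neg (fun h' => h h'.symm)]

theorem q_cp_succ (p : V → ℝ) (k : ℕ) (Z : V) : cp p (k + 1) Z = ∑ c, p c * cp p k (Z - c) := by
  unfold cp
  rw [← (Fin.consEquiv (fun _ : Fin (k + 1) => V)).sum_comp, Fintype.sum_prod_type]
  apply Finset.sum_congr rfl
  intro a _
  rw [Finset.mul_sum]
  apply Finset.sum_congr rfl
  intro c _
  have h1 : (Fin.consEquiv (fun _ : Fin (k + 1) => V)) (a, c) = (Fin.cons a c : Fin (k + 1) → V) :=
    rfl
  rw [h1, q_pw_cons, Fin.sum_univ_succ]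
  simp only [Fin.cons_zero, Fin.cons_succ]
  by_cases h : ∑ i, c i = Z - a
  · rw [if_pos h, if_pos (by rw [h]; abel)]
  · rw [if_neg h, if_neg (fun h' => h (by rw [← h']; abel)), mul_zero]

theorem q_cp_succ' (p : V → ℝ) (k : ℕ) : cp p (k + 1) = conv p (cp p k) := by
  ext Z
  exact q_cp_succ p k Z

theorem q_cp_one (p : V → ℝ) : cp p 1 = p := by
  ext Z
  rw [q_cp_succ, Finset.sum_eq_single Z]
  · rw [q_cp_zero, if_pos (sub_self Z), mul_one]
  · intro b _ hb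
    rw [q_cp_zero, if_neg (fun h => hb (sub_eq_zero.1 h).symm), mul_zero]
  · intro h; exact absurd (Finset.mem_univ _) h

omit [DecidableEq V] in
theorem conv_assoc (q₁ q₂ q₃ : V → ℝ) : conv (conv q₁ q₂) q₃ = conv q₁ (conv q₂ q₃) := by
  ext Z
  unfold conv
  simp only [Finset.sum_mul, Finset.mul_sum]
  rw [Finset.sum_comm]
  apply Finset.sum_congr rfl
  intro v _
  refine Fintype.sum_equiv (Equiv.subRight v) _ _ ?_
  intro u
  simp only [Equiv.subRight_apply]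
  rw [mul_assoc]
  congr 3
  abel

theorem conv_cp_zero (p q : V → ℝ) : conv q (cp p 0) = q := by
  ext Z
  unfold conv
  rw [Finset.sum_eq_single Z]
  · rw [q_cp_zero, if_pos (sub_self Z), mul_one]
  · intro b _ hb
    rw [q_cp_zero, if_neg (fun h => hb (sub_eq_zero.1 h).symm), mul_zero]
  · intro h; exact absurd (Finset.mem_univ _) h

theorem q_cp_add (p : V → ℝ) (a b : ℕ) : cp p (a + b) = conv (cp p a) (cp p b) := by
  induction a with
  | zero => rw [zero_add, conv_comm, conv_cp_zero]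
  | succ a ih =>
    rw [show a + 1 + b = (a + b) + 1 by ring, q_cp_succ', ih, q_cp_succ', conv_assoc]

/-- `H(X + Y + Z) + H(Y) ≤ H(X + Y) + H(Y + Z)` -/
theorem ent_conv_submod {q₁ q₂ q₃ : V → ℝ} (h₁ : IsLaw q₁) (h₂ : IsLaw q₂) (h₃ : IsLaw q₃) :
    ent (conv q₁ (conv q₂ q₃)) + ent q₂ ≤ ent (conv q₁ q₂) + ent (conv q₂ q₃) := by
  have hP := h₁.prl (h₂.prl h₃)
  have h := HH_submod hP (fun x : V × V × V => x.1) (fun x : V × V × V => x.1 + x.2.1)
    (fun x : V × V × V => x.1 + (x.2.1 + x.2.2))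
  have e1 : HH (prl q₁ (prl q₂ q₃))
      (fun x : V × V × V => (x.1, x.1 + x.2.1, x.1 + (x.2.1 + x.2.2))) =
      ent q₁ + (ent q₂ + ent q₃) := by
    rw [← HH_id q₁, ← HH_id q₂, ← HH_id q₃, ← HH_prl h₂ h₃ (fun x => x) (fun x => x),
      ← HH_prl h₁ (h₂.prl h₃) (fun x => x) (fun x => (x.1, x.2))]
    exact HH_congr hP _ _ (fun y => (y.1, y.2.1 - y.1, y.2.2 - y.2.1))
      (fun y => (y.1, y.1 + y.2.1, y.1 + (y.2.1 + y.2.2)))
      (fun x => by simp only [Prod.mk.injEq, true_and]; constructor <;> abel)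
      (fun _ => rfl)
  have e2 : HH (prl q₁ (prl q₂ q₃)) (fun x : V × V × V => x.1 + (x.2.1 + x.2.2)) =
      ent (conv q₁ (conv q₂ q₃)) := by
    unfold HH
    rw [lw_prl_add' q₁ (prl q₂ q₃) (fun x => x) (fun x => x.1 + x.2), lw_id, lw_prl_add]
  have e3 : HH (prl q₁ (prl q₂ q₃)) (fun x : V × V × V => (x.1, x.1 + (x.2.1 + x.2.2))) =
      ent q₁ + ent (conv q₂ q₃) := by
    have : HH (prl q₂ q₃) (fun x => x.1 + x.2) = ent (conv q₂ q₃) := by
      unfold HH; rw [lw_prl_add]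
    rw [← HH_id q₁, ← this, ← HH_prl h₁ (h₂.prl h₃) (fun x => x) (fun x => x.1 + x.2)]
    exact HH_congr hP _ _ (fun y => (y.1, y.2 - y.1)) (fun y => (y.1, y.1 + y.2))
      (fun x => by simp only [Prod.mk.injEq, true_and]; abel) (fun _ => rfl)
  have e4 : HH (prl q₁ (prl q₂ q₃)) (fun x : V × V × V => (x.1 + x.2.1, x.1 + (x.2.1 + x.2.2))) =
      ent (conv q₁ q₂) + ent q₃ := by
    have h3 : HH (prl (prl q₁ q₂) q₃) (fun x => ((x.1.1 + x.1.2), x.2)) =
        ent (conv q₁ q₂) + ent q₃ := by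
      rw [HH_prl (h₁.prl h₂) h₃ (fun x => x.1 + x.2) (fun x => x), HH_id]
      congr 1
      unfold HH; rw [lw_prl_add]
    have h4 : HH (prl q₁ (prl q₂ q₃)) (fun x : V × V × V => (x.1 + x.2.1, x.2.2)) =
        HH (prl (prl q₁ q₂) q₃) (fun x => ((x.1.1 + x.1.2), x.2)) := by
      unfold HH
      congr 1
      ext a
      unfold lw
      refine Fintype.sum_equiv (Equiv.prodAssoc V V V).symm _ _ ?_
      rintro ⟨x, y, z⟩
      simp only [Equiv.prodAssoc_symm_apply, prl, mul_assoc]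
      try congr
    rw [← h3, ← h4]
    exact HH_congr hP _ _ (fun y => (y.1, y.2 - y.1)) (fun y => (y.1, y.1 + y.2))
      (fun x => by simp only [Prod.mk.injEq, true_and]; abel)
      (fun x => by simp only [Prod.mk.injEq, true_and]; abel)
  rw [e1, e2, e3, e4] at h
  linarith

omit [DecidableEq V] in
/-- `H(Y) ≤ H(X + Y)` -/
theorem ent_le_conv {q₁ q₂ : V → ℝ} (h₁ : IsLaw q₁) (h₂ : IsLaw q₂) :
    ent q₂ ≤ ent (conv q₁ q₂) := by
  have hP := h₁.prl h₂
  have h := HH_subadd hP (fun x : V × V => x.1) (fun x : V × V => x.1 + x.2)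
  have e1 : HH (prl q₁ q₂) (fun x : V × V => (x.1, x.1 + x.2)) = ent q₁ + ent q₂ := by
    rw [← HH_id q₁, ← HH_id q₂, ← HH_prl h₁ h₂ (fun x => x) (fun x => x)]
    exact HH_congr hP _ _ (fun y => (y.1, y.2 - y.1)) (fun y => (y.1, y.1 + y.2))
      (fun x => by simp only [Prod.mk.injEq, true_and]; abel) (fun _ => rfl)
  have e2 : HH (prl q₁ q₂) (fun x : V × V => x.1) = ent q₁ := by
    rw [HH_prl_fst h₂ (fun x => x), HH_id]
  have e3 : HH (prl q₁ q₂) (fun x : V × V => x.1 + x.2) = ent (conv q₁ q₂) := by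
    unfold HH; rw [lw_prl_add]
  rw [e1, e2, e3] at h
  linarith

omit [DecidableEq V] in
/-- `H(X + Y) ≤ H(X) + H(Y)` -/
theorem ent_conv_le {q₁ q₂ : V → ℝ} (h₁ : IsLaw q₁) (h₂ : IsLaw q₂) :
    ent (conv q₁ q₂) ≤ ent q₁ + ent q₂ := by
  have hP := h₁.prl h₂
  have h := HH_comp_le hP (fun x : V × V => (x.1, x.2)) (fun y => y.1 + y.2)
  have e1 : HH (prl q₁ q₂) (fun x : V × V => (x.1, x.2)) = ent q₁ + ent q₂ := by
    rw [HH_prl h₁ h₂ (fun x => x) (fun x => x), HH_id, HH_id]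
  have e3 : HH (prl q₁ q₂) (fun x : V × V => x.1 + x.2) = ent (conv q₁ q₂) := by
    unfold HH; rw [lw_prl_add]
  rw [e1] at h
  rw [← e3]
  exact h

theorem ent_cp_zero (p : V → ℝ) : ent (cp p 0) = 0 := by
  unfold ent
  apply Finset.sum_eq_zero
  intro a _
  rw [q_cp_zero]
  split_ifs
  · exact Real.negMulLog_one
  · exact Real.negMulLog_zero

/-- `h_k = H(Z_k)` is nondecreasing -/
theorem ent_cp_mono {p : V → ℝ} (hp : IsLaw p) (k : ℕ) : ent (cp p k) ≤ ent (cp p (k + 1)) := by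
  rw [q_cp_succ']
  exact ent_le_conv hp (hp.cp k)

/-- `h_k` is concave -/
theorem ent_cp_concave {p : V → ℝ} (hp : IsLaw p) (k : ℕ) :
    ent (cp p (k + 2)) + ent (cp p k) ≤ 2 * ent (cp p (k + 1)) := by
  have h := ent_conv_submod hp (hp.cp k) hp
  have e1 : conv (cp p k) p = cp p (k + 1) := by rw [q_cp_succ', conv_comm]
  rw [e1, ← q_cp_succ', ← q_cp_succ'] at h
  linarith

theorem AA_one {p : V → ℝ} : AA p 1 = 0 := by
  unfold AA
  rw [show 1 - 1 = 0 from rfl, ent_cp_zero, q_cp_one]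
  ring

theorem AA_succ (p : V → ℝ) (k : ℕ) : AA p (k + 1) = ent p + ent (cp p k) - ent (cp p (k + 1)) := by
  unfold AA
  rw [Nat.add_sub_cancel]

theorem AA_mono_succ {p : V → ℝ} (hp : IsLaw p) (k : ℕ) : AA p (k + 1) ≤ AA p (k + 2) := by
  rw [AA_succ, AA_succ]
  have := ent_cp_concave hp k
  linarith

theorem AA_mono {p : V → ℝ} (hp : IsLaw p) {j k : ℕ} (hj : 1 ≤ j) (hjk : j ≤ k) :
    AA p j ≤ AA p k := by
  obtain ⟨d, rfl⟩ := Nat.exists_eq_add_of_le hjk
  clear hjk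
  induction d with
  | zero => exact le_rfl
  | succ d ih =>
    obtain ⟨i, rfl⟩ : ∃ i, j = i + 1 := ⟨j - 1, by omega⟩
    have h := AA_mono_succ hp (i + d)
    have e1 : i + 1 + d = i + d + 1 := by ring
    have e2 : i + 1 + (d + 1) = i + d + 2 := by ring
    rw [e1] at ih
    rw [e2]
    exact ih.trans h

theorem AA_nonneg {p : V → ℝ} (hp : IsLaw p) {k : ℕ} (hk : 1 ≤ k) : 0 ≤ AA p k := by
  rw [← AA_one (p := p)]
  exact AA_mono hp le_rfl hk

theorem AA_le_ent {p : V → ℝ} (hp : IsLaw p) {k : ℕ} (hk : 1 ≤ k) : AA p k ≤ ent p := by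
  obtain ⟨i, rfl⟩ : ∃ i, k = i + 1 := ⟨k - 1, by omega⟩
  rw [AA_succ]
  have := ent_cp_mono hp i
  linarith

omit [AddCommGroup V] [DecidableEq V] in
/-- the entropy of a law with small support -/
theorem ent_le_log {p : V → ℝ} (hp : IsLaw p) {s : ℝ}
    (hs : ((univ.filter fun c => p c ≠ 0).card : ℝ) ≤ s) : ent p ≤ Real.log s := by
  classical
  have h1 : HH p (fun x => x) ≤ Real.log (univ.filter fun c => p c ≠ 0).card := by
    apply HH_le_log hp
    intro ω hω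
    rw [Finset.mem_filter]
    exact ⟨Finset.mem_univ _, hω⟩
  rw [HH_id] at h1
  refine h1.trans (Real.log_le_log ?_ hs)
  have h3 : (univ.filter fun c => p c ≠ 0).Nonempty := by
    by_contra hne
    rw [Finset.not_nonempty_iff_eq_empty] at hne
    have hz : ∀ c, p c = 0 := fun c => by
      by_contra hc
      have : c ∈ (univ.filter fun c => p c ≠ 0) := by
        rw [Finset.mem_filter]; exact ⟨Finset.mem_univ _, hc⟩
      rw [hne] at this
      exact absurd this (Finset.notMem_empty _)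
    have := hp.sum_one
    rw [Finset.sum_eq_zero (fun c _ => hz c)] at this
    exact zero_ne_one this
  exact_mod_cast Finset.card_pos.2 h3

end Conv

end Pool.Agent.XO
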