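import Pool.Agent.Lib_helper94.XO.Pr
import Pool.Agent.Lib_helper94.XO.P1.DL
import Pool.Agent.Lib_helper94.XO.P1.Prod

/-!
# Part I, I.9: general facts on ratios of conditional laws
-/

set_option autoImplicit false

namespace Pool.Agent.XO

open Finset

section Ratio

variable {Ω α β γ δ : Type} [Fintype Ω] [Fintype α] [Fintype β] [Fintype γ] [Fintype δ]

omit [Fintype α] [Fintype β] in
/-- the law of an injective function -/
theorem lw_inj (P : Ω → ℝ) (X : Ω → α) (e : α → β) (he : Function.Injective e) (a : α) :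
    lw P (fun ω => e (X ω)) (e a) = lw P X a := by
  classical
  unfold lw
  apply Finset.sum_congr rfl
  intro ω _
  by_cases h : X ω = a
  · rw [if_pos h, if_pos (show e (X ω) = e a by rw [h])]
  · rw [if_neg h, if_neg (fun h' => h (he h'))]

/-- `E [P(A|Z) / P(A|W)] ≤ 1` for `Z = f(W)` -/
theorem cond_ratio {P : Ω → ℝ} (hP : IsLaw P) (A : Ω → α) (W : Ω → β) (Z : Ω → γ) (f : β → γ)
    (hZ : ∀ ω, Z ω = f (W ω)) :
    ∑ ω, P ω * (lw P W (W ω) * lw P (fun ω => (A ω, Z ω)) (A ω, Z ω) /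
      (lw P (fun ω => (A ω, W ω)) (A ω, W ω) * lw P Z (Z ω))) ≤ 1 := by
  have hnAW := lw_nonneg hP.nonneg (fun ω => (A ω, W ω))
  have hnAZ := lw_nonneg hP.nonneg (fun ω => (A ω, Z ω))
  have hnW := lw_nonneg hP.nonneg W
  have hnZ := lw_nonneg hP.nonneg Z
  have h1 := sum_lw_mul P (fun ω => (A ω, W ω)) (fun x => lw P W x.2 *
    lw P (fun ω => (A ω, Z ω)) (x.1, f x.2) /
      (lw P (fun ω => (A ω, W ω)) x * lw P Z (f x.2)))
  have h2 : ∑ ω, P ω * (lw P W (W ω) * lw P (fun ω => (A ω, Z ω)) (A ω, Z ω) /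
      (lw P (fun ω => (A ω, W ω)) (A ω, W ω) * lw P Z (Z ω))) =
      ∑ x : α × β, lw P (fun ω => (A ω, W ω)) x * (lw P W x.2 *
    lw P (fun ω => (A ω, Z ω)) (x.1, f x.2) /
      (lw P (fun ω => (A ω, W ω)) x * lw P Z (f x.2))) := by
    rw [h1]
    apply Finset.sum_congr rfl
    intro ω _
    simp only [hZ]
  rw [h2, Fintype.sum_prod_type, Finset.sum_comm]
  calc ∑ b, ∑ a, lw P (fun ω => (A ω, W ω)) (a, b) * (lw P W b *
        lw P (fun ω => (A ω, Z ω)) (a, f b) /
        (lw P (fun ω => (A ω, W ω)) (a, b) * lw P Z (f b)))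
      ≤ ∑ b, lw P W b := by
        apply Finset.sum_le_sum
        intro b _
        calc ∑ a, lw P (fun ω => (A ω, W ω)) (a, b) * (lw P W b *
              lw P (fun ω => (A ω, Z ω)) (a, f b) /
              (lw P (fun ω => (A ω, W ω)) (a, b) * lw P Z (f b)))
            ≤ ∑ a, lw P W b * (lw P (fun ω => (A ω, Z ω)) (a, f b) / lw P Z (f b)) := by
              apply Finset.sum_le_sum
              intro a _
              rcases (hnAW (a, b)).eq_or_lt with h | h
              · rw [← h, zero_mul]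
                exact mul_nonneg (hnW b) (div_nonneg (hnAZ _) (hnZ _))
              · rcases (hnZ (f b)).eq_or_lt with h' | h'
                · rw [← h', mul_zero, div_zero, mul_zero, div_zero, mul_zero]
                · apply le_of_eq
                  field_simp
          _ = lw P W b * ((∑ a, lw P (fun ω => (A ω, Z ω)) (a, f b)) / lw P Z (f b)) := by
              rw [Finset.sum_div, Finset.mul_sum]
          _ = lw P W b * (lw P Z (f b) / lw P Z (f b)) := by rw [lw_pair_sum P A Z (f b)]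
          _ ≤ lw P W b * 1 := by
              apply mul_le_mul_of_nonneg_left _ (hnW b)
              exact div_self_le_one _
          _ = lw P W b := mul_one _
    _ = 1 := (hP.lw W).sum_one

/-- tail of `log [P(A|W) / P(A|Z)]` -/
theorem cond_tail {P : Ω → ℝ} (hP : IsLaw P) (A : Ω → α) (W : Ω → β) (Z : Ω → γ) (f : β → γ)
    (hZ : ∀ ω, Z ω = f (W ω)) {K x : ℝ} (hx : 0 < x)
    (hK : HH P (fun ω => (A ω, Z ω)) - HH P Z - HH P (fun ω => (A ω, W ω)) + HH P W ≤ K) :
    pr P (fun ω => Real.exp x * (lw P W (W ω) * lw P (fun ω => (A ω, Z ω)) (A ω, Z ω)) <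
      lw P (fun ω => (A ω, W ω)) (A ω, W ω) * lw P Z (Z ω)) ≤ (K + 1) / x := by
  classical
  set q := fun ω => lw P (fun ω => (A ω, W ω)) (A ω, W ω) with hq
  set u := fun ω => lw P W (W ω) with hu
  set v := fun ω => lw P (fun ω => (A ω, Z ω)) (A ω, Z ω) with hv
  set z := fun ω => lw P Z (Z ω) with hz
  set D := fun ω => Real.log (q ω) + Real.log (z ω) - Real.log (u ω) - Real.log (v ω) with hD
  have hED : ∑ ω, P ω * D ω ≤ K := by
    refine le_trans (le_of_eq ?_) hK
    rw [HH_eq P (fun ω => (A ω, Z ω)), HH_eq P Z, HH_eq P (fun ω => (A ω, W ω)), HH_eq P W,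
      ← Finset.sum_sub_distrib, ← Finset.sum_sub_distrib, ← Finset.sum_add_distrib]
    apply Finset.sum_congr rfl
    intro ω _
    simp only [hD, hq, hu, hv, hz]
    ring
  have hpos : ∀ ω, 0 < P ω → 0 < q ω ∧ 0 < u ω ∧ 0 < v ω ∧ 0 < z ω := fun ω h =>
    ⟨lt_of_lt_of_le h (le_lw hP.nonneg (fun ω => (A ω, W ω)) ω),
      lt_of_lt_of_le h (le_lw hP.nonneg W ω),
      lt_of_lt_of_le h (le_lw hP.nonneg (fun ω => (A ω, Z ω)) ω),
      lt_of_lt_of_le h (le_lw hP.nonneg Z ω)⟩
  have hE1 : ∑ ω, P ω * (u ω * v ω / (q ω * z ω)) ≤ 1 := cond_ratio hP A W Z f hZ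
  have hterm : ∀ ω, x * (if Real.exp x * (u ω * v ω) < q ω * z ω then P ω else 0) ≤
      P ω * D ω + P ω * (u ω * v ω / (q ω * z ω)) := by
    intro ω
    rcases (hP.nonneg ω).eq_or_lt with h0 | h0
    · rw [← h0]; simp
    · obtain ⟨h1, h2, h3, h4⟩ := hpos ω h0
      have hD' : D ω = Real.log (q ω * z ω / (u ω * v ω)) := by
        simp only [hD]
        rw [Real.log_div (by positivity) (by positivity), Real.log_mul h1.ne' h4.ne',
          Real.log_mul h2.ne' h3.ne']
        ring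
      have hxx : 0 < q ω * z ω / (u ω * v ω) := by positivity
      have hinv : u ω * v ω / (q ω * z ω) = (q ω * z ω / (u ω * v ω))⁻¹ := by
        rw [inv_div]
      rw [← mul_add, hD', hinv]
      set y := q ω * z ω / (u ω * v ω) with hydef
      have hlogx : 0 ≤ Real.log y + y⁻¹ := by
        have := Real.add_one_le_exp (-Real.log y)
        rw [Real.exp_neg, Real.exp_log hxx] at this
        linarith
      split_ifs with h5
      · rw [mul_comm]
        apply mul_le_mul_of_nonneg_left _ h0.le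
        have h6 : Real.exp x < y := by
          rw [hydef, lt_div_iff₀ (by positivity)]
          exact h5
        have h7 : x < Real.log y := by
          rw [← Real.log_exp x]
          exact Real.log_lt_log (Real.exp_pos _) h6
        have : 0 < y⁻¹ := by positivity
        linarith
      · rw [mul_zero]
        exact mul_nonneg h0.le hlogx
  have hsum := Finset.sum_le_sum (fun ω (_ : ω ∈ Finset.univ) => hterm ω)
  rw [← Finset.mul_sum, Finset.sum_add_distrib] at hsum
  have hpr : pr P (fun ω => Real.exp x * (lw P W (W ω) *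
      lw P (fun ω => (A ω, Z ω)) (A ω, Z ω)) <
      lw P (fun ω => (A ω, W ω)) (A ω, W ω) * lw P Z (Z ω)) =
      ∑ ω, (if Real.exp x * (u ω * v ω) < q ω * z ω then P ω else 0) := by
    unfold pr
    exact Finset.sum_congr rfl fun ω _ => by congr
  rw [hpr, le_div_iff₀ hx]
  linarith

end Ratio

section Chain

variable {Ω α β γ δ : Type} [Fintype Ω] [Fintype α] [Fintype β] [Fintype γ] [Fintype δ]

/-- the deterministic core of I.9: `x₁ = Y`, `g`, `W' = (Z₁, Z₂)`, `Z = f(W')` -/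
theorem tight_abs {P : Ω → ℝ} (hP : IsLaw P) (Y : Ω → α) (g : Ω → β) (W : Ω → γ) (Z : Ω → δ)
    (f : γ → δ) (hZ : ∀ ω, Z ω = f (W ω)) {K x δ' θ : ℝ} (hx : 0 < x) (hδ : 0 < δ')
    (hK : HH P (fun ω => ((Y ω, g ω), Z ω)) - HH P Z - HH P (fun ω => ((Y ω, g ω), W ω)) +
      HH P W ≤ K)
    (hdet : pr P (fun ω => lw P (fun ω => (Y ω, (W ω, g ω))) (Y ω, (W ω, g ω)) <
      1 / 2 * lw P (fun ω => (W ω, g ω)) (W ω, g ω)) ≤ θ) :
    pr P (fun ω => lw P (fun ω => ((Y ω, g ω), Z ω)) ((Y ω, g ω), Z ω) <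
      Real.exp (-x) * (δ' / 2) * lw P (fun ω => (g ω, Z ω)) (g ω, Z ω)) ≤
      (K + 1) / x + δ' + θ := by
  classical
  have h1 := cond_tail hP (fun ω => (Y ω, g ω)) W Z f hZ hx hK
  have h2 := cond_ratio hP g W Z f hZ
  -- Markov for the second ratio
  have h3 : pr P (fun ω => δ'⁻¹ ≤ lw P W (W ω) * lw P (fun ω => (g ω, Z ω)) (g ω, Z ω) /
      (lw P (fun ω => (g ω, W ω)) (g ω, W ω) * lw P Z (Z ω))) ≤ δ' := by
    have h4 := pr_markov hP.nonneg (fun ω => lw P W (W ω) *
      lw P (fun ω => (g ω, Z ω)) (g ω, Z ω) /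
      (lw P (fun ω => (g ω, W ω)) (g ω, W ω) * lw P Z (Z ω)))
      (fun ω => div_nonneg (mul_nonneg (lw_nonneg hP.nonneg _ _) (lw_nonneg hP.nonneg _ _))
        (mul_nonneg (lw_nonneg hP.nonneg _ _) (lw_nonneg hP.nonneg _ _))) (inv_pos.2 hδ)
    refine h4.trans ?_
    rw [div_inv_eq_mul]
    calc _ ≤ 1 * δ' := mul_le_mul_of_nonneg_right h2 hδ.le
      _ = δ' := one_mul _
  have hperm1 : ∀ ω, lw P (fun ω => (Y ω, (W ω, g ω))) (Y ω, (W ω, g ω)) =
      lw P (fun ω => ((Y ω, g ω), W ω)) ((Y ω, g ω), W ω) := by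
    intro ω
    exact (lw_inj P (fun ω => (Y ω, (W ω, g ω))) (fun x => ((x.1, x.2.2), x.2.1))
      (fun a b h => by
        obtain ⟨a1, a2, a3⟩ := a
        obtain ⟨b1, b2, b3⟩ := b
        simp only [Prod.mk.injEq] at h ⊢
        tauto) (Y ω, (W ω, g ω))).symm
  have hperm2 : ∀ ω, lw P (fun ω => (W ω, g ω)) (W ω, g ω) =
      lw P (fun ω => (g ω, W ω)) (g ω, W ω) := by
    intro ω
    exact (lw_inj P (fun ω => (W ω, g ω)) Prod.swap Prod.swap_injective (W ω, g ω)).symm
  calc pr P (fun ω => lw P (fun ω => ((Y ω, g ω), Z ω)) ((Y ω, g ω), Z ω) <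
      Real.exp (-x) * (δ' / 2) * lw P (fun ω => (g ω, Z ω)) (g ω, Z ω))
      ≤ pr P (fun ω => (Real.exp x * (lw P W (W ω) *
        lw P (fun ω => ((Y ω, g ω), Z ω)) ((Y ω, g ω), Z ω)) <
        lw P (fun ω => ((Y ω, g ω), W ω)) ((Y ω, g ω), W ω) * lw P Z (Z ω)) ∨
        ((δ'⁻¹ ≤ lw P W (W ω) * lw P (fun ω => (g ω, Z ω)) (g ω, Z ω) /
          (lw P (fun ω => (g ω, W ω)) (g ω, W ω) * lw P Z (Z ω))) ∨
        (lw P (fun ω => (Y ω, (W ω, g ω))) (Y ω, (W ω, g ω)) <
          1 / 2 * lw P (fun ω => (W ω, g ω)) (W ω, g ω)))) := by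
        apply pr_mono hP.nonneg
        intro ω hω hbad
        by_contra hcon
        push Not at hcon
        obtain ⟨c1, c2, c3⟩ := hcon
        rw [hperm1, hperm2] at c3
        have p1 : 0 < lw P W (W ω) := lt_of_lt_of_le hω (le_lw hP.nonneg W ω)
        have p2 : 0 < lw P Z (Z ω) := lt_of_lt_of_le hω (le_lw hP.nonneg Z ω)
        have p3 : 0 < lw P (fun ω => (g ω, W ω)) (g ω, W ω) :=
          lt_of_lt_of_le hω (le_lw hP.nonneg (fun ω => (g ω, W ω)) ω)
        have p4 : 0 < lw P (fun ω => (g ω, Z ω)) (g ω, Z ω) :=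
          lt_of_lt_of_le hω (le_lw hP.nonneg (fun ω => (g ω, Z ω)) ω)
        rw [div_lt_iff₀ (by positivity)] at c2
        -- names
        set a := lw P W (W ω)
        set b := lw P (fun ω => ((Y ω, g ω), Z ω)) ((Y ω, g ω), Z ω)
        set c := lw P (fun ω => ((Y ω, g ω), W ω)) ((Y ω, g ω), W ω)
        set d := lw P Z (Z ω)
        set e := lw P (fun ω => (g ω, Z ω)) (g ω, Z ω)
        set h := lw P (fun ω => (g ω, W ω)) (g ω, W ω)
        -- c1 : c * d ≤ exp x * (a * b); c2 : a * e < δ'⁻¹ * (h * d); c3 : 1/2 * h ≤ c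
        have hex : Real.exp (-x) * Real.exp x = 1 := by
          rw [← Real.exp_add, neg_add_cancel, Real.exp_zero]
        have e1 : δ' * (a * e) < h * d := by
          have := mul_lt_mul_of_pos_left c2 hδ
          rwa [← mul_assoc δ' δ'⁻¹, mul_inv_cancel₀ hδ.ne', one_mul] at this
        have e2 : 1 / 2 * h * d ≤ c * d := mul_le_mul_of_nonneg_right c3 p2.le
        have e3 : δ' / 2 * (a * e) < Real.exp x * (a * b) := by
          calc δ' / 2 * (a * e) = 1 / 2 * (δ' * (a * e)) := by ring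
            _ < 1 / 2 * (h * d) := by linarith
            _ = 1 / 2 * h * d := by ring
            _ ≤ _ := e2.trans c1
        have e4 : δ' / 2 * e < Real.exp x * b := by
          have : a * (δ' / 2 * e) < a * (Real.exp x * b) := by linarith
          exact lt_of_mul_lt_mul_left this p1.le
        have e5 := mul_lt_mul_of_pos_left e4 (Real.exp_pos (-x))
        rw [← mul_assoc (Real.exp (-x)) (Real.exp x), hex, one_mul] at e5
        have e6 : Real.exp (-x) * (δ' / 2) * e = Real.exp (-x) * (δ' / 2 * e) := by ring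
        rw [e6] at hbad
        exact lt_asymm hbad e5
    _ ≤ (K + 1) / x + (δ' + θ) :=
        (pr_or_le hP.nonneg _ _).trans (add_le_add h1
          ((pr_or_le hP.nonneg _ _).trans (add_le_add h3 hdet)))
    _ = (K + 1) / x + δ' + θ := by ring

end Chain

end Pool.Agent.XO
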