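import Pool.Agent.Lib_helper94.XO.P1.Rat

/-!
# Part I, I.9: the model of tightness
-/

set_option autoImplicit false

namespace Pool.Agent.XO

open Finset

section Model

variable {V : Type} [AddCommGroup V] [Fintype V] [DecidableEq V]

/-- the law of `((x₁, (x₂ … x_{m+1})), (a, b))` -/
def to_P (p : V → ℝ) (m u v : ℕ) : (V × (Fin m → V)) × (V × V) → ℝ :=
  prl (prl p (fun c : Fin m → V => pw p c)) (prl (cp p u) (cp p v))

theorem to_law {p : V → ℝ} (hp : IsLaw p) (m u v : ℕ) : IsLaw (to_P p m u v) :=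
  (hp.prl hp.pw).prl ((hp.cp u).prl (hp.cp v))

theorem lw_equiv {Ω Ω' α : Type} [Fintype Ω] [Fintype Ω'] (e : Ω ≃ Ω') (P : Ω → ℝ) (P' : Ω' → ℝ)
    (h : ∀ ω, P ω = P' (e ω)) (F : Ω' → α) : lw P (fun ω => F (e ω)) = lw P' F := by
  classical
  ext a
  unfold lw
  refine Fintype.sum_equiv e _ _ ?_
  intro ω
  rw [h]

/-- middle four exchange -/
def to_e (m : ℕ) : ((V × (Fin m → V)) × (V × V)) ≃ ((V × V) × ((Fin m → V) × V)) where
  toFun x := ((x.1.1, x.2.1), (x.1.2, x.2.2))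
  invFun x := ((x.1.1, x.2.1), (x.1.2, x.2.2))
  left_inv _ := rfl
  right_inv _ := rfl

theorem to_Y {p : V → ℝ} (hp : IsLaw p) (m u v : ℕ) :
    lw (to_P p m u v) (fun ω => ω.1.1) = p := by
  unfold to_P
  rw [lw_prl_fst (prl p (fun c : Fin m → V => pw p c)) ((hp.cp u).prl (hp.cp v))
    (fun x => x.1), lw_prl_fst p hp.pw (fun x => x), lw_id]

theorem to_X {p : V → ℝ} (hp : IsLaw p) (m u v : ℕ) :
    lw (to_P p m u v) (fun ω => ω.1.2) = pw p := by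
  unfold to_P
  rw [lw_prl_fst (prl p (fun c : Fin m → V => pw p c)) ((hp.cp u).prl (hp.cp v))
    (fun x => x.2), lw_prl_snd (fun c : Fin m → V => pw p c) hp (fun x => x), lw_id]

theorem to_XYB {p : V → ℝ} (hp : IsLaw p) (m u v : ℕ) (x : Fin m → V) (y b : V) :
    lw (to_P p m u v) (fun ω => (ω.1.2, ω.1.1, ω.1.1 + ω.2.1)) (x, y, b) =
      pw p x * (p y * cp p u (b - y)) := by
  have h1 := lw_inj (to_P p m u v) (fun ω => (ω.1, ω.2.1))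
    (fun z : (V × (Fin m → V)) × V => (z.1.2, z.1.1, z.1.1 + z.2))
    (fun a a' h => by
      obtain ⟨⟨a1, a2⟩, a3⟩ := a
      obtain ⟨⟨b1, b2⟩, b3⟩ := a'
      simp only [Prod.mk.injEq] at h ⊢
      obtain ⟨h1, h2, h3⟩ := h
      subst h1 h2
      exact ⟨⟨rfl, rfl⟩, add_left_cancel h3⟩) ((y, x), b - y)
  simp only [add_sub_cancel] at h1
  rw [h1]
  have h2 := lw_prl (prl p (fun c : Fin m → V => pw p c)) (prl (cp p u) (cp p v))
    (fun z => z) (fun z => z.1) (y, x) (b - y)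
  unfold to_P
  rw [h2, lw_id, lw_prl_fst (cp p u) (hp.cp v) (fun z => z), lw_id]
  unfold prl
  ring

theorem to_YB {p : V → ℝ} (hp : IsLaw p) (m u v : ℕ) (y b : V) :
    lw (to_P p m u v) (fun ω => (ω.1.1, ω.1.1 + ω.2.1)) (y, b) = p y * cp p u (b - y) := by
  have h := lw_pair_sum (to_P p m u v) (fun ω => ω.1.2) (fun ω => (ω.1.1, ω.1.1 + ω.2.1)) (y, b)
  rw [← h, Finset.sum_congr rfl (fun x _ => to_XYB hp m u v x y b), ← Finset.sum_mul,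
    kl_sum_pw p hp.sum_one, one_mul]

theorem to_ind {p : V → ℝ} (hp : IsLaw p) (m u v : ℕ) (x : Fin m → V) (y b : V) :
    lw (to_P p m u v) (fun ω => (ω.1.2, ω.1.1, ω.1.1 + ω.2.1)) (x, y, b) =
      pw p x * lw (to_P p m u v) (fun ω => (ω.1.1, ω.1.1 + ω.2.1)) (y, b) := by
  rw [to_XYB hp, to_YB hp]

theorem to_lw_B {p : V → ℝ} (hp : IsLaw p) (m u v : ℕ) :
    lw (to_P p m u v) (fun ω => ω.1.1 + ω.2.1) = cp p (u + 1) := by
  unfold to_P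
  rw [lw_prl_add' (prl p (fun c : Fin m → V => pw p c)) (prl (cp p u) (cp p v)) (fun z => z.1)
    (fun z => z.1), lw_prl_fst p hp.pw (fun z => z), lw_id,
    lw_prl_fst (cp p u) (hp.cp v) (fun z => z), lw_id, ← q_cp_succ']

/-- `H(Y|B) = A(u+1)` -/
theorem to_HYB {p : V → ℝ} (hp : IsLaw p) (m u v : ℕ) :
    HH (to_P p m u v) (fun ω => (ω.1.1, ω.1.1 + ω.2.1)) -
      HH (to_P p m u v) (fun ω => ω.1.1 + ω.2.1) = AA p (u + 1) := by
  have hP := to_law hp m u v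
  have h1 : HH (to_P p m u v) (fun ω => (ω.1.1, ω.1.1 + ω.2.1)) = ent p + ent (cp p u) := by
    have h2 : HH (to_P p m u v) (fun ω => (ω.1.1, ω.2.1)) = ent p + ent (cp p u) := by
      unfold to_P
      rw [HH_prl (hp.prl hp.pw) ((hp.cp u).prl (hp.cp v)) (fun z => z.1) (fun z => z.1),
        HH_prl_fst hp.pw (fun z => z), HH_prl_fst (hp.cp v) (fun z => z), HH_id, HH_id]
    rw [← h2]
    exact HH_congr hP _ _ (fun y => (y.1, y.2 - y.1)) (fun y => (y.1, y.1 + y.2))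
      (fun x => by simp only [add_sub_cancel_left]) (fun _ => rfl)
  rw [h1, AA_succ]
  unfold HH
  rw [to_lw_B hp]

theorem to_lw_g {p : V → ℝ} (_hp : IsLaw p) (m : ℕ) :
    lw (prl p (fun c : Fin m → V => pw p c)) (fun z => z.1 + ∑ i, z.2 i) = cp p (m + 1) := by
  rw [lw_prl_add' p (fun c : Fin m → V => pw p c) (fun z => z) (fun z => ∑ i, z i), lw_id,
    ← q_cp_eq_lw, ← q_cp_succ']

theorem to_lw_Yg {p : V → ℝ} (_hp : IsLaw p) (m : ℕ) (y g : V) :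
    lw (prl p (fun c : Fin m → V => pw p c)) (fun z => (z.1, z.1 + ∑ i, z.2 i)) (y, g) =
      p y * cp p m (g - y) := by
  have h1 := lw_inj (prl p (fun c : Fin m → V => pw p c)) (fun z => (z.1, ∑ i, z.2 i))
    (fun z : V × V => (z.1, z.1 + z.2))
    (fun a a' h => by
      obtain ⟨a1, a2⟩ := a
      obtain ⟨b1, b2⟩ := a'
      simp only [Prod.mk.injEq] at h ⊢
      obtain ⟨h1, h2⟩ := h
      subst h1
      exact ⟨rfl, add_left_cancel h2⟩) (y, g - y)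
  simp only [add_sub_cancel] at h1
  rw [h1, lw_prl p (fun c : Fin m → V => pw p c) (fun z => z) (fun z => ∑ i, z i), lw_id,
    ← q_cp_eq_lw]

theorem to_lw_ab {p : V → ℝ} (_hp : IsLaw p) (u v : ℕ) :
    lw (prl (cp p u) (cp p v)) (fun z => z.1 + z.2) = cp p (u + v) := by
  rw [lw_prl_add, ← q_cp_add]

omit [Fintype V] [DecidableEq V] in
/-- the sum `Z = Z₁ + Z₂` as a function -/
theorem to_Zeq (m : ℕ) (ω : (V × (Fin m → V)) × (V × V)) :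
    (ω.1.1 + ω.2.1) + (∑ i, ω.1.2 i + ω.2.2) = (ω.1.1 + ∑ i, ω.1.2 i) + (ω.2.1 + ω.2.2) := by
  abel

theorem to_lw_YgZ {p : V → ℝ} (hp : IsLaw p) (m u v : ℕ) (y g z : V) :
    lw (to_P p m u v) (fun ω => ((ω.1.1, ω.1.1 + ∑ i, ω.1.2 i),
      (ω.1.1 + ω.2.1) + (∑ i, ω.1.2 i + ω.2.2))) ((y, g), z) =
      p y * cp p m (g - y) * cp p (u + v) (z - g) := by
  have h0 : (fun ω : (V × (Fin m → V)) × (V × V) => ((ω.1.1, ω.1.1 + ∑ i, ω.1.2 i),
      (ω.1.1 + ω.2.1) + (∑ i, ω.1.2 i + ω.2.2))) = fun ω =>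
      (fun z : (V × V) × V => (z.1, z.1.2 + z.2))
        ((ω.1.1, ω.1.1 + ∑ i, ω.1.2 i), ω.2.1 + ω.2.2) := by
    ext ω
    · rfl
    · rfl
    · exact to_Zeq m ω
  have h1 := lw_inj (to_P p m u v)
    (fun ω => ((ω.1.1, ω.1.1 + ∑ i, ω.1.2 i), ω.2.1 + ω.2.2))
    (fun z : (V × V) × V => (z.1, z.1.2 + z.2))
    (fun a a' h => by
      obtain ⟨a1, a2⟩ := a
      obtain ⟨b1, b2⟩ := a'
      simp only [Prod.mk.injEq] at h ⊢
      obtain ⟨h1, h2⟩ := h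
      subst h1
      exact ⟨rfl, add_left_cancel h2⟩) ((y, g), z - g)
  simp only [add_sub_cancel] at h1
  rw [h0, h1]
  unfold to_P
  rw [lw_prl (prl p (fun c : Fin m → V => pw p c)) (prl (cp p u) (cp p v))
    (fun z => (z.1, z.1 + ∑ i, z.2 i)) (fun z => z.1 + z.2), to_lw_Yg hp, to_lw_ab hp]

theorem to_lw_gZ {p : V → ℝ} (hp : IsLaw p) (m u v : ℕ) (g z : V) :
    lw (to_P p m u v) (fun ω => (ω.1.1 + ∑ i, ω.1.2 i,
      (ω.1.1 + ω.2.1) + (∑ i, ω.1.2 i + ω.2.2))) (g, z) =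
      cp p (m + 1) g * cp p (u + v) (z - g) := by
  have h0 : (fun ω : (V × (Fin m → V)) × (V × V) => (ω.1.1 + ∑ i, ω.1.2 i,
      (ω.1.1 + ω.2.1) + (∑ i, ω.1.2 i + ω.2.2))) = fun ω =>
      (fun z : V × V => (z.1, z.1 + z.2)) (ω.1.1 + ∑ i, ω.1.2 i, ω.2.1 + ω.2.2) := by
    ext ω
    · rfl
    · exact to_Zeq m ω
  have h1 := lw_inj (to_P p m u v) (fun ω => (ω.1.1 + ∑ i, ω.1.2 i, ω.2.1 + ω.2.2))
    (fun z : V × V => (z.1, z.1 + z.2))
    (fun a a' h => by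
      obtain ⟨a1, a2⟩ := a
      obtain ⟨b1, b2⟩ := a'
      simp only [Prod.mk.injEq] at h ⊢
      obtain ⟨h1, h2⟩ := h
      subst h1
      exact ⟨rfl, add_left_cancel h2⟩) (g, z - g)
  simp only [add_sub_cancel] at h1
  rw [h0, h1]
  unfold to_P
  rw [lw_prl (prl p (fun c : Fin m → V => pw p c)) (prl (cp p u) (cp p v))
    (fun z => z.1 + ∑ i, z.2 i) (fun z => z.1 + z.2), to_lw_g hp, to_lw_ab hp]

theorem to_HZ {p : V → ℝ} (hp : IsLaw p) (m u v : ℕ) :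
    HH (to_P p m u v) (fun ω => (ω.1.1 + ω.2.1) + (∑ i, ω.1.2 i + ω.2.2)) =
      ent (cp p (m + 1 + (u + v))) := by
  have h0 : (fun ω : (V × (Fin m → V)) × (V × V) =>
      (ω.1.1 + ω.2.1) + (∑ i, ω.1.2 i + ω.2.2)) = fun ω =>
      (ω.1.1 + ∑ i, ω.1.2 i) + (ω.2.1 + ω.2.2) := funext (to_Zeq m)
  rw [h0]
  unfold HH to_P
  rw [lw_prl_add' (prl p (fun c : Fin m → V => pw p c)) (prl (cp p u) (cp p v))
    (fun z => z.1 + ∑ i, z.2 i) (fun z => z.1 + z.2), to_lw_g hp, to_lw_ab hp, ← q_cp_add]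

theorem to_HYgZ {p : V → ℝ} (hp : IsLaw p) (m u v : ℕ) :
    HH (to_P p m u v) (fun ω => ((ω.1.1, ω.1.1 + ∑ i, ω.1.2 i),
      (ω.1.1 + ω.2.1) + (∑ i, ω.1.2 i + ω.2.2))) =
      ent p + ent (cp p m) + ent (cp p (u + v)) := by
  have hP := to_law hp m u v
  have h2 : HH (to_P p m u v) (fun ω => ((ω.1.1, ∑ i, ω.1.2 i), ω.2.1 + ω.2.2)) =
      ent p + ent (cp p m) + ent (cp p (u + v)) := by
    unfold to_P
    rw [HH_prl (hp.prl hp.pw) ((hp.cp u).prl (hp.cp v)) (fun z => (z.1, ∑ i, z.2 i))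
      (fun z => z.1 + z.2), HH_prl hp hp.pw (fun z => z) (fun z => ∑ i, z i), HH_id]
    unfold HH
    rw [← q_cp_eq_lw, to_lw_ab hp]
  rw [← h2]
  exact HH_congr hP _ _ (fun y => ((y.1.1, y.1.2 - y.1.1), y.2 - y.1.2))
    (fun y => ((y.1.1, y.1.1 + y.1.2), (y.1.1 + y.1.2) + y.2))
    (fun x => by
      simp only [Prod.mk.injEq, true_and]
      constructor <;> abel)
    (fun x => by
      simp only [Prod.mk.injEq, true_and]
      abel)

theorem to_HYgW {p : V → ℝ} (hp : IsLaw p) (m u v : ℕ) :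
    HH (to_P p m u v) (fun ω => ((ω.1.1, ω.1.1 + ∑ i, ω.1.2 i),
      (ω.1.1 + ω.2.1, ∑ i, ω.1.2 i + ω.2.2))) =
      ent p + ent (cp p m) + (ent (cp p u) + ent (cp p v)) := by
  have hP := to_law hp m u v
  have h2 : HH (to_P p m u v) (fun ω => ((ω.1.1, ∑ i, ω.1.2 i), (ω.2.1, ω.2.2))) =
      ent p + ent (cp p m) + (ent (cp p u) + ent (cp p v)) := by
    unfold to_P
    rw [HH_prl (hp.prl hp.pw) ((hp.cp u).prl (hp.cp v)) (fun z => (z.1, ∑ i, z.2 i))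
      (fun z => (z.1, z.2)), HH_prl hp hp.pw (fun z => z) (fun z => ∑ i, z i), HH_id,
      HH_prl (hp.cp u) (hp.cp v) (fun z => z) (fun z => z), HH_id, HH_id]
    unfold HH
    rw [← q_cp_eq_lw]
  rw [← h2]
  exact HH_congr hP _ _
    (fun y => ((y.1.1, y.1.2 - y.1.1), (y.2.1 - y.1.1, y.2.2 - (y.1.2 - y.1.1))))
    (fun y => ((y.1.1, y.1.1 + y.1.2), (y.1.1 + y.2.1, y.1.2 + y.2.2)))
    (fun x => by
      simp only [Prod.mk.injEq, true_and]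
      refine ⟨by abel, by abel, by abel⟩)
    (fun x => rfl)

theorem to_HW {p : V → ℝ} (hp : IsLaw p) (m u v : ℕ) :
    HH (to_P p m u v) (fun ω => (ω.1.1 + ω.2.1, ∑ i, ω.1.2 i + ω.2.2)) =
      ent (cp p (u + 1)) + ent (cp p (m + v)) := by
  have h1 := lw_equiv (to_e (V := V) m) (to_P p m u v)
    (prl (prl p (cp p u)) (prl (fun c : Fin m → V => pw p c) (cp p v)))
    (fun ω => by
      simp only [to_P, prl, to_e, Equiv.coe_fn_mk]
      ring) (fun x => (x.1.1 + x.1.2, ∑ i, x.2.1 i + x.2.2))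
  simp only [to_e, Equiv.coe_fn_mk] at h1
  unfold HH
  rw [h1]
  have h2 := HH_prl (hp.prl (hp.cp u)) ((hp.pw (k := m)).prl (hp.cp v))
    (fun x : V × V => x.1 + x.2) (fun x : (Fin m → V) × V => ∑ i, x.1 i + x.2)
  unfold HH at h2
  rw [h2, lw_prl_add, ← q_cp_succ', lw_prl_add' (fun c : Fin m → V => pw p c) (cp p v)
    (fun z => ∑ i, z i) (fun z => z), lw_id, ← q_cp_eq_lw, ← q_cp_add]

/-- events that depend on `(x₁, …, x_{m+1})` -/
theorem to_pr {p : V → ℝ} (hp : IsLaw p) (m u v : ℕ) (E : V → V → Prop) :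
    pr (fun c : Fin (m + 1) → V => pw p c) (fun c => E (∑ i, c i) (c 0)) =
      pr (to_P p m u v) (fun ω => E (ω.1.1 + ∑ i, ω.1.2 i) ω.1.1) := by
  classical
  have h1 : pr (to_P p m u v) (fun ω => E (ω.1.1 + ∑ i, ω.1.2 i) ω.1.1) =
      pr (prl p (fun c : Fin m → V => pw p c)) (fun z => E (z.1 + ∑ i, z.2 i) z.1) := by
    have h2 := lw_prl_fst (prl p (fun c : Fin m → V => pw p c)) ((hp.cp u).prl (hp.cp v))
      (fun z => E (z.1 + ∑ i, z.2 i) z.1)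
    have h3 := congrFun h2 True
    unfold lw at h3
    simp only [eq_iff_iff, iff_true] at h3
    unfold pr to_P
    refine Eq.trans ?_ (h3.trans ?_)
    · exact Finset.sum_congr rfl fun ω _ => by congr
    · exact Finset.sum_congr rfl fun ω _ => by congr
  rw [h1]
  unfold pr prl
  refine Fintype.sum_equiv (Fin.consEquiv (fun _ : Fin (m + 1) => V)).symm _ _ ?_
  intro c
  have h4 : (Fin.consEquiv (fun _ : Fin (m + 1) => V)).symm c = (c 0, Fin.tail c) := rfl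
  have e1 : ∑ i, c i = c 0 + ∑ i, (Fin.tail c) i := Fin.sum_univ_succ c
  have e2 : pw p c = p (c 0) * pw p (Fin.tail c) := q_pw_succ p c
  rw [h4]
  simp only [e1, e2]

/-- **the finite form of I.9** -/
theorem tight_fin [Module (ZMod 2) V] {p : V → ℝ} {s κ κ' : ℝ} (hPW : PWorld p s κ κ') {m : ℕ}
    (hm : 1 ≤ m) (u v : ℕ) {M ι K x δ' : ℝ} (hM : 1 ≤ M) (hι : AA p (u + 1) ≤ ι)
    (h128 : 128 * (m : ℝ) ^ 2 * Real.exp (M * (ι + 1)) * (Real.log s / Real.log 2) ≤ s ^ κ)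
    (hK : ent (cp p (u + v)) - ent (cp p (m + 1 + (u + v))) - ent (cp p u) - ent (cp p v) +
      ent (cp p (u + 1)) + ent (cp p (m + v)) ≤ K) (hx : 0 < x) (hδ : 0 < δ') :
    pr (fun c : Fin (m + 1) → V => pw p c) (fun c => mu p (m + 1) (∑ i, c i) (c 0) <
      Real.exp (-x) * (δ' / 2)) ≤ (K + 1) / x + δ' + 2 * (8 / M + 2 * s ^ (-κ')) := by
  classical
  have hp := hPW.law
  have hP := to_law hp m u v
  have hdl := (dl7 hP p hPW hm (fun ω => ω.1.1) (fun ω => ω.1.2)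
    (fun ω => ((ω.1.1 + ω.2.1, ∑ i, ω.1.2 i + ω.2.2), ω.1.1 + ∑ i, ω.1.2 i))
    (fun ω => ω.1.1 + ω.2.1) ⟨fun x => x.1.1, fun _ => rfl⟩ (fun x => x.2)
    (fun _ _ => rfl) (to_X hp m u v) (to_ind hp m u v) (to_Y hp m u v) hM
    (by
      rw [to_HYB hp]
      have := HH_le_pair hP (fun ω => ω.1.1)
        (fun ω => ((ω.1.1 + ω.2.1, ∑ i, ω.1.2 i + ω.2.2), ω.1.1 + ∑ i, ω.1.2 i))
      linarith) h128).2
  have h1 := tight_abs hP (fun ω => ω.1.1) (fun ω => ω.1.1 + ∑ i, ω.1.2 i)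
    (fun ω => (ω.1.1 + ω.2.1, ∑ i, ω.1.2 i + ω.2.2))
    (fun ω => (ω.1.1 + ω.2.1) + (∑ i, ω.1.2 i + ω.2.2)) (fun x => x.1 + x.2) (fun _ => rfl)
    (K := K) hx hδ
    (by
      rw [to_HYgZ hp, to_HZ hp, to_HYgW hp, to_HW hp]
      linarith) hdl
  rw [to_pr hp m u v (fun g c => mu p (m + 1) g c < Real.exp (-x) * (δ' / 2))]
  refine le_trans ?_ h1
  apply pr_mono hP.nonneg
  intro ω hω hmu
  show lw (to_P p m u v) (fun ω => ((ω.1.1, ω.1.1 + ∑ i, ω.1.2 i),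
      (ω.1.1 + ω.2.1) + (∑ i, ω.1.2 i + ω.2.2))) ((ω.1.1, ω.1.1 + ∑ i, ω.1.2 i),
      (ω.1.1 + ω.2.1) + (∑ i, ω.1.2 i + ω.2.2)) < Real.exp (-x) * (δ' / 2) *
      lw (to_P p m u v) (fun ω => (ω.1.1 + ∑ i, ω.1.2 i,
      (ω.1.1 + ω.2.1) + (∑ i, ω.1.2 i + ω.2.2))) (ω.1.1 + ∑ i, ω.1.2 i,
      (ω.1.1 + ω.2.1) + (∑ i, ω.1.2 i + ω.2.2))
  have hpos1 : 0 < lw (to_P p m u v) (fun ω => (ω.1.1 + ∑ i, ω.1.2 i,
      (ω.1.1 + ω.2.1) + (∑ i, ω.1.2 i + ω.2.2))) (ω.1.1 + ∑ i, ω.1.2 i,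
      (ω.1.1 + ω.2.1) + (∑ i, ω.1.2 i + ω.2.2)) := lt_of_lt_of_le hω
    (le_lw hP.nonneg (fun ω => (ω.1.1 + ∑ i, ω.1.2 i,
      (ω.1.1 + ω.2.1) + (∑ i, ω.1.2 i + ω.2.2))) ω)
  rw [to_lw_gZ hp] at hpos1
  rw [to_lw_YgZ hp, to_lw_gZ hp]
  set g := ω.1.1 + ∑ i, ω.1.2 i with hg
  set z := (ω.1.1 + ω.2.1) + (∑ i, ω.1.2 i + ω.2.2) with hz
  have hc1 := q_cp_nonneg hp.nonneg (m + 1) g
  have hc2 := q_cp_nonneg hp.nonneg (u + v) (z - g)
  have hg0 : 0 < cp p (m + 1) g := lt_of_le_of_ne hc1 (fun h => by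
    rw [← h, zero_mul] at hpos1; exact lt_irrefl _ hpos1)
  have hz0 : 0 < cp p (u + v) (z - g) := lt_of_le_of_ne hc2 (fun h => by
    rw [← h, mul_zero] at hpos1; exact lt_irrefl _ hpos1)
  unfold mu at hmu
  rw [Nat.add_sub_cancel, div_lt_iff₀ hg0] at hmu
  calc p ω.1.1 * cp p m (g - ω.1.1) * cp p (u + v) (z - g)
      < Real.exp (-x) * (δ' / 2) * cp p (m + 1) g * cp p (u + v) (z - g) :=
        mul_lt_mul_of_pos_right hmu hz0
    _ = _ := by ring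

end Model

end Pool.Agent.XO
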